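import Mathlib
import Pool.Agent.Y327.Wall2
import Pool.Agent.Y327.Recur
import Pool.Agent.H715R2.Uncountable
import Pool.Agent.TH314.CSD.Attain

/-! # Isolation of the integral forms among the forms bounded away from zero -/

set_option autoImplicit false

open Filter Topology Matrix

namespace Pool.Agent.X87.CSD

open H715R2 Pool.Agent.Y327

variable {d : ℕ}

/-- limits of pairs, the first point in a smaller invariant set -/
lemma limit_pair2 (hd : 0 < d) {π : Fin d → Fin d} {V ν : ℝ} (hV : 0 < V) (hν : 0 < ν)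
    {Q : Set (Matrix (Fin d) (Fin d) ℝ)} (hQdet : ∀ h ∈ Q, |h.det| = V)
    (hQnu : ∀ h ∈ Q, HasNu h ν) (hQc : IsClosed Q) (hQinv : InvB π Q)
    {P : Set (Matrix (Fin d) (Fin d) ℝ)} (hPQ : P ⊆ Q) (hPc : IsClosed P) (hPinv : InvB π P)
    {h q : ℕ → Matrix (Fin d) (Fin d) ℝ} {b : ℕ → Fin d → ℝ} (hh : ∀ n, h n ∈ P)
    (hq : ∀ n, q n * h n ∈ Q) (hb : ∀ n, BB π (b n)) {q' : Matrix (Fin d) (Fin d) ℝ}
    (hlim : Tendsto (fun n => diagonal (b n) * q n * diagonal (fun i => (b n i)⁻¹)) atTop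
      (𝓝 q')) :
    ∃ h' ∈ P, q' * h' ∈ Q := by
  obtain ⟨R, hR⟩ := exists_bound hd V ν hV hν
  have hγ : ∀ n, ∃ γ : Matrix (Fin d) (Fin d) ℤ, IsUnit γ.det ∧
      ∀ i j, |(diagonal (b n) * h n * zR γ) i j| ≤ R := by
    intro n
    have h1 : diagonal (b n) * h n ∈ Q := hQinv.diag (hPQ (hh n)) (hb n)
    exact hR _ (hQdet _ h1) (hQnu _ h1)
  choose γ hγu hγR using hγ
  obtain ⟨h', -, φ, hφ, hlim'⟩ := (isCompact_box (d := d) R).tendsto_subseq hγR
  refine ⟨h', hPc.mem_of_tendsto hlim' (Eventually.of_forall fun n =>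
    hPinv _ (hh _) _ _ (hb _) (hγu _)), ?_⟩
  have h1 := (hlim.comp hφ.tendsto_atTop).mul hlim'
  refine hQc.mem_of_tendsto h1 (Eventually.of_forall fun n => ?_)
  have h2 := hQinv _ (hq (φ n)) _ _ (hb (φ n)) (hγu (φ n))
  have h3 : (diagonal (b (φ n)) * q (φ n) * diagonal (fun i => (b (φ n) i)⁻¹)) *
      (diagonal (b (φ n)) * h (φ n) * zR (γ (φ n)))
      = diagonal (b (φ n)) * (q (φ n) * h (φ n)) * zR (γ (φ n)) := by
    have h4 : (diagonal (fun i => (b (φ n) i)⁻¹) : Matrix (Fin d) (Fin d) ℝ) *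
        diagonal (b (φ n)) = 1 := by
      rw [diagonal_mul_diagonal]
      have : (fun i => (b (φ n) i)⁻¹ * b (φ n) i) = fun _ => (1 : ℝ) := by
        funext i
        exact inv_mul_cancel₀ ((hb (φ n)).1 i).ne'
      rw [this, diagonal_one]
    calc _ = diagonal (b (φ n)) * q (φ n) * (diagonal (fun i => (b (φ n) i)⁻¹) *
        diagonal (b (φ n))) * h (φ n) * zR (γ (φ n)) := by simp only [Matrix.mul_assoc]
      _ = _ := by rw [h4, Matrix.mul_one]; simp only [Matrix.mul_assoc]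
  simp only [Function.comp]
  rw [h3]
  exact h2

/-- **Pairs which differ in one row.** -/
theorem row_pair2 (hd : 0 < d) {π : Fin d → Fin d} {V ν : ℝ} (hV : 0 < V) (hν : 0 < ν)
    {Q : Set (Matrix (Fin d) (Fin d) ℝ)} (hQdet : ∀ h ∈ Q, |h.det| = V)
    (hQnu : ∀ h ∈ Q, HasNu h ν) (hQc : IsClosed Q) (hQinv : InvB π Q)
    {P : Set (Matrix (Fin d) (Fin d) ℝ)} (hPQ : P ⊆ Q) (hPc : IsClosed P) (hPinv : InvB π P)
    {h₀ : Matrix (Fin d) (Fin d) ℝ} (hh₀ : h₀ ∈ P)
    {k : Fin d} (hk : ∀ l, π l = π k → l = k)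
    (hfr : ∃ᶠ h in 𝓝[Q] h₀, ¬ ∃ c : ℝ, h k = c • h₀ k) :
    ∃ h' ∈ P, ∃ w : Fin d → ℝ, w k = 0 ∧ w ≠ 0 ∧ Md {k} (fun _ => w) * h' ∈ Q := by
  classical
  have hdet : |h₀.det| = V := hQdet _ (hPQ hh₀)
  have hdet0 : h₀.det ≠ 0 := by
    intro h0
    rw [h0, abs_zero] at hdet
    exact hV.ne hdet
  have hu : IsUnit h₀.det := isUnit_iff_ne_zero.2 hdet0
  obtain ⟨hs, hs1, hs2⟩ := Filter.exists_seq_forall_of_frequently
    (hfr.and_eventually self_mem_nhdsWithin)
  have hslim : Tendsto hs atTop (𝓝 h₀) := hs1.mono_right nhdsWithin_le_nhds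
  set q : ℕ → Matrix (Fin d) (Fin d) ℝ := fun n => hs n * h₀⁻¹ with hq
  have hqh : ∀ n, q n * h₀ = hs n := fun n => by
    rw [hq, Matrix.mul_assoc, Matrix.nonsing_inv_mul _ hu, Matrix.mul_one]
  have hqlim : Tendsto q atTop (𝓝 1) := by
    have h1 : Tendsto q atTop (𝓝 (h₀ * h₀⁻¹)) := hslim.mul tendsto_const_nhds
    rwa [Matrix.mul_nonsing_inv _ hu] at h1
  have hqent : ∀ i j, Tendsto (fun n => q n i j) atTop
      (𝓝 ((1 : Matrix (Fin d) (Fin d) ℝ) i j)) := fun i j =>
    ((continuous_apply_apply i j).tendsto (1 : Matrix (Fin d) (Fin d) ℝ)).comp hqlim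
  set lam : ℕ → ℝ := fun n => ∑ l ∈ Finset.univ.erase k, |q n k l| with hlam
  have hlam0 : ∀ n, 0 < lam n := by
    intro n
    by_contra hcon
    have h1 : lam n = 0 := le_antisymm (not_lt.1 hcon) (Finset.sum_nonneg fun _ _ => abs_nonneg _)
    have h2 : ∀ l, l ≠ k → q n k l = 0 := by
      intro l hl
      have h3 := (Finset.sum_eq_zero_iff_of_nonneg (fun _ _ => abs_nonneg _)).1 h1 l
        (Finset.mem_erase.2 ⟨hl, Finset.mem_univ l⟩)
      exact abs_eq_zero.1 h3
    apply (hs2 n).1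
    refine ⟨q n k k, ?_⟩
    rw [← hqh n]
    funext j
    rw [Matrix.mul_apply, Pi.smul_apply, smul_eq_mul, Finset.sum_eq_single k]
    · intro l _ hl
      rw [h2 l hl, zero_mul]
    · intro h; exact absurd (Finset.mem_univ k) h
  have hlamlim : Tendsto lam atTop (𝓝 0) := by
    have h1 : Tendsto lam atTop (𝓝 (∑ l ∈ Finset.univ.erase k,
        |(1 : Matrix (Fin d) (Fin d) ℝ) k l|)) :=
      tendsto_finsetSum _ fun l _ => (hqent k l).abs
    have h2 : (∑ l ∈ Finset.univ.erase k, |(1 : Matrix (Fin d) (Fin d) ℝ) k l|) = 0 := by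
      refine Finset.sum_eq_zero fun l hl => ?_
      rw [Matrix.one_apply_ne (Finset.ne_of_mem_erase hl).symm, abs_zero]
    rwa [h2] at h1
  choose b hb hbk using fun n => exists_bk (π := π) hd hk (inv_pos.2 (hlam0 n))
  -- the normalised row
  set y : ℕ → Fin d → ℝ := fun n l => if l = k then 0 else q n k l / lam n with hy
  have hyb : ∀ n, y n ∈ Metric.closedBall (0 : Fin d → ℝ) 1 := by
    intro n
    rw [mem_closedBall_zero_iff, pi_norm_le_iff_of_nonneg zero_le_one]
    intro l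
    simp only [hy]
    by_cases hl : l = k
    · rw [if_pos hl, norm_zero]; exact zero_le_one
    · rw [if_neg hl, Real.norm_eq_abs, abs_div, abs_of_pos (hlam0 n), div_le_one (hlam0 n)]
      exact Finset.single_le_sum (f := fun l => |q n k l|) (fun _ _ => abs_nonneg _)
        (Finset.mem_erase.2 ⟨hl, Finset.mem_univ l⟩)
  obtain ⟨w, -, φ, hφ, hw⟩ := (isCompact_closedBall (0 : Fin d → ℝ) 1).tendsto_subseq hyb
  have hwent : ∀ l, Tendsto (fun n => y (φ n) l) atTop (𝓝 (w l)) := fun l =>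
    ((continuous_apply l).tendsto w).comp hw
  have hwk : w k = 0 := by
    refine tendsto_nhds_unique (hwent k) ?_
    simp only [hy, if_true]
    exact tendsto_const_nhds
  have hsum : ∑ l ∈ Finset.univ.erase k, |w l| = 1 := by
    have h1 : Tendsto (fun n => ∑ l ∈ Finset.univ.erase k, |y (φ n) l|) atTop
        (𝓝 (∑ l ∈ Finset.univ.erase k, |w l|)) :=
      tendsto_finsetSum _ fun l _ => (hwent l).abs
    have h2 : (fun n => ∑ l ∈ Finset.univ.erase k, |y (φ n) l|) = fun _ => (1 : ℝ) := by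
      funext n
      have h3 : ∀ l ∈ Finset.univ.erase k, |y (φ n) l| = |q (φ n) k l| / lam (φ n) := by
        intro l hl
        simp only [hy, if_neg (Finset.ne_of_mem_erase hl), abs_div, abs_of_pos (hlam0 (φ n))]
      rw [Finset.sum_congr rfl h3, ← Finset.sum_div]
      exact div_self (hlam0 (φ n)).ne'
    rw [h2] at h1
    exact tendsto_nhds_unique h1 tendsto_const_nhds
  have hw0 : w ≠ 0 := by
    intro h0
    rw [h0] at hsum
    simp at hsum
  -- the limit of the conjugates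
  have hlimX : Tendsto (fun n => diagonal (b (φ n)) * q (φ n) *
      diagonal (fun i => (b (φ n) i)⁻¹)) atTop (𝓝 (Md {k} (fun _ => w))) := by
    refine tendsto_pi_nhds.2 fun i => tendsto_pi_nhds.2 fun j => ?_
    have hent : ∀ n, (diagonal (b (φ n)) * q (φ n) * diagonal (fun i => (b (φ n) i)⁻¹)) i j
        = b (φ n) i * q (φ n) i j * (b (φ n) j)⁻¹ := by
      intro n
      rw [Matrix.mul_diagonal, Matrix.diagonal_mul]
    simp only [hent]
    have hqij := (hqent i j).comp hφ.tendsto_atTop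
    by_cases hi : i = k
    · by_cases hj : j = k
      · -- diagonal entry
        have h1 : (Md {k} (fun _ => w)) i j = 1 := by
          rw [hi, hj, Md, Matrix.add_apply, Matrix.one_apply_eq, Matrix.of_apply]
          simp [hwk]
        rw [h1]
        have h2 : (fun n => b (φ n) i * q (φ n) i j * (b (φ n) j)⁻¹) = fun n => q (φ n) i j := by
          funext n
          have := ((hb (φ n)).1 j).ne'
          rw [hi, ← hj]
          field_simp
        rw [h2]
        have h3 : (1 : Matrix (Fin d) (Fin d) ℝ) i j = 1 := by rw [hi, hj, Matrix.one_apply_eq]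
        rw [h3] at hqij
        exact hqij
      · have h1 : (Md {k} (fun _ => w)) i j = w j := by
          rw [hi, Md, Matrix.add_apply, Matrix.one_apply_ne (Ne.symm hj), Matrix.of_apply]
          simp
        rw [h1]
        have h2 : (fun n => b (φ n) i * q (φ n) i j * (b (φ n) j)⁻¹) = fun n => y (φ n) j := by
          funext n
          have h4 := ((hb (φ n)).1 j).ne'
          have h5 := hbk (φ n) j hj
          simp only [hy, if_neg hj]
          rw [hi, h5]
          field_simp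
        rw [h2]
        exact hwent j
    · have h1 : (Md {k} (fun _ => w)) i j = (1 : Matrix (Fin d) (Fin d) ℝ) i j := by
        rw [Md, Matrix.add_apply, Matrix.of_apply]
        simp [hi]
      rw [h1]
      by_cases hj : j = k
      · have h2 : (fun n => b (φ n) i * q (φ n) i j * (b (φ n) j)⁻¹)
            = fun n => q (φ n) i j * lam (φ n) := by
          funext n
          have h4 := ((hb (φ n)).1 i).ne'
          have h5 := hbk (φ n) i hi
          have h6 := (hlam0 (φ n)).ne'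
          rw [hj, h5]
          field_simp
        rw [h2]
        have h7 := hqij.mul (hlamlim.comp hφ.tendsto_atTop)
        rw [mul_zero] at h7
        have h8 : (1 : Matrix (Fin d) (Fin d) ℝ) i j = 0 := by
          rw [hj, Matrix.one_apply_ne hi]
        rw [h8]
        exact h7
      · have h2 : (fun n => b (φ n) i * q (φ n) i j * (b (φ n) j)⁻¹)
            = fun n => q (φ n) i j := by
          funext n
          have h4 := ((hb (φ n)).1 i).ne'
          have h5 := hbk (φ n) i hi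
          have h6 := hbk (φ n) j hj
          have h7 : b (φ n) j = b (φ n) i := by
            have h8 : (lam (φ n))⁻¹ * b (φ n) j = (lam (φ n))⁻¹ * b (φ n) i := by
              rw [← h5, ← h6]
            exact mul_left_cancel₀ (inv_pos.2 (hlam0 (φ n))).ne' h8
          rw [h7]
          field_simp
        rw [h2]
        exact hqij
  obtain ⟨h', hh', hh''⟩ := limit_pair2 hd hV hν hQdet hQnu hQc hQinv hPQ hPc hPinv (h := fun _ => h₀)
    (q := fun n => q (φ n)) (b := fun n => b (φ n)) (fun _ => hh₀) (fun n => by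
      simp only [hqh]; exact (hs2 (φ n)).2) (fun n => hb (φ n)) hlimX
  exact ⟨h', hh', w, hwk, hw0, hh''⟩

/-- **Reduction to one block.** -/
theorem block_pair2 (hd : 0 < d) {π : Fin d → Fin d} {V ν : ℝ} (hV : 0 < V) (hν : 0 < ν)
    {Q : Set (Matrix (Fin d) (Fin d) ℝ)} (hQdet : ∀ h ∈ Q, |h.det| = V)
    (hQnu : ∀ h ∈ Q, HasNu h ν) (hQc : IsClosed Q) (hQinv : InvB π Q)
    {P : Set (Matrix (Fin d) (Fin d) ℝ)} (hPQ : P ⊆ Q) (hPc : IsClosed P) (hPinv : InvB π P)
    {k : Fin d} (hk : ∀ l, π l = π k → l = k) {h : Matrix (Fin d) (Fin d) ℝ} (hh : h ∈ P)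
    {w : Fin d → ℝ} (hwk : w k = 0) (hw : Md {k} (fun _ => w) * h ∈ Q) (l₀ : Fin d) :
    ∃ h' ∈ P, Md {k} (fun _ l => if π l = π l₀ then w l else 0) * h' ∈ Q := by
  classical
  set T : Finset (Fin d) := Finset.univ.filter (fun l => π l = π l₀ ∨ l = k) with hT
  have hTmem : ∀ l, l ∈ T ↔ (π l = π l₀ ∨ l = k) := fun l => by simp [hT]
  have hTblock : ∀ i j, π i = π j → i ∈ T → j ∈ T := by
    intro i j hij hi
    rw [hTmem] at hi ⊢
    rcases hi with hi | hi
    · exact Or.inl (hij ▸ hi)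
    · subst hi
      exact Or.inr (hk j hij.symm)
  set ψ : Fin d → ℝ := fun l => if l ∈ T then -((Tᶜ.card : ℕ) : ℝ) else ((T.card : ℕ) : ℝ) with hψ
  have hψsum : ∑ l, ψ l = 0 := by
    have h1 : ∑ l, ψ l = ∑ l ∈ T, ψ l + ∑ l ∈ Tᶜ, ψ l := (Finset.sum_add_sum_compl T ψ).symm
    have h2 : ∑ l ∈ T, ψ l = (T.card : ℝ) * (-((Tᶜ.card : ℕ) : ℝ)) := by
      rw [Finset.sum_congr rfl (fun l hl => (if_pos hl : ψ l = _)), Finset.sum_const, nsmul_eq_mul]
    have h3 : ∑ l ∈ Tᶜ, ψ l = (Tᶜ.card : ℝ) * ((T.card : ℕ) : ℝ) := by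
      rw [Finset.sum_congr rfl (fun l hl => (if_neg (Finset.mem_compl.1 hl) : ψ l = _)),
        Finset.sum_const, nsmul_eq_mul]
    rw [h1, h2, h3]
    ring
  have hkT : k ∈ T := (hTmem k).2 (Or.inr rfl)
  set b : ℕ → Fin d → ℝ := fun n l => Real.exp ((n : ℝ) * ψ l) with hb
  have hbB : ∀ n, BB π (b n) := by
    intro n
    refine ⟨fun i => Real.exp_pos _, ?_, fun i j hij => ?_⟩
    · rw [hb]
      simp only
      rw [← Real.exp_sum, ← Finset.mul_sum, hψsum, mul_zero, Real.exp_zero]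
    · simp only [hb, hψ]
      by_cases hi : i ∈ T
      · rw [if_pos hi, if_pos (hTblock i j hij hi)]
      · have hj : j ∉ T := fun hj => hi (hTblock j i hij.symm hj)
        rw [if_neg hi, if_neg hj]
  refine limit_pair2 hd hV hν hQdet hQnu hQc hQinv hPQ hPc hPinv (h := fun _ => h)
    (q := fun _ => Md {k} (fun _ => w)) (b := b) (fun _ => hh) (fun _ => hw) hbB ?_
  refine tendsto_pi_nhds.2 fun i => tendsto_pi_nhds.2 fun j => ?_
  have hent : ∀ n, (diagonal (b n) * Md {k} (fun _ => w) * diagonal (fun i => (b n i)⁻¹)) i j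
      = b n i * Md {k} (fun _ => w) i j * (b n j)⁻¹ := by
    intro n
    rw [Matrix.mul_diagonal, Matrix.diagonal_mul]
  simp only [hent]
  by_cases hij : i = j
  · subst hij
    have h1 : (fun n => b n i * Md {k} (fun _ => w) i i * (b n i)⁻¹)
        = fun _ => Md {k} (fun _ => w) i i := by
      funext n
      have := ((hbB n).1 i).ne'
      field_simp
    rw [h1]
    have h2 : Md {k} (fun _ l => if π l = π l₀ then w l else 0) i i
        = Md {k} (fun _ => w) i i := by
      simp only [Md, Matrix.add_apply, Matrix.one_apply_eq, Matrix.of_apply]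
      by_cases hi : i = k
      · subst hi
        simp [hwk]
      · simp [hi]
    rw [h2]
    exact tendsto_const_nhds
  · by_cases hi : i = k
    · subst hi
      have h1 : Md {i} (fun _ => w) i j = w j := by
        simp [Md, Matrix.add_apply, Matrix.one_apply_ne hij]
      have h2 : Md {i} (fun _ l => if π l = π l₀ then w l else 0) i j
          = if π j = π l₀ then w j else 0 := by
        simp [Md, Matrix.add_apply, Matrix.one_apply_ne hij]
      rw [h1, h2]
      have h3 : ∀ n : ℕ, b n i * w j * (b n j)⁻¹ = Real.exp ((n : ℝ) * (ψ i - ψ j)) * w j := by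
        intro n
        simp only [hb]
        rw [mul_sub, Real.exp_sub]
        ring
      simp only [h3]
      by_cases hj : π j = π l₀
      · rw [if_pos hj]
        have hjT : j ∈ T := (hTmem j).2 (Or.inl hj)
        have h4 : ψ i - ψ j = 0 := by
          simp only [hψ, if_pos hkT, if_pos hjT, sub_self]
        simp only [h4, mul_zero, Real.exp_zero, one_mul]
        exact tendsto_const_nhds
      · rw [if_neg hj]
        have hjT : j ∉ T := by
          rw [hTmem]
          rintro (h5 | h5)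
          · exact hj h5
          · exact hij h5.symm
        have h4 : ψ i - ψ j < 0 := by
          simp only [hψ, if_pos hkT, if_neg hjT]
          have h5 : (0 : ℝ) ≤ (Tᶜ.card : ℝ) := Nat.cast_nonneg _
          have h6 : (0 : ℝ) < (T.card : ℝ) := by
            exact_mod_cast Finset.card_pos.2 ⟨i, hkT⟩
          linarith
        have h6 : Tendsto (fun n : ℕ => Real.exp ((n : ℝ) * (ψ i - ψ j))) atTop (𝓝 0) :=
          Real.tendsto_exp_atBot.comp
            (tendsto_natCast_atTop_atTop.atTop_mul_const_of_neg h4)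
        have h7 := h6.mul_const (w j)
        rwa [zero_mul] at h7
    · have h1 : Md {k} (fun _ => w) i j = 0 := by
        simp [Md, Matrix.add_apply, Matrix.one_apply_ne hij, hi]
      have h2 : Md {k} (fun _ l => if π l = π l₀ then w l else 0) i j = 0 := by
        simp [Md, Matrix.add_apply, Matrix.one_apply_ne hij, hi]
      rw [h1, h2]
      simp only [mul_zero, zero_mul]
      exact tendsto_const_nhds



/-! ## the sets of forms bounded away from zero -/

/-- the matrices of absolute determinant `V` whose form is bounded below by `ν` -/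
def NN (d : ℕ) (V ν : ℝ) : Set (Matrix (Fin d) (Fin d) ℝ) := {h | |h.det| = V ∧ HasNu h ν}

lemma NN_closed (V ν : ℝ) : IsClosed (NN d V ν) := by
  have h1 : IsClosed {h : Matrix (Fin d) (Fin d) ℝ | |h.det| = V} :=
    isClosed_eq (continuous_det'.abs) continuous_const
  have h2 : IsClosed {h : Matrix (Fin d) (Fin d) ℝ | HasNu h ν} := by
    have : {h : Matrix (Fin d) (Fin d) ℝ | HasNu h ν} =
        ⋂ m : Fin d → ℤ, ⋂ _ : m ≠ 0, {h | ν ≤ |FF h (iR m)|} := by
      ext h
      simp [HasNu]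
    rw [this]
    exact isClosed_iInter fun m => isClosed_iInter fun _ =>
      isClosed_le continuous_const (continuous_FF (iR m)).abs
  exact h1.inter h2

lemma NN_inv (V ν : ℝ) : H715R2.Inv (NN d V ν) := by
  intro h hh a γ ha0 ha hγ
  have hmem : diagonal a * h * zR γ ∈ Orb h := ⟨a, γ, ha0, ha, hγ, rfl⟩
  exact ⟨by rw [abs_det_orb hmem]; exact hh.1, hasNu_closure hh.2 (subset_closure hmem)⟩

lemma NN_orb {V ν : ℝ} {h : Matrix (Fin d) (Fin d) ℝ} (hh : h ∈ NN d V ν) :
    closure (Orb h) ⊆ NN d V ν :=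
  orb_subset (NN_closed V ν) (NN_inv V ν) hh

lemma det_ne_of_NN {V ν : ℝ} (hV : 0 < V) {h : Matrix (Fin d) (Fin d) ℝ} (hh : h ∈ NN d V ν) :
    h.det ≠ 0 := by
  intro h0
  have h1 := hh.1
  rw [h0, abs_zero] at h1
  exact hV.ne h1

/-- no integral form has a root direction into a set of forms bounded away from zero -/
theorem no_root_propInt (hd : 3 ≤ d) {V ν : ℝ} (hV : 0 < V) (hν : 0 < ν)
    {h : Matrix (Fin d) (Fin d) ℝ} (hh : h ∈ NN d V ν) (hP : PropInt h) {i j : Fin d}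
    (hij : i ≠ j) {s : ℝ} (hs : s ≠ 0) (hm : transvection i j s * h ∈ NN d V ν) : False := by
  classical
  have hd0 : 0 < d := by omega
  have hdet : h.det ≠ 0 := det_ne_of_NN hV hh
  have hinv := invB_of_inv (NN_inv (d := d) V ν) id
  have key : ∀ c : ℝ, 0 < c → transvection i j (s * c ^ 2) * h ∈ NN d V ν := by
    intro c hc
    have hc1 : 0 < c⁻¹ := inv_pos.2 hc
    have h1 := recur_of_propInt hd hdet hν hh.2 hP hij (ew_BB hij hc1)
    obtain ⟨u, hu, hulim⟩ := exists_seq_of_mem_closure h1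
    have h2 : ∀ n, transvection i j s * u n ∈ NN d V ν := by
      intro n
      obtain ⟨b, γ, hb, hγ, hun⟩ := hu n
      have hb' := pij_iff.1 hb
      rw [hun]
      have h3 : transvection i j s * (diagonal b * h * zR γ) =
          diagonal b * (transvection i j s * h) * zR γ := by
        rw [← Matrix.mul_assoc, ← Matrix.mul_assoc, transv_comm s hb'.2.2]
        simp only [Matrix.mul_assoc]
      rw [h3]
      exact NN_inv V ν _ hm b γ hb'.1 hb'.2.1 hγ
    have h3 : transvection i j s * (diagonal (ew i j c⁻¹) * h) ∈ NN d V ν :=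
      (NN_closed V ν).mem_of_tendsto (tendsto_const_nhds.mul hulim) (Eventually.of_forall h2)
    have h4 := hinv.diag h3 (ew_BB hij hc)
    have h5 : diagonal (ew i j c) * (transvection i j s * (diagonal (ew i j c⁻¹) * h)) =
        transvection i j (s * c ^ 2) * h := by
      rw [← Matrix.mul_assoc, transv_ew hij s hc.ne', Matrix.mul_assoc, ← Matrix.mul_assoc
        (diagonal (ew i j c)), ew_mul, mul_inv_cancel₀ hc.ne', ew_one, Matrix.one_mul]
    rw [h5] at h4
    exact h4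
  refine no_unip hd0 hV hν (M := NN d V ν) (fun h hh => hh.1) (fun h hh => hh.2) (NN_closed V ν)
    hinv hij hs (h := h) ?_
  intro n
  rcases Nat.eq_zero_or_pos n with rfl | hn
  · rw [Nat.cast_zero, zero_mul, transvection_zero, Matrix.one_mul]
    exact hh
  · have hn' : (0 : ℝ) < n := by exact_mod_cast hn
    have := key (Real.sqrt n) (Real.sqrt_pos.2 hn')
    rwa [Real.sq_sqrt hn'.le, mul_comm] at this

/-- **Isolation of integral forms.** -/
theorem isolated (hd : 3 ≤ d) {V ν : ℝ} (hV : 0 < V) (hν : 0 < ν)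
    {h₀ : Matrix (Fin d) (Fin d) ℝ} (hh₀ : h₀ ∈ NN d V ν) (hP : PropInt h₀) :
    ∀ᶠ h in 𝓝[NN d V ν] h₀, ∃ a : Fin d → ℝ, (∀ i, 0 < a i) ∧ ∏ i, a i = 1 ∧
      h = diagonal a * h₀ := by
  classical
  have hd0 : 0 < d := by omega
  have hdet : h₀.det ≠ 0 := det_ne_of_NN hV hh₀
  have hrow : ∀ k : Fin d, ∀ᶠ h in 𝓝[NN d V ν] h₀, ∃ c : ℝ, h k = c • h₀ k := by
    intro k
    by_contra hcon
    have hfr : ∃ᶠ h in 𝓝[NN d V ν] h₀, ¬ ∃ c : ℝ, h k = c • h₀ k := not_eventually.1 hcon
    have hk : ∀ l : Fin d, id l = id k → l = k := fun l hl => hl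
    have hQdet : ∀ h ∈ NN d V ν, |h.det| = V := fun h hh => hh.1
    have hQnu : ∀ h ∈ NN d V ν, HasNu h ν := fun h hh => hh.2
    have hQinv := invB_of_inv (NN_inv (d := d) V ν) id
    have hPinv : InvB id (closure (Orb h₀)) :=
      invB_of_inv (fun _ hh _ _ ha0 ha hγ => closure_mul hh ha0 ha hγ) id
    have hmem₀ : h₀ ∈ closure (Orb h₀) := subset_closure (mem_orb_self h₀)
    obtain ⟨h₁, hh₁, w, hwk, hw0, hw⟩ := row_pair2 hd0 hV hν hQdet hQnu (NN_closed V ν) hQinv
      (NN_orb hh₀) isClosed_closure hPinv hmem₀ hk hfr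
    obtain ⟨j, hj⟩ : ∃ j, w j ≠ 0 := by
      by_contra hcon
      push Not at hcon
      exact hw0 (funext hcon)
    have hjk : j ≠ k := fun h => hj (h ▸ hwk)
    obtain ⟨h₂, hh₂, hw₂⟩ := block_pair2 hd0 hV hν hQdet hQnu (NN_closed V ν) hQinv
      (NN_orb hh₀) isClosed_closure hPinv hk hh₁ hwk hw j
    have h1 : (fun (_ : Fin d) (l : Fin d) => if id l = id j then w l else 0) =
        fun (_ : Fin d) (l : Fin d) => if l = j then w j else 0 := by
      funext _ l
      by_cases hl : l = j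
      · subst hl; simp
      · have h2 : ¬ (id l = id j) := hl
        rw [if_neg h2, if_neg hl]
    rw [h1, Md_eq_transvection] at hw₂
    exact no_root_propInt hd hV hν (NN_orb hh₀ hh₂) (propInt_closure hd hdet hν hh₀.2 hP hh₂)
      hjk.symm hj hw₂
  have hrow' : ∀ᶠ h in 𝓝[NN d V ν] h₀, ∀ k, ∃ c : ℝ, h k = c • h₀ k := eventually_all.2 hrow
  -- the factors are positive near `h₀`
  have hne : ∀ k, ∃ j, h₀ k j ≠ 0 := by
    intro k
    by_contra hcon
    push Not at hcon
    exact hdet (Matrix.det_eq_zero_of_row_eq_zero k hcon)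
  choose j hj using hne
  have hpos : ∀ᶠ h in 𝓝[NN d V ν] h₀, ∀ k, 0 < h k (j k) * h₀ k (j k) := by
    refine eventually_all.2 fun k => ?_
    have h1 : Tendsto (fun h : Matrix (Fin d) (Fin d) ℝ => h k (j k) * h₀ k (j k)) (𝓝 h₀)
        (𝓝 (h₀ k (j k) * h₀ k (j k))) :=
      ((continuous_apply_apply k (j k)).tendsto h₀).mul tendsto_const_nhds
    exact (h1.eventually (lt_mem_nhds (mul_self_pos.2 (hj k)))).filter_mono nhdsWithin_le_nhds
  filter_upwards [hrow', hpos, self_mem_nhdsWithin] with h h1 h2 h3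
  choose c hc using h1
  have hc0 : ∀ k, 0 < c k := by
    intro k
    have h4 := h2 k
    rw [hc k, Pi.smul_apply, smul_eq_mul, mul_assoc] at h4
    exact (pos_iff_pos_of_mul_pos h4).2 (mul_self_pos.2 (hj k))
  have hh : h = diagonal c * h₀ := by
    ext k l
    rw [diagonal_mul, hc k, Pi.smul_apply, smul_eq_mul]
  refine ⟨c, hc0, ?_, hh⟩
  have h5 : |h.det| = |h₀.det| := by rw [h3.1, hh₀.1]
  rw [hh, det_mul, det_diagonal, abs_mul, abs_of_pos (Finset.prod_pos fun k _ => hc0 k)] at h5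
  exact mul_right_cancel₀ (abs_ne_zero.2 hdet) (by rw [h5, one_mul])

/-- a diagonal matrix of product one does not change the form -/
lemma polyF_diag (a : Fin d → ℝ) (h : Matrix (Fin d) (Fin d) ℝ) :
    polyF (diagonal a * h) = (∏ i, a i) • polyF h := by
  unfold polyF
  rw [MvPolynomial.smul_eq_C_mul, map_prod, ← Finset.prod_mul_distrib]
  refine Finset.prod_congr rfl fun i _ => ?_
  rw [Finset.mul_sum]
  refine Finset.sum_congr rfl fun j _ => ?_
  rw [diagonal_mul, MvPolynomial.C_mul, mul_assoc]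

lemma propInt_diag {a : Fin d → ℝ} (ha : ∏ i, a i = 1) {h : Matrix (Fin d) (Fin d) ℝ} :
    PropInt (diagonal a * h) ↔ PropInt h := by
  unfold PropInt
  rw [polyF_diag, ha, one_smul]

/-- the counterexamples bounded below by `ν` form a closed set -/
def CC (d : ℕ) (V ν : ℝ) : Set (Matrix (Fin d) (Fin d) ℝ) := {h ∈ NN d V ν | ¬ PropInt h}

lemma CC_closed (hd : 3 ≤ d) {V ν : ℝ} (hV : 0 < V) (hν : 0 < ν) : IsClosed (CC d V ν) := by
  refine isClosed_of_closure_subset fun h hh => ?_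
  have hN : h ∈ NN d V ν := by
    have h1 : closure (CC d V ν) ⊆ closure (NN d V ν) := closure_mono fun _ hx => hx.1
    have h2 := h1 hh
    rwa [(NN_closed V ν).closure_eq] at h2
  refine ⟨hN, fun hP => ?_⟩
  have h1 := isolated hd hV hν hN hP
  have h2 : ∃ᶠ x in 𝓝 h, x ∈ CC d V ν := mem_closure_iff_frequently.1 hh
  have h3 : ∃ᶠ x in 𝓝[NN d V ν] h, ¬ PropInt x := by
    rw [frequently_nhdsWithin_iff]
    exact h2.mono fun x hx => ⟨hx.2, hx.1⟩
  obtain ⟨x, hx, a, -, ha, hxa⟩ := (h3.and_eventually h1).exists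
  apply hx
  rw [hxa]
  exact (propInt_diag ha).2 hP

/-! ## the maximum -/

lemma CC_inv (V ν : ℝ) {h : Matrix (Fin d) (Fin d) ℝ} (hh : h ∈ CC d V ν)
    {γ : Matrix (Fin d) (Fin d) ℤ} (hγ : IsUnit γ.det) (hP : ¬ PropInt (h * zR γ)) :
    h * zR γ ∈ CC d V ν := by
  refine ⟨?_, hP⟩
  exact (invB_of_inv (NN_inv (d := d) V ν) id).gam hh.1 hγ

lemma nuInf_of_mem_orb (hd : 0 < d) {g h : Matrix (Fin d) (Fin d) ℝ} (hh : h ∈ Orb g) :
    nuInf h = nuInf g := by
  apply le_antisymm
  · obtain ⟨a, γ, ha0, ha, hγ, hhe⟩ := hh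
    refine nuInf_le_of_mem_closure hd (subset_closure ?_)
    refine ⟨fun i => (a i)⁻¹, γ⁻¹, fun i => inv_pos.2 (ha0 i), by
      rw [Finset.prod_inv_distrib, ha, inv_one], ?_, ?_⟩
    · rw [Matrix.isUnit_nonsing_inv_det_iff]; exact hγ
    · rw [hhe]
      have h1 : (diagonal (fun i => (a i)⁻¹) : Matrix (Fin d) (Fin d) ℝ) * diagonal a = 1 := by
        rw [diagonal_mul_diagonal]
        have : (fun i => (a i)⁻¹ * a i) = fun _ => (1 : ℝ) := by
          funext i
          exact inv_mul_cancel₀ (ha0 i).ne'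
        rw [this, diagonal_one]
      calc g = 1 * g * 1 := by rw [Matrix.one_mul, Matrix.mul_one]
        _ = (diagonal (fun i => (a i)⁻¹) * diagonal a) * g * (zR γ * zR γ⁻¹) := by
          rw [h1, zR_inv hγ]
        _ = _ := by simp only [Matrix.mul_assoc]
  · exact nuInf_le_of_mem_closure hd (subset_closure hh)

lemma propInt_orb (hd : 3 ≤ d) {V ν : ℝ} (hV : 0 < V) (hν : 0 < ν)
    {g h : Matrix (Fin d) (Fin d) ℝ} (hg : g ∈ NN d V ν) (hP : PropInt g)
    (hh : h ∈ closure (Orb g)) : PropInt h :=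
  propInt_closure hd (det_ne_of_NN hV hg) hν hg.2 hP hh

/-- the orbit closure of a counterexample consists of counterexamples -/
lemma CC_orb (hd : 3 ≤ d) {V ν : ℝ} (hV : 0 < V) (hν : 0 < ν)
    {g h : Matrix (Fin d) (Fin d) ℝ} (hg : g ∈ CC d V ν) (hh : h ∈ closure (Orb g)) :
    h ∈ CC d V ν := by
  have hinv : ∀ h ∈ Orb g, h ∈ CC d V ν := by
    intro h hh
    refine ⟨NN_orb hg.1 (subset_closure hh), fun hP => hg.2 ?_⟩
    obtain ⟨a, γ, ha0, ha, hγ, hhe⟩ := hh
    have hmem : g ∈ Orb h := by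
      refine ⟨fun i => (a i)⁻¹, γ⁻¹, fun i => inv_pos.2 (ha0 i), by
        rw [Finset.prod_inv_distrib, ha, inv_one], ?_, ?_⟩
      · rw [Matrix.isUnit_nonsing_inv_det_iff]; exact hγ
      · rw [hhe]
        have h1 : (diagonal (fun i => (a i)⁻¹) : Matrix (Fin d) (Fin d) ℝ) * diagonal a = 1 := by
          rw [diagonal_mul_diagonal]
          have : (fun i => (a i)⁻¹ * a i) = fun _ => (1 : ℝ) := by
            funext i
            exact inv_mul_cancel₀ (ha0 i).ne'
          rw [this, diagonal_one]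
        calc g = 1 * g * 1 := by rw [Matrix.one_mul, Matrix.mul_one]
          _ = (diagonal (fun i => (a i)⁻¹) * diagonal a) * g * (zR γ * zR γ⁻¹) := by
            rw [h1, zR_inv hγ]
          _ = _ := by simp only [Matrix.mul_assoc]
    exact propInt_orb hd hV hν (NN_orb hg.1 (by
      rw [hhe]; exact subset_closure ⟨a, γ, ha0, ha, hγ, rfl⟩)) hP (subset_closure hmem)
  have h1 : closure (Orb g) ⊆ closure (CC d V ν) := closure_mono hinv
  have h2 := h1 hh
  rwa [(CC_closed hd hV hν).closure_eq] at h2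

lemma usc_nuInf (hd : 0 < d) : UpperSemicontinuous (nuInf : Matrix (Fin d) (Fin d) ℝ → ℝ) := by
  have := nonempty_ne hd
  refine upperSemicontinuous_ciInf (fun h => nuInf_bdd h) fun x => ?_
  exact (continuous_FF (iR x.1)).abs.upperSemicontinuous

/-- **The maximum over the counterexamples is attained.** -/
theorem exists_max (hd : 3 ≤ d) {V ν : ℝ} (hV : 0 < V) (hν : 0 < ν)
    (hne : (CC d V ν).Nonempty) :
    ∃ g ∈ CC d V ν, ∀ h : Matrix (Fin d) (Fin d) ℝ, |h.det| = V → ¬ PropInt h →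
      nuInf h ≤ nuInf g := by
  have hd0 : 0 < d := by omega
  obtain ⟨R, hR⟩ := exists_bound hd0 V ν hV hν
  have hcpt : IsCompact (CC d V ν ∩ {h : Matrix (Fin d) (Fin d) ℝ | ∀ i j, |h i j| ≤ R}) :=
    (isCompact_box R).inter_left (CC_closed hd hV hν)
  have hred : ∀ h ∈ CC d V ν, ∃ h' ∈ CC d V ν ∩ {h : Matrix (Fin d) (Fin d) ℝ |
      ∀ i j, |h i j| ≤ R}, nuInf h' = nuInf h := by
    intro h hh
    obtain ⟨γ, hγ, hγR⟩ := hR h hh.1.1 hh.1.2
    have hmem : h * zR γ ∈ Orb h := by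
      refine ⟨fun _ => 1, γ, fun _ => one_pos, by simp, hγ, ?_⟩
      have : (diagonal (fun _ : Fin d => (1 : ℝ))) = 1 := diagonal_one
      rw [this, Matrix.one_mul]
    exact ⟨h * zR γ, ⟨CC_orb hd hV hν hh (subset_closure hmem), hγR⟩, nuInf_of_mem_orb hd0 hmem⟩
  have hne' : (CC d V ν ∩ {h : Matrix (Fin d) (Fin d) ℝ | ∀ i j, |h i j| ≤ R}).Nonempty := by
    obtain ⟨h, hh⟩ := hne
    obtain ⟨h', hh', -⟩ := hred h hh
    exact ⟨h', hh'⟩
  obtain ⟨g, hg, hmax⟩ := UpperSemicontinuousOn.exists_isMaxOn hne' hcpt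
    ((usc_nuInf hd0).upperSemicontinuousOn _)
  refine ⟨g, hg.1, fun h hdet hP => ?_⟩
  by_cases hle : ν ≤ nuInf h
  · have hh : h ∈ CC d V ν := by
      refine ⟨⟨hdet, fun m hm => ?_⟩, hP⟩
      have := nonempty_ne hd0
      exact hle.trans (ciInf_le (nuInf_bdd h) ⟨m, hm⟩)
    obtain ⟨h', hh', he⟩ := hred h hh
    rw [← he]
    exact hmax hh'
  · exact (not_le.1 hle).le.trans (le_nuInf hd0 hg.1.1.2)

/-! ## finitely many integral forms -/

/-- **Finiteness.** If all forms bounded below by `ν` are integral, they form finitely many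
classes. -/
theorem finite_classes (hd : 3 ≤ d) {V ν : ℝ} (hV : 0 < V) (hν : 0 < ν)
    (hall : ∀ h ∈ NN d V ν, PropInt h) :
    ∃ S : Finset (Matrix (Fin d) (Fin d) ℝ), (∀ s ∈ S, s ∈ NN d V ν) ∧ ∀ h ∈ NN d V ν,
      ∃ s ∈ S, h ∈ Orb s := by
  classical
  have hd0 : 0 < d := by omega
  obtain ⟨R, hR⟩ := exists_bound hd0 V ν hV hν
  have hcpt : IsCompact (NN d V ν ∩ {h : Matrix (Fin d) (Fin d) ℝ | ∀ i j, |h i j| ≤ R}) :=
    (isCompact_box R).inter_left (NN_closed V ν)
  have hfin : ∃ S : Finset (Matrix (Fin d) (Fin d) ℝ), (∀ s ∈ S, s ∈ NN d V ν) ∧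
      ∀ h ∈ NN d V ν ∩ {h : Matrix (Fin d) (Fin d) ℝ | ∀ i j, |h i j| ≤ R},
      ∃ s ∈ S, ∃ a : Fin d → ℝ, (∀ i, 0 < a i) ∧ ∏ i, a i = 1 ∧ h = diagonal a * s := by
    refine hcpt.induction_on (p := fun T => ∃ S : Finset (Matrix (Fin d) (Fin d) ℝ),
      (∀ s ∈ S, s ∈ NN d V ν) ∧ ∀ h ∈ T,
      ∃ s ∈ S, ∃ a : Fin d → ℝ, (∀ i, 0 < a i) ∧ ∏ i, a i = 1 ∧ h = diagonal a * s) ?_ ?_ ?_ ?_
    · exact ⟨∅, by simp, by simp⟩
    · rintro s t hst ⟨S, hS, h⟩
      exact ⟨S, hS, fun x hx => h x (hst hx)⟩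
    · rintro s t ⟨S, hS, h⟩ ⟨S', hS', h'⟩
      refine ⟨S ∪ S', fun x hx => ?_, ?_⟩
      · rcases Finset.mem_union.1 hx with hx | hx
        · exact hS x hx
        · exact hS' x hx
      rintro x (hx | hx)
      · obtain ⟨s, hs, ha⟩ := h x hx
        exact ⟨s, Finset.mem_union_left _ hs, ha⟩
      · obtain ⟨s, hs, ha⟩ := h' x hx
        exact ⟨s, Finset.mem_union_right _ hs, ha⟩
    · intro x hx
      have h1 := isolated hd hV hν hx.1 (hall x hx.1)
      refine ⟨{h | ∃ a : Fin d → ℝ, (∀ i, 0 < a i) ∧ ∏ i, a i = 1 ∧ h = diagonal a * x},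
        h1.filter_mono (nhdsWithin_mono _ Set.inter_subset_left), {x}, ?_, ?_⟩
      · intro s hs
        rw [Finset.mem_singleton.1 hs]
        exact hx.1
      · intro h hh
        exact ⟨x, Finset.mem_singleton_self x, hh⟩
  obtain ⟨S, hS, hS'⟩ := hfin
  refine ⟨S, hS, fun h hh => ?_⟩
  obtain ⟨γ, hγ, hγR⟩ := hR h hh.1 hh.2
  have hmem : h * zR γ ∈ NN d V ν := (invB_of_inv (NN_inv (d := d) V ν) id).gam hh hγ
  obtain ⟨s, hs, a, ha0, ha, he⟩ := hS' _ ⟨hmem, hγR⟩
  refine ⟨s, hs, a, γ⁻¹, ha0, ha, by rw [Matrix.isUnit_nonsing_inv_det_iff]; exact hγ, ?_⟩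
  rw [← he, Matrix.mul_assoc, zR_inv hγ, Matrix.mul_one]

end Pool.Agent.X87.CSD
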