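import Mathlib
import Pool.Agent.X87.CSD.Isolate
import Pool.Agent.Y327.Meet

/-! # Values at integer points whose type is near a line -/

set_option autoImplicit false

open Filter Topology Matrix

namespace Pool.Agent.X87.CSD

open H715R2 Pool.Agent.Y327

variable {d : ℕ}

/-- the one-parameter group which contracts the factor `k` -/
noncomputable def at1 (k : Fin d) (t : ℝ) : Fin d → ℝ :=
  fun l => if l = k then Real.exp (-(((d : ℝ) - 1) * t)) else Real.exp t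

lemma at1_pos (k : Fin d) (t : ℝ) (l : Fin d) : 0 < at1 k t l := by
  unfold at1
  split_ifs <;> exact Real.exp_pos _

lemma at1_prod (k : Fin d) (t : ℝ) : ∏ l, at1 k t l = 1 := by
  classical
  have hd : 0 < d := Fin.pos k
  rw [← Finset.mul_prod_erase _ _ (Finset.mem_univ k)]
  have h1 : ∏ l ∈ Finset.univ.erase k, at1 k t l = Real.exp t ^ (d - 1) := by
    have h2 : ∀ l ∈ Finset.univ.erase k, at1 k t l = Real.exp t := fun l hl =>
      if_neg (Finset.ne_of_mem_erase hl)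
    rw [Finset.prod_congr rfl h2, Finset.prod_const, Finset.card_erase_of_mem (Finset.mem_univ k),
      Finset.card_univ, Fintype.card_fin]
  rw [h1]
  unfold at1
  rw [if_pos rfl, ← Real.exp_nat_mul, ← Real.exp_add, Nat.cast_sub hd, Nat.cast_one,
    neg_add_cancel, Real.exp_zero]

lemma at1_add (k : Fin d) (s t : ℝ) (l : Fin d) : at1 k s l * at1 k t l = at1 k (s + t) l := by
  unfold at1
  split_ifs
  · rw [← Real.exp_add]; congr 1; ring
  · rw [← Real.exp_add]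

/-- the partition into `k` and the rest -/
def pk (k j : Fin d) : Fin d → Fin d := fun l => if l = k then k else j

lemma pk_single {k j : Fin d} (hj : j ≠ k) (l : Fin d) (h : pk k j l = pk k j k) : l = k := by
  unfold pk at h
  rw [if_pos rfl] at h
  by_contra hl
  rw [if_neg hl] at h
  exact hj h

lemma BB_pk {k j : Fin d} (hj : j ≠ k) {a : Fin d → ℝ} (ha : BB (pk k j) a) :
    ∃ t : ℝ, a = at1 k t := by
  classical
  have hd : 0 < d := Fin.pos k
  set t : ℝ := Real.log (a j) with ht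
  have h1 : ∀ l, l ≠ k → a l = Real.exp t := by
    intro l hl
    rw [ht, Real.exp_log (ha.1 j)]
    refine ha.2.2 l j ?_
    unfold pk
    rw [if_neg hl, if_neg hj]
  have h2 := ha.2.1
  rw [← Finset.mul_prod_erase _ _ (Finset.mem_univ k),
    Finset.prod_congr rfl (fun l hl => h1 l (Finset.ne_of_mem_erase hl)), Finset.prod_const,
    Finset.card_erase_of_mem (Finset.mem_univ k), Finset.card_univ, Fintype.card_fin] at h2
  refine ⟨t, ?_⟩
  funext l
  unfold at1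
  by_cases hl : l = k
  · subst hl
    rw [if_pos rfl, Real.exp_neg]
    refine eq_inv_of_mul_eq_one_left ?_
    rw [← Real.exp_nat_mul, Nat.cast_sub hd, Nat.cast_one] at h2
    exact h2
  · rw [if_neg hl, h1 l hl]

/-- the values at integer points which are near the line at a time in `𝒯` -/
def LineValues (g : Matrix (Fin d) (Fin d) ℝ) (k : Fin d) (𝒯 : Set ℝ) (R : ℝ) : Set ℝ :=
  {v | ∃ x : Fin d → ℤ, (∃ t ∈ 𝒯, ∀ l, at1 k t l * |(g *ᵥ iR x) l| < R) ∧ FF g (iR x) = v}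

/-- the set contains arbitrarily long intervals -/
def LongIntervals (𝒯 : Set ℝ) : Prop := ∀ n : ℕ, ∃ t : ℝ, Set.Icc (t - n) (t + n) ⊆ 𝒯

/-- the limit set along the line -/
def LimSet (g : Matrix (Fin d) (Fin d) ℝ) (k : Fin d) (𝒯 : Set ℝ) :
    Set (Matrix (Fin d) (Fin d) ℝ) :=
  ⋂ n : ℕ, closure {h | ∃ (t : ℝ) (γ : Matrix (Fin d) (Fin d) ℤ), Set.Icc (t - n) (t + n) ⊆ 𝒯 ∧
    IsUnit γ.det ∧ h = diagonal (at1 k t) * g * zR γ}

lemma LimSet_sub (g : Matrix (Fin d) (Fin d) ℝ) (k : Fin d) (𝒯 : Set ℝ) :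
    LimSet g k 𝒯 ⊆ closure (Orb g) := by
  refine (Set.iInter_subset _ 0).trans (closure_mono ?_)
  rintro h ⟨t, γ, -, hγ, rfl⟩
  exact ⟨at1 k t, γ, at1_pos k t, at1_prod k t, hγ, rfl⟩

lemma LimSet_closed (g : Matrix (Fin d) (Fin d) ℝ) (k : Fin d) (𝒯 : Set ℝ) :
    IsClosed (LimSet g k 𝒯) := isClosed_iInter fun _ => isClosed_closure

lemma LimSet_nonempty (hd : 0 < d) {g : Matrix (Fin d) (Fin d) ℝ} (hg : g.det ≠ 0) {ν : ℝ}
    (hν : 0 < ν) (hnu : HasNu g ν) (k : Fin d) {𝒯 : Set ℝ} (h𝒯 : LongIntervals 𝒯) :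
    (LimSet g k 𝒯).Nonempty := by
  obtain ⟨R, hR⟩ := exists_bound hd |g.det| ν (abs_pos.2 hg) hν
  choose t ht using h𝒯
  have hγ : ∀ n, ∃ γ : Matrix (Fin d) (Fin d) ℤ, IsUnit γ.det ∧
      ∀ i j, |(diagonal (at1 k (t n)) * g * zR γ) i j| ≤ R := by
    intro n
    have h1 : diagonal (at1 k (t n)) * g ∈ closure (Orb g) := by
      refine subset_closure ⟨at1 k (t n), 1, at1_pos k _, at1_prod k _, by simp, ?_⟩
      rw [zR_one, Matrix.mul_one]
    exact hR _ (abs_det_closure h1) (hasNu_closure hnu h1)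
  choose γ hγu hγR using hγ
  obtain ⟨h', -, φ, hφ, hlim⟩ := (isCompact_box (d := d) R).tendsto_subseq hγR
  refine ⟨h', Set.mem_iInter.2 fun n => ?_⟩
  refine mem_closure_of_tendsto hlim ?_
  filter_upwards [eventually_ge_atTop n] with m hm
  refine ⟨t (φ m), γ (φ m), ?_, hγu _, rfl⟩
  refine (Set.Icc_subset_Icc ?_ ?_).trans (ht (φ m))
  · have h1 : (n : ℝ) ≤ φ m := by exact_mod_cast hm.trans (hφ.id_le m)
    linarith
  · have h1 : (n : ℝ) ≤ φ m := by exact_mod_cast hm.trans (hφ.id_le m)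
    linarith

lemma LimSet_inv {g : Matrix (Fin d) (Fin d) ℝ} {k j : Fin d} (hj : j ≠ k) (𝒯 : Set ℝ) :
    InvB (pk k j) (LimSet g k 𝒯) := by
  intro h hh a γ ha hγ
  obtain ⟨s, rfl⟩ := BB_pk hj ha
  refine Set.mem_iInter.2 fun n => ?_
  obtain ⟨N, hN⟩ := exists_nat_ge (|s| + n)
  have h1 := Set.mem_iInter.1 hh N
  obtain ⟨u, hu, hulim⟩ := exists_seq_of_mem_closure h1
  have h2 : Tendsto (fun m => diagonal (at1 k s) * u m * zR γ) atTop
      (𝓝 (diagonal (at1 k s) * h * zR γ)) :=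
    (tendsto_const_nhds.mul hulim).mul tendsto_const_nhds
  refine mem_closure_of_tendsto h2 (Eventually.of_forall fun m => ?_)
  obtain ⟨t, γ', ht, hγ', hum⟩ := hu m
  refine ⟨s + t, γ' * γ, ?_, ?_, ?_⟩
  · refine (Set.Icc_subset_Icc ?_ ?_).trans ht
    · have := neg_abs_le s
      linarith
    · have := le_abs_self s
      linarith
  · rw [det_mul]
    exact hγ'.mul hγ
  · rw [hum, zR_mul]
    have h3 : diagonal (at1 k (s + t)) = diagonal (at1 k s) * diagonal (at1 k t) := by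
      rw [diagonal_mul_diagonal]
      congr 1
      funext l
      exact (at1_add k s t l).symm
    rw [h3]
    simp only [Matrix.mul_assoc]

lemma lineValues_closure {g h : Matrix (Fin d) (Fin d) ℝ} {k : Fin d} {𝒯 : Set ℝ}
    (hh : h ∈ LimSet g k 𝒯) {R : ℝ} {m : Fin d → ℤ} (hm : ∀ l, |(h *ᵥ iR m) l| < R) :
    FF h (iR m) ∈ closure (LineValues g k 𝒯 R) := by
  have h1 := Set.mem_iInter.1 hh 0
  obtain ⟨u, hu, hulim⟩ := exists_seq_of_mem_closure h1
  have h2 : Tendsto (fun n => FF (u n) (iR m)) atTop (𝓝 (FF h (iR m))) :=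
    ((continuous_FF (iR m)).tendsto h).comp hulim
  have h3 : ∀ᶠ n in atTop, ∀ l, |(u n *ᵥ iR m) l| < R := by
    refine eventually_all.2 fun l => ?_
    have hc : Continuous (fun h : Matrix (Fin d) (Fin d) ℝ => (h *ᵥ iR m) l) := by
      unfold mulVec dotProduct
      exact continuous_finsetSum _ fun j _ => (continuous_id.matrix_elem l j).mul continuous_const
    exact ((hc.abs.tendsto h).comp hulim).eventually (gt_mem_nhds (hm l))
  refine mem_closure_of_tendsto h2 ?_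
  filter_upwards [h3] with n hn
  obtain ⟨t, γ, ht, hγ, hun⟩ := hu n
  have hmv : ∀ l, (u n *ᵥ iR m) l = at1 k t l * (g *ᵥ iR (γ *ᵥ m)) l := by
    intro l
    rw [hun, ← mulVec_mulVec, zR_mulVec_iR, ← mulVec_mulVec, mulVec_diagonal]
  refine ⟨γ *ᵥ m, ⟨t, ht ⟨by simp, by simp⟩, fun l => ?_⟩, ?_⟩
  · have h4 := hn l
    rw [hmv, abs_mul, abs_of_pos (at1_pos k t l)] at h4
    exact h4
  · rw [hun, FF_orb (at1_prod k t)]

/-- **Countably many values along a line.** -/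
theorem line_values (hd : 3 ≤ d) {g : Matrix (Fin d) (Fin d) ℝ} (hg : g.det ≠ 0) {ν : ℝ}
    (hν : 0 < ν) (hnu : HasNu g ν) (k : Fin d) {𝒯 : Set ℝ} (h𝒯 : LongIntervals 𝒯)
    (hC : ∀ R : ℝ, (closure (LineValues g k 𝒯 R)).Countable) : PropInt g := by
  classical
  have hd0 : 0 < d := by omega
  by_contra hint
  obtain ⟨j, hj⟩ : ∃ j : Fin d, j ≠ k := by
    by_contra hcon
    push Not at hcon
    have h1 : Fintype.card (Fin d) ≤ 1 := Fintype.card_le_one_iff.2 fun a b => by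
      rw [hcon a, hcon b]
    rw [Fintype.card_fin] at h1
    omega
  have hsub := LimSet_sub g k 𝒯
  obtain ⟨Q, hQY, hQ⟩ := exists_minB hd0 (pk k j) (abs_pos.2 hg) hν (LimSet_closed g k 𝒯)
    (LimSet_nonempty hd0 hg hν hnu k h𝒯) (LimSet_inv hj 𝒯)
    (fun h hh => abs_det_closure (hsub hh)) (fun h hh => hasNu_closure hnu (hsub hh))
  set C : Set ℝ := ⋃ n : ℕ, closure (LineValues g k 𝒯 n) with hCdef
  have hCc : C.Countable := Set.countable_iUnion fun n => hC n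
  obtain ⟨h₀, hh₀, hloc⟩ := locally_const hQ.closed hQ.ne C hCc
  have hval : ∀ m : Fin d → ℤ, FF h₀ (iR m) ∈ C := by
    intro m
    obtain ⟨n, hn⟩ := exists_nat_gt (∑ l, |(h₀ *ᵥ iR m) l|)
    refine Set.mem_iUnion.2 ⟨n, lineValues_closure (hQY hh₀) fun l => ?_⟩
    exact (Finset.single_le_sum (f := fun l => |(h₀ *ᵥ iR m) l|) (fun _ _ => abs_nonneg _)
      (Finset.mem_univ l)).trans_lt hn
  have hdet : |h₀.det| = |g.det| := abs_det_closure (hsub (hQY hh₀))
  have hdet0 : h₀.det ≠ 0 := by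
    rw [← abs_ne_zero, hdet, abs_ne_zero]; exact hg
  have hnu₀ := hasNu_closure hnu (hsub (hQY hh₀))
  -- a radius
  obtain ⟨r, hr, hvol⟩ : ∃ r : ℝ, 0 < r ∧ (d.factorial : ℝ) * |h₀.det| < r ^ d := by
    refine ⟨(d.factorial : ℝ) * |h₀.det| + 1, by positivity, ?_⟩
    have h1 : (1 : ℝ) ≤ (d.factorial : ℝ) * |h₀.det| + 1 := by
      have : 0 ≤ (d.factorial : ℝ) * |h₀.det| := by positivity
      linarith
    have h2 := le_self_pow₀ h1 hd0.ne'
    linarith
  have hvec : ∀ b : Fin d → ℝ, (∀ i, 0 < b i) → ∏ i, b i = 1 → ∃ m : Fin d → ℤ,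
      (∀ i, b i * |(h₀ *ᵥ iR m) i| < r) ∧ (∀ i, ν / r ^ (d - 1) ≤ b i * |(h₀ *ᵥ iR m) i|) ∧
      |FF h₀ (iR m)| < (r / d) ^ d := by
    intro b hb hb1
    obtain ⟨m, -, h1, h2, h3⟩ := exists_vec hd0 hν hdet0 hnu₀ hr hvol b hb hb1
    exact ⟨m, h1, h2, h3⟩
  obtain ⟨m, -, hm⟩ := determine hd0 (h₀ := h₀) (c := ν / r ^ (d - 1)) (r := r)
    (T := (r / d) ^ d) (by positivity) hdet0 hr hvec
  have hev : ∀ᶠ h in 𝓝[Q] h₀, ∀ p, FF h (iR (m p)) = FF h₀ (iR (m p)) :=
    eventually_all.2 fun p => hloc (m p) (hval (m p))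
  have hrow : ∀ᶠ h in 𝓝[Q] h₀, ∃ c : ℝ, h k = c • h₀ k := by
    filter_upwards [hev, hm.filter_mono nhdsWithin_le_nhds] with h h1 h2
    obtain ⟨a, -, -, ha⟩ := h2 h1
    refine ⟨a k, ?_⟩
    funext l
    rw [ha, diagonal_mul, Pi.smul_apply, smul_eq_mul]
  exact frequently_row hd hg hν hnu hint (hQY.trans hsub) hQ hh₀ (k := k) (pk_single hj)
    (hrow.mono fun h hh => not_not.2 hh)

/-- integral forms have finitely many values of bounded size -/
theorem finite_lineValues {g : Matrix (Fin d) (Fin d) ℝ} (hP : PropInt g) (k : Fin d) (𝒯 : Set ℝ)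
    (R : ℝ) : (LineValues g k 𝒯 R).Finite := by
  classical
  obtain ⟨c, hc, hz⟩ := values_of_propInt hP
  obtain ⟨N, hN⟩ := exists_nat_gt (|R| ^ d / |c|)
  refine ((Set.finite_Icc (-(N : ℤ)) N).image (fun z : ℤ => c * (z : ℝ))).subset ?_
  rintro v ⟨x, ⟨t, -, ht⟩, rfl⟩
  obtain ⟨z, hz⟩ := hz x
  refine ⟨z, ?_, hz.symm⟩
  have h1 : |FF g (iR x)| ≤ |R| ^ d := by
    have h2 : |FF g (iR x)| = ∏ l, (at1 k t l * |(g *ᵥ iR x) l|) := by
      rw [Finset.prod_mul_distrib, at1_prod, one_mul, FF_eq, Finset.abs_prod]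
    rw [h2]
    have h3 : ∏ l : Fin d, (at1 k t l * |(g *ᵥ iR x) l|) ≤ ∏ _l : Fin d, |R| :=
      Finset.prod_le_prod (fun l _ => mul_nonneg (at1_pos k t l).le (abs_nonneg _))
        (fun l _ => (ht l).le.trans (le_abs_self R))
    rwa [Finset.prod_const, Finset.card_univ, Fintype.card_fin] at h3
  rw [hz, abs_mul, mul_comm, ← le_div_iff₀ (abs_pos.2 hc)] at h1
  have h4 : |(z : ℝ)| < N := h1.trans_lt hN
  have h5 : |z| < (N : ℤ) := by exact_mod_cast h4
  rw [Set.mem_Icc]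
  exact ⟨(abs_lt.1 h5).1.le, (abs_lt.1 h5).2.le⟩

end Pool.Agent.X87.CSD
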