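import Mathlib
import Pool.Agent.X87.CSD.Line
import Pool.Agent.H715R2.Littlewood
import Pool.Agent.Y327.Unique
import Pool.Agent.H905R2.OppA

/-! # Littlewood's conjecture along windows -/

set_option autoImplicit false

open Filter Topology Matrix

namespace Pool.Agent.X87.CSD

open H715R2 Pool.Agent.Y327

/-- the diagonal matrix of a place -/
noncomputable def aw (p : ℝ × ℝ) : Fin 3 → ℝ :=
  ![Real.exp (-(p.1 + p.2)), Real.exp p.1, Real.exp p.2]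

lemma aw_pos (p : ℝ × ℝ) (i : Fin 3) : 0 < aw p i := by
  fin_cases i <;> exact Real.exp_pos _

lemma aw_prod (p : ℝ × ℝ) : ∏ i, aw p i = 1 := by
  rw [Fin.prod_univ_three]
  show Real.exp (-(p.1 + p.2)) * Real.exp p.1 * Real.exp p.2 = 1
  rw [← Real.exp_add, ← Real.exp_add]
  rw [show -(p.1 + p.2) + p.1 + p.2 = 0 by ring, Real.exp_zero]

/-- the three directions -/
def dirw (k : Fin 3) : ℝ × ℝ := ![(1, 1), (-2, 1), (1, -2)] k

lemma at1_aw (k : Fin 3) (s : ℝ) (p : ℝ × ℝ) (i : Fin 3) :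
    at1 k s i * aw p i = aw (p.1 + s * (dirw k).1, p.2 + s * (dirw k).2) i := by
  fin_cases k <;> fin_cases i <;>
    simp [at1, aw, dirw, ← Real.exp_add] <;> ring

/-- the segment of radius `n` around the place `p` in direction `k` lies in `𝒲`, and `p` is deep in
the cone -/
def Seg (𝒲 : Set (ℝ × ℝ)) (k : Fin 3) (n : ℕ) (p : ℝ × ℝ) : Prop :=
  3 * (n : ℝ) ≤ p.1 ∧ 3 * (n : ℝ) ≤ p.2 ∧
    ∀ s : ℝ, |s| ≤ n → (p.1 + s * (dirw k).1, p.2 + s * (dirw k).2) ∈ 𝒲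

/-- `𝒲` contains arbitrarily long segments in direction `k` deep in the cone -/
def LongSegments (𝒲 : Set (ℝ × ℝ)) (k : Fin 3) : Prop := ∀ n : ℕ, ∃ p, Seg 𝒲 k n p

/-- the limit set along the windows -/
def LimW (α β : ℝ) (𝒲 : Set (ℝ × ℝ)) (k : Fin 3) : Set (Matrix (Fin 3) (Fin 3) ℝ) :=
  ⋂ n : ℕ, closure {h | ∃ (p : ℝ × ℝ) (γ : Matrix (Fin 3) (Fin 3) ℤ), Seg 𝒲 k n p ∧
    IsUnit γ.det ∧ h = diagonal (aw p) * LLm α β * zR γ}

lemma abs_dirw_le (k : Fin 3) : |(dirw k).1| ≤ 2 ∧ |(dirw k).2| ≤ 2 := by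
  fin_cases k <;> simp [dirw]

lemma Seg.mem {𝒲 : Set (ℝ × ℝ)} {k : Fin 3} {n : ℕ} {p : ℝ × ℝ} (h : Seg 𝒲 k n p) : p ∈ 𝒲 := by
  have := h.2.2 0 (by simp)
  simpa using this

lemma Seg.shift {𝒲 : Set (ℝ × ℝ)} {k : Fin 3} {n N : ℕ} {p : ℝ × ℝ} {s : ℝ}
    (h : Seg 𝒲 k N p) (hN : |s| + n ≤ N) :
    Seg 𝒲 k n (p.1 + s * (dirw k).1, p.2 + s * (dirw k).2) := by
  obtain ⟨h1, h2, h3⟩ := h
  obtain ⟨d1, d2⟩ := abs_dirw_le k
  have hs : 0 ≤ |s| := abs_nonneg s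
  have e1 : |s * (dirw k).1| ≤ 2 * |s| := by
    rw [abs_mul, mul_comm]
    exact mul_le_mul_of_nonneg_right d1 hs
  have e2 : |s * (dirw k).2| ≤ 2 * |s| := by
    rw [abs_mul, mul_comm]
    exact mul_le_mul_of_nonneg_right d2 hs
  refine ⟨?_, ?_, fun r hr => ?_⟩
  · have := neg_abs_le (s * (dirw k).1)
    simp only
    linarith
  · have := neg_abs_le (s * (dirw k).2)
    simp only
    linarith
  · have h4 := h3 (s + r) ((abs_add_le s r).trans (by linarith))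
    have e3 : (p.1 + s * (dirw k).1 + r * (dirw k).1, p.2 + s * (dirw k).2 + r * (dirw k).2) =
        (p.1 + (s + r) * (dirw k).1, p.2 + (s + r) * (dirw k).2) := by
      ext <;> simp <;> ring
    simp only
    rw [e3]
    exact h4

lemma Seg.ge {𝒲 : Set (ℝ × ℝ)} {k : Fin 3} {n : ℕ} {p : ℝ × ℝ} (h : Seg 𝒲 k n p) :
    (n : ℝ) < aw p 1 ∧ (n : ℝ) < aw p 2 := by
  have h0 : (0 : ℝ) ≤ n := Nat.cast_nonneg n
  constructor
  · show (n : ℝ) < Real.exp p.1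
    have := Real.add_one_le_exp p.1
    linarith [h.1]
  · show (n : ℝ) < Real.exp p.2
    have := Real.add_one_le_exp p.2
    linarith [h.2.1]

lemma LimW_YY (α β : ℝ) (𝒲 : Set (ℝ × ℝ)) (k : Fin 3) : LimW α β 𝒲 k ⊆ YY (LLm α β) := by
  intro h hh
  refine Set.mem_iInter.2 fun n => ?_
  refine closure_mono ?_ (Set.mem_iInter.1 hh n)
  rintro h' ⟨p, γ, hp, hγ, rfl⟩
  exact ⟨aw p, γ, aw_pos p, aw_prod p, hp.ge.1.le, hp.ge.2.le, hγ, rfl⟩

lemma LimW_closed (α β : ℝ) (𝒲 : Set (ℝ × ℝ)) (k : Fin 3) : IsClosed (LimW α β 𝒲 k) :=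
  isClosed_iInter fun _ => isClosed_closure

lemma LimW_inv (α β : ℝ) (𝒲 : Set (ℝ × ℝ)) {k j : Fin 3} (hj : j ≠ k) :
    InvB (pk k j) (LimW α β 𝒲 k) := by
  intro h hh a γ ha hγ
  obtain ⟨s, rfl⟩ := BB_pk hj ha
  refine Set.mem_iInter.2 fun n => ?_
  obtain ⟨N, hN⟩ := exists_nat_ge (|s| + n)
  obtain ⟨u, hu, hulim⟩ := exists_seq_of_mem_closure (Set.mem_iInter.1 hh N)
  have h2 : Tendsto (fun m => diagonal (at1 k s) * u m * zR γ) atTop
      (𝓝 (diagonal (at1 k s) * h * zR γ)) :=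
    (tendsto_const_nhds.mul hulim).mul tendsto_const_nhds
  refine mem_closure_of_tendsto h2 (Eventually.of_forall fun m => ?_)
  obtain ⟨p, γ', hp, hγ', hum⟩ := hu m
  refine ⟨(p.1 + s * (dirw k).1, p.2 + s * (dirw k).2), γ' * γ, hp.shift hN, ?_, ?_⟩
  · rw [det_mul]
    exact hγ'.mul hγ
  · rw [hum, zR_mul]
    have h3 : diagonal (aw (p.1 + s * (dirw k).1, p.2 + s * (dirw k).2))
        = diagonal (at1 k s) * diagonal (aw p) := by
      rw [diagonal_mul_diagonal]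
      congr 1
      funext l
      exact (at1_aw k s p l).symm
    rw [h3]
    simp only [Matrix.mul_assoc]

lemma LimW_nonempty {α β ν : ℝ} (hν0 : 0 < ν)
    (hν : ∀ q p r : ℤ, q ≠ 0 → ν ≤ |(q : ℝ) * (α * q - p) * (β * q - r)|)
    {𝒲 : Set (ℝ × ℝ)} {k : Fin 3} (h𝒲 : LongSegments 𝒲 k) : (LimW α β 𝒲 k).Nonempty := by
  obtain ⟨ρ, R, hρ, hR⟩ := exists_bound_loc (d := 3) (by norm_num) 1 ν one_pos hν0
  obtain ⟨N₀, hN₀⟩ := exists_nat_gt ρ
  have hstep : ∀ n : ℕ, ∃ (x : Matrix (Fin 3) (Fin 3) ℝ) (p : ℝ × ℝ)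
      (γ : Matrix (Fin 3) (Fin 3) ℤ), Seg 𝒲 k (n + N₀) p ∧ IsUnit γ.det ∧
      x = diagonal (aw p) * LLm α β * zR γ ∧ ∀ i j, |x i j| ≤ R := by
    intro n
    obtain ⟨p, hp⟩ := h𝒲 (n + N₀)
    obtain ⟨g1, g2⟩ := hp.ge
    push_cast at g1 g2
    have hn : (0 : ℝ) ≤ n := Nat.cast_nonneg _
    obtain ⟨γ, hγ, hγR⟩ := hR (diagonal (aw p) * LLm α β)
      (by rw [det_mul, det_diagonal, aw_prod, one_mul]; exact LLm_det α β) (by
      intro m hm hb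
      have h1 : diagonal (aw p) * LLm α β * zR (1 : Matrix (Fin 3) (Fin 3) ℤ)
          = diagonal (aw p) * LLm α β := by
        rw [zR_one, Matrix.mul_one]
      have h2 := first_ne α β (γ := 1) (aw_pos p) (by simp) hm (ρ := ρ) (by linarith)
        (by linarith) (by rw [h1]; exact hb)
      rw [one_mulVec] at h2
      have h3 := hν (m 0) (m 1) (m 2) h2
      rw [← h1, FF_orb (aw_prod p), one_mulVec, FF_LLm]
      exact h3)
    exact ⟨_, p, γ, hp, hγ, rfl, hγR⟩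
  choose x p γ hx hγ hxe hxR using hstep
  obtain ⟨h, -, φ, hφ, hlim⟩ := (isCompact_box (d := 3) R).tendsto_subseq hxR
  refine ⟨h, Set.mem_iInter.2 fun N => ?_⟩
  refine mem_closure_of_tendsto hlim ?_
  filter_upwards [eventually_ge_atTop N] with n hn
  have h1 := hx (φ n)
  have h2 : N ≤ φ n + N₀ := hn.trans ((hφ.le_apply).trans (Nat.le_add_right _ _))
  have h3 : Seg 𝒲 k N (p (φ n)) := by
    have h4 : (N : ℝ) ≤ ((φ n + N₀ : ℕ) : ℝ) := by exact_mod_cast h2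
    exact ⟨(by linarith [h1.1]), (by linarith [h1.2.1]), fun s hs => h1.2.2 s (hs.trans h4)⟩
  exact ⟨p (φ n), γ (φ n), h3, hγ (φ n), hxe (φ n)⟩

/-- the denominators which are small at the place `p` -/
def Den (α β R : ℝ) (p : ℝ × ℝ) : Set ℕ :=
  {q | (q : ℝ) < R * Real.exp (p.1 + p.2) ∧
    |(q : ℝ) * α - (round ((q : ℝ) * α) : ℝ)| < R * Real.exp (-p.1) ∧
    |(q : ℝ) * β - (round ((q : ℝ) * β) : ℝ)| < R * Real.exp (-p.2)}

/-- the denominators which are small at a place in `𝒲` -/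
def DenW (α β R : ℝ) (𝒲 : Set (ℝ × ℝ)) : Set ℕ := {q | ∃ p ∈ 𝒲, q ∈ Den α β R p}

/-- the data of an approximating integer point -/
lemma approx {α β ν : ℝ} (hν0 : 0 < ν) {𝒲 : Set (ℝ × ℝ)} {k : Fin 3}
    {h : Matrix (Fin 3) (Fin 3) ℝ} (hh : h ∈ LimW α β 𝒲 k) (hnu : HasNu h ν) {R : ℝ}
    (N₀ : ℕ) {ι : Type} [Finite ι] (m : ι → Fin 3 → ℤ) (hm : ∀ i, m i ≠ 0)
    (hR : ∀ i l, |(h *ᵥ iR (m i)) l| < R) {U : Set (Matrix (Fin 3) (Fin 3) ℝ)} (hU : U ∈ 𝓝 h) :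
    ∃ h' ∈ U, ∃ p ∈ 𝒲, ∃ q : ι → ℕ, (∀ i, N₀ ≤ q i) ∧ (∀ i, q i ∈ Den α β R p) ∧
      (∀ i, fL α β (q i) = |FF h' (iR (m i))|) ∧
      (∀ i, |(h' *ᵥ iR (m i)) 0| = aw p 0 * (q i : ℝ) ∧
        |(h' *ᵥ iR (m i)) 1| = aw p 1 * |(q i : ℝ) * α - (round ((q i : ℝ) * α) : ℝ)| ∧
        |(h' *ᵥ iR (m i)) 2| = aw p 2 * |(q i : ℝ) * β - (round ((q i : ℝ) * β) : ℝ)|) := by
  classical
  cases isEmpty_or_nonempty ι with
  | inl he =>
    have h1 := Set.mem_iInter.1 hh 0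
    obtain ⟨h', hh', p, γ, hp, -, -⟩ := mem_closure_iff_nhds.1 h1 U hU
    exact ⟨h', hh', p, hp.mem, fun i => (he.false i).elim, fun i => (he.false i).elim,
      fun i => (he.false i).elim, fun i => (he.false i).elim, fun i => (he.false i).elim⟩
  | inr hne =>
  have hR0 : 0 < R := (abs_nonneg _).trans_lt (hR (Classical.arbitrary ι) 0)
  have hcont : ∀ (x : Fin 3 → ℤ) i, Continuous
      (fun h' : Matrix (Fin 3) (Fin 3) ℝ => |(h' *ᵥ iR x) i|) := by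
    intro x i
    refine continuous_abs.comp ?_
    unfold mulVec dotProduct
    exact continuous_finsetSum _ fun j _ => (continuous_id.matrix_elem i j).mul continuous_const
  have hδ : ∀ i, 0 < |(h *ᵥ iR (m i)) 0| := by
    intro i
    rw [abs_pos]
    intro h0
    have h1 := hnu (m i) (hm i)
    rw [FF_eq, Fin.prod_univ_three, h0, zero_mul, zero_mul, abs_zero] at h1
    exact absurd h1 (not_le.2 hν0)
  obtain ⟨δ, hδ0, hδm⟩ : ∃ δ : ℝ, 0 < δ ∧ ∀ i, δ < |(h *ᵥ iR (m i)) 0| := by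
    obtain ⟨i₀, hi₀⟩ := Finite.exists_min (fun i => |(h *ᵥ iR (m i)) 0|)
    exact ⟨|(h *ᵥ iR (m i₀)) 0| / 2, by linarith [hδ i₀], fun i => by
      linarith [hi₀ i, hδ i₀]⟩
  have hopen : ∀ᶠ h' in 𝓝 h, h' ∈ U ∧ (∀ i l, |(h' *ᵥ iR (m i)) l| < R) ∧
      ∀ i, δ < |(h' *ᵥ iR (m i)) 0| := by
    refine (show ∀ᶠ h' in 𝓝 h, h' ∈ U from hU).and ((eventually_all.2 fun i =>
      eventually_all.2 fun l => ?_).and (eventually_all.2 fun i => ?_))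
    · exact ((hcont (m i) l).tendsto h).eventually (gt_mem_nhds (hR i l))
    · exact ((hcont (m i) 0).tendsto h).eventually (lt_mem_nhds (hδm i))
  obtain ⟨N, hN⟩ := exists_nat_gt (2 * R + (N₀ : ℝ) / δ + 1)
  have hN0 : (0 : ℝ) ≤ (N₀ : ℝ) / δ := by positivity
  have hN1 : 1 < (N : ℝ) := by linarith
  obtain ⟨h', ⟨h1, h2, h3⟩, ⟨p, γ, hp, hγ, rfl⟩⟩ :=
    mem_closure_iff_nhds.1 (Set.mem_iInter.1 hh N) _ hopen
  obtain ⟨hN1', hN2'⟩ := hp.ge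
  refine ⟨_, h1, p, hp.mem, fun i => ((γ *ᵥ m i) 0).natAbs, ?_⟩
  have hall : ∀ i, |α * ((γ *ᵥ m i) 0 : ℤ) - ((γ *ᵥ m i) 1 : ℤ)| < 1 / 2 ∧
      |β * ((γ *ᵥ m i) 0 : ℤ) - ((γ *ᵥ m i) 2 : ℤ)| < 1 / 2 := by
    intro i
    obtain ⟨e0, e1, e2⟩ := H715R2.orb_mulVec α β (aw p) γ (m i)
    constructor
    · have h4 := h2 i 1
      rw [e1, abs_mul, abs_of_pos (aw_pos p 1)] at h4
      by_contra hcon
      push Not at hcon
      nlinarith [aw_pos p 1]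
    · have h4 := h2 i 2
      rw [e2, abs_mul, abs_of_pos (aw_pos p 2)] at h4
      by_contra hcon
      push Not at hcon
      nlinarith [aw_pos p 2]
  have hcoord : ∀ i,
      |((diagonal (aw p) * LLm α β * zR γ) *ᵥ iR (m i)) 0| =
        aw p 0 * ((((γ *ᵥ m i) 0).natAbs : ℕ) : ℝ) ∧
      |((diagonal (aw p) * LLm α β * zR γ) *ᵥ iR (m i)) 1| =
        aw p 1 * |((((γ *ᵥ m i) 0).natAbs : ℕ) : ℝ) * α -
          (round (((((γ *ᵥ m i) 0).natAbs : ℕ) : ℝ) * α) : ℝ)| ∧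
      |((diagonal (aw p) * LLm α β * zR γ) *ᵥ iR (m i)) 2| =
        aw p 2 * |((((γ *ᵥ m i) 0).natAbs : ℕ) : ℝ) * β -
          (round (((((γ *ᵥ m i) 0).natAbs : ℕ) : ℝ) * β) : ℝ)| := by
    intro i
    obtain ⟨e0, e1, e2⟩ := H715R2.orb_mulVec α β (aw p) γ (m i)
    obtain ⟨hd1, hd2⟩ := hall i
    refine ⟨?_, ?_, ?_⟩
    · rw [e0, abs_mul, abs_of_pos (aw_pos p 0), Nat.cast_natAbs, Int.cast_abs]
    · rw [e1, abs_mul, abs_of_pos (aw_pos p 1), dist_round_natAbs α hd1]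
    · rw [e2, abs_mul, abs_of_pos (aw_pos p 2), dist_round_natAbs β hd2]
  refine ⟨fun i => ?_, fun i => ?_, fun i => ?_, hcoord⟩
  · -- `|q|` is large
    have h4 := h3 i
    rw [(hcoord i).1] at h4
    have h5 : aw p 0 * (aw p 1 * aw p 2) = 1 := by
      rw [← mul_assoc, ← Fin.prod_univ_three]; exact aw_prod p
    have h6 : (N : ℝ) ≤ aw p 1 * aw p 2 := by
      have : (N : ℝ) * 1 ≤ aw p 1 * aw p 2 :=
        mul_le_mul hN1'.le (by linarith) zero_le_one (aw_pos p 1).le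
      linarith
    have h7 : aw p 0 * N ≤ 1 := by
      rw [← h5]; exact mul_le_mul_of_nonneg_left h6 (aw_pos p 0).le
    set Q : ℝ := ((((γ *ᵥ m i) 0).natAbs : ℕ) : ℝ) with hQ
    have hQ0 : 0 ≤ Q := Nat.cast_nonneg _
    have h8 : δ * N < Q := by
      have h9 : δ * N < aw p 0 * Q * N := mul_lt_mul_of_pos_right h4 (by linarith)
      have h10 : aw p 0 * Q * N = (aw p 0 * N) * Q := by ring
      have h11 : (aw p 0 * N) * Q ≤ 1 * Q := mul_le_mul_of_nonneg_right h7 hQ0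
      linarith
    have h9 : (N₀ : ℝ) / δ < N := by linarith
    rw [div_lt_iff₀ hδ0] at h9
    have h10 : (N₀ : ℝ) ≤ ((((γ *ᵥ m i) 0).natAbs : ℕ) : ℝ) := by
      rw [← hQ]
      linarith
    exact Nat.cast_le.1 h10
  · obtain ⟨c0, c1, c2⟩ := hcoord i
    have key : ∀ (s y R : ℝ), Real.exp s * y < R → y < R * Real.exp (-s) := by
      intro s y R h
      rw [Real.exp_neg, ← div_eq_mul_inv, lt_div_iff₀ (Real.exp_pos s), mul_comm]
      exact h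
    refine ⟨?_, ?_, ?_⟩
    · have h4 := h2 i 0
      rw [c0] at h4
      have h5 := key (-(p.1 + p.2)) _ _ h4
      rw [neg_neg] at h5
      exact h5
    · have h4 := h2 i 1
      rw [c1] at h4
      exact key p.1 _ _ h4
    · have h4 := h2 i 2
      rw [c2] at h4
      exact key p.2 _ _ h4
  · obtain ⟨hd1, hd2⟩ := hall i
    rw [FF_orb (aw_prod p), FF_LLm, fL, dist_round_natAbs α hd1, dist_round_natAbs β hd2,
      abs_mul, abs_mul, Nat.cast_natAbs, Int.cast_abs]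

/-- the limits are no integral forms -/
lemma not_propInt {α β ν : ℝ} (hν0 : 0 < ν)
    (hν : ∀ q p r : ℤ, q ≠ 0 → ν ≤ |(q : ℝ) * (α * q - p) * (β * q - r)|)
    {h : Matrix (Fin 3) (Fin 3) ℝ} (hh : h ∈ YY (LLm α β)) : ¬ PropInt h := by
  intro hP
  have hnu := YY_nu hν hh
  have hdet0 : h.det ≠ 0 := by
    rw [← abs_ne_zero, abs_det_closure (YY_subset _ hh), LLm_det]
    exact one_ne_zero
  obtain ⟨δ, c, hc, hδ⟩ : ∃ (δ : Matrix (Fin 3) (Fin 3) ℤ) (c : Fin 3 → ℝ),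
      Function.Injective c ∧ h * zR δ = diagonal c * h := by
    obtain ⟨A, -, hA1, -, hA2⟩ := Pool.Agent.H905R2.Opp.oppA _ (by norm_num) hdet0 hP (by
      intro p hp h0
      have h2 := hnu p hp
      rw [h0, abs_zero] at h2
      exact absurd h2 (not_le.2 hν0))
    obtain ⟨lam, hlam, hAg⟩ := Y327.eig_of_opp hdet0 hA1 hA2
    exact ⟨A, lam, hlam, hAg⟩
  obtain ⟨K, hfin, hrank, s, hs, hmem⟩ := exists_alg_row hdet0 δ c hc hδ 0
  exact no_alg_point hν0 hν hh 0 s hs K hrank hmem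

lemma invB_closure_orbB {d : ℕ} (π : Fin d → Fin d) (h : Matrix (Fin d) (Fin d) ℝ) :
    InvB π (closure (OrbB π h)) := by
  intro x hx a γ ha hγ
  refine map_mem_closure (f := fun y : Matrix (Fin d) (Fin d) ℝ => diagonal a * y * zR γ)
    ((continuous_const.matrix_mul continuous_id).matrix_mul continuous_const) hx ?_
  rintro _ ⟨b, δ, hb, hδ, rfl⟩
  refine ⟨fun i => a i * b i, δ * γ, ha.mul hb, ?_, ?_⟩
  · rw [det_mul]; exact hδ.mul hγ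
  · rw [zR_mul, ← diagonal_mul_diagonal]
    simp only [Matrix.mul_assoc]

lemma minB_subset_orb {d : ℕ} {π : Fin d → Fin d} {Q : Set (Matrix (Fin d) (Fin d) ℝ)}
    (hQ : MinB π Q) {h : Matrix (Fin d) (Fin d) ℝ} (hh : h ∈ Q) : Q ⊆ closure (Orb h) := by
  have h1 : closure (OrbB π h) ⊆ Q := by
    refine closure_minimal ?_ hQ.closed
    rintro _ ⟨b, δ, hb, hδ, rfl⟩
    exact hQ.inv h hh b δ hb hδ
  have h2 : (closure (OrbB π h)).Nonempty := by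
    refine ⟨h, subset_closure ⟨fun _ => 1, 1, BB.one π, by simp, ?_⟩⟩
    rw [zR_one, Matrix.mul_one, diagonal_one, Matrix.one_mul]
  have h3 := hQ.min _ h1 isClosed_closure h2 (invB_closure_orbB π h)
  rw [← h3]
  refine closure_mono ?_
  rintro _ ⟨b, δ, hb, hδ, rfl⟩
  exact ⟨b, δ, hb.1, hb.2.1, hδ, rfl⟩

/-- **A minimal set along the windows in which the row `k` is nowhere locally constant.** -/
theorem window_min {α β ν : ℝ} (hν0 : 0 < ν)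
    (hν : ∀ q p r : ℤ, q ≠ 0 → ν ≤ |(q : ℝ) * (α * q - p) * (β * q - r)|)
    {𝒲 : Set (ℝ × ℝ)} {k : Fin 3} (h𝒲 : LongSegments 𝒲 k) :
    ∃ Q ⊆ LimW α β 𝒲 k, IsClosed Q ∧ Q.Nonempty ∧ (∃ j : Fin 3, j ≠ k ∧ MinB (pk k j) Q) ∧
      (∀ h ∈ Q, |h.det| = 1) ∧ (∀ h ∈ Q, HasNu h ν) ∧
      ∀ h₀ ∈ Q, ∃ᶠ h in 𝓝[Q] h₀, ¬ ∃ c : ℝ, h k = c • h₀ k := by
  obtain ⟨j, hj⟩ : ∃ j : Fin 3, j ≠ k := by
    by_contra hcon
    push Not at hcon
    have := (hcon 0).trans (hcon 1).symm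
    exact absurd this (by decide)
  have hdet : ∀ h ∈ LimW α β 𝒲 k, |h.det| = 1 := fun h hh => by
    rw [abs_det_closure (YY_subset _ (LimW_YY α β 𝒲 k hh)), LLm_det]
  have hnu : ∀ h ∈ LimW α β 𝒲 k, HasNu h ν := fun h hh => YY_nu hν (LimW_YY α β 𝒲 k hh)
  obtain ⟨Q, hQY, hQ⟩ := exists_minB (by norm_num) (pk k j) one_pos hν0 (LimW_closed α β 𝒲 k)
    (LimW_nonempty hν0 hν h𝒲) (LimW_inv α β 𝒲 hj) hdet hnu
  refine ⟨Q, hQY, hQ.closed, hQ.ne, ⟨j, hj, hQ⟩, fun h hh => hdet h (hQY hh),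
    fun h hh => hnu h (hQY hh), fun h₀ hh₀ => ?_⟩
  have hd0 : h₀.det ≠ 0 := by
    rw [← abs_ne_zero, hdet h₀ (hQY hh₀)]; exact one_ne_zero
  exact frequently_row le_rfl hd0 hν0 (hnu h₀ (hQY hh₀))
    (not_propInt hν0 hν (LimW_YY α β 𝒲 k (hQY hh₀))) (minB_subset_orb hQ hh₀) hQ hh₀
    (k := k) (pk_single hj)

/-- **Values along windows.** -/
theorem window_values {α β T : ℝ}
    (hT : 2 / 9 < T ∨ ∀ h : Matrix (Fin 3) (Fin 3) ℝ, |h.det| = 1 →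
      ∃ m : Fin 3 → ℤ, m ≠ 0 ∧ |FF h (iR m)| < T)
    {𝒲 : Set (ℝ × ℝ)} {k : Fin 3} (h𝒲 : LongSegments 𝒲 k)
    (hC : ∀ R : ℝ, {t : ℝ | t < T ∧
      MapClusterPt t (atTop ⊓ 𝓟 (DenW α β R 𝒲)) (fL α β)}.Countable) :
    ∀ ε : ℝ, 0 < ε → ∀ N : ℕ, ∃ q : ℕ, N ≤ q ∧ 0 < q ∧ fL α β q < ε := by
  classical
  intro ε hε N
  by_contra hcon
  push Not at hcon
  obtain ⟨ν, hν0, hν⟩ := exists_nu hε hcon
  obtain ⟨Q, hQW, hQc, hQne, -, hQdet, hQnu, hfr⟩ := window_min hν0 hν h𝒲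
  have hT' : ∀ h : Matrix (Fin 3) (Fin 3) ℝ, |h.det| = 1 →
      ∃ m : Fin 3 → ℤ, m ≠ 0 ∧ |FF h (iR m)| < T := by
    rcases hT with hT | hT
    · intro h hh
      refine mink_prod (by norm_num) 1 T one_pos ?_ h hh
      have h1 : ((Nat.factorial 3 : ℕ) : ℝ) = 6 := by norm_num [Nat.factorial]
      rw [h1]
      push_cast
      linarith
    · exact hT
  set L : ℝ → Set ℝ := fun R => {t : ℝ | t < T ∧
    MapClusterPt t (atTop ⊓ 𝓟 (DenW α β R 𝒲)) (fL α β)} with hL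
  set C : Set ℝ := {0} ∪ ⋃ n : ℕ, (L n ∪ (fun t : ℝ => -t) '' L n) with hCdef
  have hCc : C.Countable := (Set.countable_singleton 0).union
    (Set.countable_iUnion fun n => (hC n).union ((hC n).image _))
  obtain ⟨h₀, hh₀, hloc⟩ := locally_const hQc hQne C hCc
  have hdet0 : h₀.det ≠ 0 := by
    rw [← abs_ne_zero, hQdet h₀ hh₀]; exact one_ne_zero
  have hval : ∀ m : Fin 3 → ℤ, |FF h₀ (iR m)| < T → FF h₀ (iR m) ∈ C := by
    intro m hmT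
    by_cases hm : m = 0
    · left
      subst hm
      have h1 : h₀ *ᵥ iR (0 : Fin 3 → ℤ) = 0 := by
        have : iR (0 : Fin 3 → ℤ) = 0 := by funext l; simp [iR]
        rw [this, mulVec_zero]
      rw [Set.mem_singleton_iff, FF_eq, h1]
      simp
    · right
      obtain ⟨n, hn⟩ := exists_nat_gt (∑ l, |(h₀ *ᵥ iR m) l|)
      have hn' : ∀ l, |(h₀ *ᵥ iR m) l| < n := fun l =>
        (Finset.single_le_sum (f := fun l => |(h₀ *ᵥ iR m) l|) (fun _ _ => abs_nonneg _)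
          (Finset.mem_univ l)).trans_lt hn
      have hcl : |FF h₀ (iR m)| ∈ L n := by
        refine ⟨hmT, ?_⟩
        rw [mapClusterPt_iff_frequently]
        intro s hs
        rw [frequently_inf_principal, frequently_atTop]
        intro N₀
        obtain ⟨h', hh', p, hp, q, hq1, hq2, hq3, -⟩ := approx hν0 (hQW hh₀) (hQnu h₀ hh₀) N₀
          (fun _ : Unit => m) (fun _ => hm) (fun _ l => hn' l)
          (U := (fun h' : Matrix (Fin 3) (Fin 3) ℝ => |FF h' (iR m)|) ⁻¹' s)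
          ((continuous_FF (iR m)).abs.continuousAt hs)
        refine ⟨q (), hq1 (), ⟨p, hp, hq2 ()⟩, ?_⟩
        rw [hq3 ()]
        exact hh'
      refine Set.mem_iUnion.2 ⟨n, ?_⟩
      rcases abs_choice (FF h₀ (iR m)) with h1 | h1
      · left; rwa [h1] at hcl
      · right
        exact ⟨_, hcl, by simp only; rw [h1, neg_neg]⟩
  obtain ⟨r, hr, hrvec⟩ := exists_vec_gen (d := 3) (by norm_num) 1 ν T one_pos hν0 hT'
  have hvec : ∀ b : Fin 3 → ℝ, (∀ i, 0 < b i) → ∏ i, b i = 1 → ∃ m : Fin 3 → ℤ,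
      (∀ i, b i * |(h₀ *ᵥ iR m) i| < r) ∧ (∀ i, ν / r ^ (3 - 1) ≤ b i * |(h₀ *ᵥ iR m) i|) ∧
      |FF h₀ (iR m)| < T := hrvec h₀ (hQdet h₀ hh₀) (hQnu h₀ hh₀)
  obtain ⟨m, hmT, hm⟩ := determine (by norm_num) (h₀ := h₀) (c := ν / r ^ (3 - 1)) (r := r)
    (T := T) (by positivity) hdet0 hr hvec
  have hev : ∀ᶠ h in 𝓝[Q] h₀, ∀ p, FF h (iR (m p)) = FF h₀ (iR (m p)) :=
    eventually_all.2 fun p => hloc (m p) (hval (m p) (hmT p))
  have hrow : ∀ᶠ h in 𝓝[Q] h₀, ∃ c : ℝ, h k = c • h₀ k := by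
    filter_upwards [hev, hm.filter_mono nhdsWithin_le_nhds] with h h1 h2
    obtain ⟨a, -, -, ha⟩ := h2 h1
    refine ⟨a k, ?_⟩
    funext l
    rw [ha, diagonal_mul, Pi.smul_apply, smul_eq_mul]
  exact hfr h₀ hh₀ (hrow.mono fun h hh => not_not.2 hh)

end Pool.Agent.X87.CSD
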