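import Mathlib
import Pool.Agent.X87.CSD.Isolate
import Pool.Agent.Y327.Meet

/-! # Ratios of the values of one linear factor -/

set_option autoImplicit false

open Filter Topology Matrix

namespace Pool.Agent.X87.CSD

open H715R2 Pool.Agent.Y327

variable {d : ℕ}

/-- the ratios of the absolute values of the factor `i` at two integer points with form values below
`T` at which all factors are comparable up to `R` -/
def Ratios (g : Matrix (Fin d) (Fin d) ℝ) (i : Fin d) (T R : ℝ) : Set ℝ :=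
  {t | ∃ x y : Fin d → ℤ, x ≠ 0 ∧ y ≠ 0 ∧ |FF g (iR x)| < T ∧ |FF g (iR y)| < T ∧
    (∀ k, |(g *ᵥ iR x) k| < R * |(g *ᵥ iR y) k| ∧ |(g *ᵥ iR y) k| < R * |(g *ᵥ iR x) k|) ∧
    |(g *ᵥ iR x) i| / |(g *ᵥ iR y) i| = t}

lemma row_ne {ν : ℝ} (hν : 0 < ν) {h : Matrix (Fin d) (Fin d) ℝ} (hnu : HasNu h ν)
    {x : Fin d → ℤ} (hx : x ≠ 0) (i : Fin d) : (h *ᵥ iR x) i ≠ 0 := by
  intro h0
  have h1 := hnu x hx
  rw [FF_eq, Finset.prod_eq_zero (Finset.mem_univ i) h0, abs_zero] at h1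
  exact absurd h1 (not_le.2 hν)

lemma gam_ne {γ : Matrix (Fin d) (Fin d) ℤ} (hγ : IsUnit γ.det) {x : Fin d → ℤ} (hx : x ≠ 0) :
    γ *ᵥ x ≠ 0 := by
  intro h0
  apply hx
  have h3 : γ⁻¹ *ᵥ (γ *ᵥ x) = 0 := by rw [h0, mulVec_zero]
  rwa [mulVec_mulVec, Matrix.nonsing_inv_mul _ hγ, one_mulVec] at h3

lemma orb_mulVec (a : Fin d → ℝ) (g : Matrix (Fin d) (Fin d) ℝ) (γ : Matrix (Fin d) (Fin d) ℤ)
    (x : Fin d → ℤ) (k : Fin d) :
    ((diagonal a * g * zR γ) *ᵥ iR x) k = a k * (g *ᵥ iR (γ *ᵥ x)) k := by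
  rw [← mulVec_mulVec, zR_mulVec_iR, ← mulVec_mulVec, mulVec_diagonal]

lemma ratios_orb {g h : Matrix (Fin d) (Fin d) ℝ} (hh : h ∈ Orb g) (i : Fin d) (T R : ℝ) :
    Ratios h i T R ⊆ Ratios g i T R := by
  obtain ⟨a, γ, ha0, ha, hγ, rfl⟩ := hh
  rintro t ⟨x, y, hx, hy, hTx, hTy, hR, ht⟩
  refine ⟨γ *ᵥ x, γ *ᵥ y, gam_ne hγ hx, gam_ne hγ hy, ?_, ?_, fun k => ?_, ?_⟩
  · rwa [FF_orb ha] at hTx
  · rwa [FF_orb ha] at hTy
  · obtain ⟨h1, h2⟩ := hR k
    rw [orb_mulVec, orb_mulVec, abs_mul, abs_mul, abs_of_pos (ha0 k)] at h1 h2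
    constructor
    · refine lt_of_mul_lt_mul_left (a := a k) ?_ (ha0 k).le
      linarith
    · refine lt_of_mul_lt_mul_left (a := a k) ?_ (ha0 k).le
      linarith
  · rw [orb_mulVec, orb_mulVec, abs_mul, abs_mul, abs_of_pos (ha0 i),
      mul_div_mul_left _ _ (ha0 i).ne'] at ht
    exact ht

lemma cont_entry (k l : Fin d) : Continuous (fun h : Matrix (Fin d) (Fin d) ℝ => h k l) :=
  continuous_id.matrix_elem k l

lemma continuous_mulVec_apply (x : Fin d → ℝ) (k : Fin d) :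
    Continuous (fun h : Matrix (Fin d) (Fin d) ℝ => (h *ᵥ x) k) := by
  unfold mulVec dotProduct
  refine continuous_finsetSum _ fun j _ => ?_
  exact (cont_entry k j).mul continuous_const

lemma ratios_closure {g h : Matrix (Fin d) (Fin d) ℝ} {ν : ℝ} (hν : 0 < ν) (hnu : HasNu g ν)
    (hh : h ∈ closure (Orb g)) (i : Fin d) (T R : ℝ) :
    Ratios h i T R ⊆ closure (Ratios g i T R) := by
  rintro t ⟨x, y, hx, hy, hTx, hTy, hR, ht⟩
  obtain ⟨u, hu, hulim⟩ := exists_seq_of_mem_closure hh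
  have hnu' := hasNu_closure hnu hh
  have e1 : ∀ᶠ n in atTop, |FF (u n) (iR x)| < T :=
    (((continuous_FF (iR x)).abs.tendsto h).comp hulim).eventually (gt_mem_nhds hTx)
  have e2 : ∀ᶠ n in atTop, |FF (u n) (iR y)| < T :=
    (((continuous_FF (iR y)).abs.tendsto h).comp hulim).eventually (gt_mem_nhds hTy)
  have e3 : ∀ᶠ n in atTop, ∀ k, |(u n *ᵥ iR x) k| < R * |(u n *ᵥ iR y) k| ∧
      |(u n *ᵥ iR y) k| < R * |(u n *ᵥ iR x) k| := by
    refine eventually_all.2 fun k => ?_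
    have c1 := ((continuous_mulVec_apply (iR x) k).abs.tendsto h).comp hulim
    have c2 := ((continuous_mulVec_apply (iR y) k).abs.tendsto h).comp hulim
    exact (c1.eventually_lt (c2.const_mul R) (hR k).1).and
      (c2.eventually_lt (c1.const_mul R) (hR k).2)
  have c1 := ((continuous_mulVec_apply (iR x) i).abs.tendsto h).comp hulim
  have c2 := ((continuous_mulVec_apply (iR y) i).abs.tendsto h).comp hulim
  have hlim : Tendsto (fun n => |(u n *ᵥ iR x) i| / |(u n *ᵥ iR y) i|) atTop (𝓝 t) := by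
    rw [← ht]
    exact c1.div c2 (abs_ne_zero.2 (row_ne hν hnu' hy i))
  refine mem_closure_of_tendsto hlim ?_
  filter_upwards [e1, e2, e3] with n h1 h2 h3
  exact ratios_orb (hu n) i T R ⟨x, y, hx, hy, h1, h2, h3, rfl⟩

/-- the unit vector -/
def ue (j : Fin d) : Fin d → ℤ := Pi.single j 1

lemma ue_ne (j : Fin d) : ue j ≠ 0 := by
  intro h
  have := congrFun h j
  simp [ue] at this

lemma mulVec_ue (h : Matrix (Fin d) (Fin d) ℝ) (j k : Fin d) : (h *ᵥ iR (ue j)) k = h k j := by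
  classical
  have h1 : iR (ue j) = Pi.single j (1 : ℝ) := by
    funext l
    by_cases hl : l = j
    · subst hl; simp [iR, ue]
    · simp [iR, ue, Pi.single_eq_of_ne hl]
  rw [h1, mulVec_single_one]
  rfl

/-- **Countably many local ratios.** There are constants which only depend on the determinant and
the lower bound such that a form for which the ratios for one factor have countable closure is
integral. -/
theorem countable_ratios (hd : 3 ≤ d) {V ν : ℝ} (hV : 0 < V) (hν : 0 < ν) :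
    ∃ T R : ℝ, 0 < T ∧ 0 < R ∧ ∀ g : Matrix (Fin d) (Fin d) ℝ, |g.det| = V → HasNu g ν →
      ∀ i : Fin d, (closure (Ratios g i T R)).Countable → PropInt g := by
  classical
  have hd0 : 0 < d := by omega
  obtain ⟨R₀', hR₀'⟩ := exists_bound hd0 V ν hV hν
  set R₀ : ℝ := |R₀'| + 1 with hR₀
  have hR₀0 : 0 < R₀ := by positivity
  have hR₀1 : R₀' < R₀ := by rw [hR₀]; linarith [le_abs_self R₀']
  refine ⟨R₀ ^ d + 1, R₀ ^ d / ν + 1, by positivity, by positivity, ?_⟩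
  intro g hgdet hnu i hC
  have hg : g.det ≠ 0 := by
    intro h0
    rw [h0, abs_zero] at hgdet
    exact hV.ne hgdet
  by_contra hint
  obtain ⟨M, hMg, hM⟩ := exists_min_closure hd0 hg hν hnu
  have hMnu : ∀ h ∈ M, HasNu h ν := fun h hh => hasNu_closure hnu (hMg hh)
  have hMdet : ∀ h ∈ M, |h.det| = V := fun h hh => (abs_det_closure (hMg hh)).trans hgdet
  -- the open box
  set O : Set (Matrix (Fin d) (Fin d) ℝ) := {h | ∀ k l, |h k l| < R₀} with hO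
  have hOo : IsOpen O := by
    have : O = ⋂ k, ⋂ l, {h : Matrix (Fin d) (Fin d) ℝ | |h k l| < R₀} := by
      ext h; simp [hO]
    rw [this]
    exact isOpen_iInter_of_finite fun k => isOpen_iInter_of_finite fun l =>
      isOpen_lt (cont_entry k l).abs continuous_const
  -- bounds in the box
  have hlow : ∀ h ∈ M, h ∈ O → ∀ k l, ν / R₀ ^ (d - 1) ≤ |h k l| := by
    intro h hh hhO k l
    have h1 := hMnu h hh (ue l) (ue_ne l)
    rw [FF_eq, Finset.abs_prod] at h1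
    simp only [mulVec_ue] at h1
    exact lower_bound (fun k => |h k l|) hR₀0 (fun k => abs_nonneg _) (fun k => hhO k l) h1 k
  have hval : ∀ h ∈ O, ∀ l, |FF h (iR (ue l))| < R₀ ^ d + 1 := by
    intro h hhO l
    rw [FF_eq, Finset.abs_prod]
    simp only [mulVec_ue]
    have h1 : ∏ k : Fin d, |h k l| ≤ ∏ _k : Fin d, R₀ :=
      Finset.prod_le_prod (fun k _ => abs_nonneg _) (fun k _ => (hhO k l).le)
    rw [Finset.prod_const, Finset.card_univ, Fintype.card_fin] at h1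
    linarith
  have hrat : ∀ h ∈ M, h ∈ O → ∀ k l l', |h k l| < (R₀ ^ d / ν + 1) * |h k l'| := by
    intro h hh hhO k l l'
    have h1 := hlow h hh hhO k l'
    have h2 := hhO k l
    have h3 : R₀ ^ d / ν * (ν / R₀ ^ (d - 1)) = R₀ := by
      have h4 : R₀ ^ d = R₀ ^ (d - 1) * R₀ := by
        rw [← pow_succ]; congr 1; omega
      rw [h4]
      field_simp
    have h5 : 0 ≤ R₀ ^ d / ν := by positivity
    have h6 : R₀ ≤ R₀ ^ d / ν * |h k l'| :=
      h3.symm.le.trans (mul_le_mul_of_nonneg_left h1 h5)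
    have h7 : 0 < |h k l'| := (div_pos hν (pow_pos hR₀0 _)).trans_le h1
    nlinarith
  -- the point of the minimal set in the box
  obtain ⟨h₁, hh₁⟩ := hM.ne
  obtain ⟨γ, hγ, hγR⟩ := hR₀' h₁ (hMdet h₁ hh₁) (hMnu h₁ hh₁)
  have hh₁' : h₁ * zR γ ∈ M := hM.inv.gam hh₁ hγ
  have hh₁O : h₁ * zR γ ∈ O := fun k l => (hγR k l).trans_lt hR₀1
  -- Baire
  have hlc : LocallyCompactSpace M := hM.closed.locallyCompactSpace
  have hB : BaireSpace M := BaireSpace.of_t2Space_locallyCompactSpace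
  set C := closure (Ratios g i (R₀ ^ d + 1) (R₀ ^ d / ν + 1)) with hCdef
  have : Countable C := hC.to_subtype
  let j₀ : Fin d := ⟨0, hd0⟩
  let Z : Fin d × C → Set M := fun p =>
    {h | |(h : Matrix (Fin d) (Fin d) ℝ) i p.1| = p.2 * |(h : Matrix (Fin d) (Fin d) ℝ) i j₀|}
  have hZc : ∀ p, IsClosed (Z p) := fun p =>
    isClosed_eq (((cont_entry i p.1).comp continuous_subtype_val).abs)
      (continuous_const.mul ((cont_entry i j₀).comp continuous_subtype_val).abs)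
  have hdense : Dense (⋂ p, (frontier (Z p))ᶜ) := by
    refine dense_iInter_of_isOpen (fun p => isClosed_frontier.isOpen_compl) fun p => ?_
    rw [← interior_eq_empty_iff_dense_compl]
    exact interior_frontier (hZc p)
  obtain ⟨h₀, hh₀O, hh₀⟩ := hdense.inter_open_nonempty (Subtype.val ⁻¹' O)
    (hOo.preimage continuous_subtype_val) ⟨⟨_, hh₁'⟩, hh₁O⟩
  rw [Set.mem_iInter] at hh₀
  have hh₀M := h₀.2
  have hloc : ∀ l : Fin d, ∀ᶠ h in 𝓝[M] (h₀ : Matrix (Fin d) (Fin d) ℝ),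
      |h i l| = |(h₀ : Matrix (Fin d) (Fin d) ℝ) i l| /
        |(h₀ : Matrix (Fin d) (Fin d) ℝ) i j₀| * |h i j₀| := by
    intro l
    have hc : |(h₀ : Matrix (Fin d) (Fin d) ℝ) i l| /
        |(h₀ : Matrix (Fin d) (Fin d) ℝ) i j₀| ∈ C := by
      apply ratios_closure hν hnu (hMg hh₀M) i
      refine ⟨ue l, ue j₀, ue_ne l, ue_ne j₀, hval _ hh₀O l, hval _ hh₀O j₀, fun k => ?_, ?_⟩
      · rw [mulVec_ue, mulVec_ue]
        exact ⟨hrat _ hh₀M hh₀O k l j₀, hrat _ hh₀M hh₀O k j₀ l⟩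
      · rw [mulVec_ue, mulVec_ue]
    have h1 := hh₀ (l, ⟨_, hc⟩)
    have hne : |(h₀ : Matrix (Fin d) (Fin d) ℝ) i j₀| ≠ 0 := by
      have h7 := hlow _ hh₀M hh₀O i j₀
      exact ((div_pos hν (pow_pos hR₀0 _)).trans_le h7).ne'
    have h2 : h₀ ∈ Z (l, ⟨_, hc⟩) := by
      show |(h₀ : Matrix (Fin d) (Fin d) ℝ) i l| = _ * _
      rw [div_mul_cancel₀ _ hne]
    have h3 : h₀ ∈ interior (Z (l, ⟨_, hc⟩)) := by
      by_contra hcon
      exact h1 ⟨subset_closure h2, hcon⟩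
    rw [nhdsWithin_eq_map_subtype_coe h₀.2, Filter.eventually_map]
    filter_upwards [mem_interior_iff_mem_nhds.1 h3] with h hh
    exact hh
  have hsign : ∀ l : Fin d, ∀ᶠ h in 𝓝[M] (h₀ : Matrix (Fin d) (Fin d) ℝ),
      0 < h i l * (h₀ : Matrix (Fin d) (Fin d) ℝ) i l := by
    intro l
    have hne : (h₀ : Matrix (Fin d) (Fin d) ℝ) i l ≠ 0 := by
      have h7 := hlow _ hh₀M hh₀O i l
      exact abs_pos.1 ((div_pos hν (pow_pos hR₀0 _)).trans_le h7)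
    have h1 : Tendsto (fun h : Matrix (Fin d) (Fin d) ℝ =>
        h i l * (h₀ : Matrix (Fin d) (Fin d) ℝ) i l) (𝓝 (h₀ : Matrix (Fin d) (Fin d) ℝ))
        (𝓝 ((h₀ : Matrix (Fin d) (Fin d) ℝ) i l * (h₀ : Matrix (Fin d) (Fin d) ℝ) i l)) :=
      ((cont_entry i l).tendsto _).mul tendsto_const_nhds
    exact (h1.eventually (lt_mem_nhds (mul_self_pos.2 hne))).filter_mono nhdsWithin_le_nhds
  have hrow : ∀ᶠ h in 𝓝[M] (h₀ : Matrix (Fin d) (Fin d) ℝ),
      ∃ c : ℝ, h i = c • (h₀ : Matrix (Fin d) (Fin d) ℝ) i := by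
    filter_upwards [eventually_all.2 hloc, eventually_all.2 hsign] with h h1 h2
    refine ⟨|h i j₀| / |(h₀ : Matrix (Fin d) (Fin d) ℝ) i j₀|, ?_⟩
    funext l
    rw [Pi.smul_apply, smul_eq_mul]
    have h3 := h1 l
    have h4 : |h i l| = |h i j₀| / |(h₀ : Matrix (Fin d) (Fin d) ℝ) i j₀| *
        |(h₀ : Matrix (Fin d) (Fin d) ℝ) i l| := by rw [h3]; ring
    have h5 := h2 l
    rcases lt_trichotomy ((h₀ : Matrix (Fin d) (Fin d) ℝ) i l) 0 with h6 | h6 | h6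
    · have h7 : h i l < 0 := by nlinarith
      rw [abs_of_neg h7, abs_of_neg h6] at h4
      linarith
    · rw [h6, mul_zero] at h5
      exact absurd h5 (lt_irrefl _)
    · have h7 : 0 < h i l := by
        by_contra hcon
        nlinarith
      rw [abs_of_pos h7, abs_of_pos h6] at h4
      exact h4
  exact frequently_row hd hg hν hnu hint hMg hM hh₀M (k := i) (fun l hl => hl)
    (hrow.mono fun h hh => not_not.2 hh)

/-- finitely many plaques -/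
theorem finite_plaques (hd : 3 ≤ d) {V ν : ℝ} (hV : 0 < V) (hν : 0 < ν)
    {Y : Set (Matrix (Fin d) (Fin d) ℝ)} (hY : Y ⊆ NN d V ν) (hYc : IsClosed Y)
    (hYP : ∀ h ∈ Y, PropInt h) (R : ℝ) :
    ∃ S : Finset (Matrix (Fin d) (Fin d) ℝ), (∀ s ∈ S, s ∈ Y) ∧
      ∀ h ∈ Y ∩ {h : Matrix (Fin d) (Fin d) ℝ | ∀ i j, |h i j| ≤ R},
      ∃ s ∈ S, ∃ a : Fin d → ℝ, (∀ i, 0 < a i) ∧ ∏ i, a i = 1 ∧ h = diagonal a * s := by
  classical
  have hcpt : IsCompact (Y ∩ {h : Matrix (Fin d) (Fin d) ℝ | ∀ i j, |h i j| ≤ R}) :=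
    (isCompact_box R).inter_left hYc
  refine hcpt.induction_on (p := fun T => ∃ S : Finset (Matrix (Fin d) (Fin d) ℝ),
    (∀ s ∈ S, s ∈ Y) ∧ ∀ h ∈ T,
    ∃ s ∈ S, ∃ a : Fin d → ℝ, (∀ i, 0 < a i) ∧ ∏ i, a i = 1 ∧ h = diagonal a * s) ?_ ?_ ?_ ?_
  · exact ⟨∅, by simp, by simp⟩
  · rintro s t hst ⟨S, hS, h⟩
    exact ⟨S, hS, fun x hx => h x (hst hx)⟩
  · rintro s t ⟨S, hS, h⟩ ⟨S', hS', h'⟩
    refine ⟨S ∪ S', fun x hx => ?_, ?_⟩
    · rcases Finset.mem_union.1 hx with hx | hx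
      · exact hS x hx
      · exact hS' x hx
    rintro x (hx | hx)
    · obtain ⟨s, hs, ha⟩ := h x hx
      exact ⟨s, Finset.mem_union_left _ hs, ha⟩
    · obtain ⟨s, hs, ha⟩ := h' x hx
      exact ⟨s, Finset.mem_union_right _ hs, ha⟩
  · intro x hx
    have h1 := isolated hd hV hν (hY hx.1) (hYP x hx.1)
    refine ⟨{h | ∃ a : Fin d → ℝ, (∀ i, 0 < a i) ∧ ∏ i, a i = 1 ∧ h = diagonal a * x},
      h1.filter_mono (nhdsWithin_mono _ (Set.inter_subset_left.trans hY)), {x}, ?_, ?_⟩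
    · intro s hs
      rw [Finset.mem_singleton.1 hs]
      exact hx.1
    · intro h hh
      exact ⟨x, Finset.mem_singleton_self x, hh⟩

lemma diag_mulVec (a : Fin d → ℝ) (s : Matrix (Fin d) (Fin d) ℝ) (x : Fin d → ℝ) (k : Fin d) :
    ((diagonal a * s) *ᵥ x) k = a k * (s *ᵥ x) k := by
  rw [← mulVec_mulVec, mulVec_diagonal]

/-- **Integral forms have finitely many local ratios.** -/
theorem finite_ratios (hd : 3 ≤ d) {g : Matrix (Fin d) (Fin d) ℝ} (hg : g.det ≠ 0) {ν : ℝ}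
    (hν : 0 < ν) (hnu : HasNu g ν) (hP : PropInt g) (i : Fin d) (T R : ℝ) :
    (Ratios g i T R).Finite := by
  classical
  have hd0 : 0 < d := by omega
  have hdR : (0 : ℝ) < d := by exact_mod_cast hd0
  have hV : 0 < |g.det| := abs_pos.2 hg
  have hgN : g ∈ NN d |g.det| ν := ⟨rfl, hnu⟩
  obtain ⟨R₀, hR₀⟩ := exists_bound hd0 |g.det| ν hV hν
  obtain ⟨S, hS, hSc⟩ := finite_plaques hd hV hν (NN_orb hgN) isClosed_closure
    (fun h hh => propInt_closure hd hg hν hnu hP hh) R₀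
  obtain ⟨C, hC0, hC⟩ := exists_adj (d := d) R₀
  set L : ℝ := |T| + 1 with hL
  set B : ℝ := d * (C / |g.det| * ((|R| + 1) * L)) with hB
  set N : ℤ := ⌈B⌉ with hN
  set I : Set (Fin d → ℤ) := Set.Icc (fun _ => -N) (fun _ => N) with hI
  have hIf : I.Finite := Set.finite_Icc _ _
  have hfin : ((fun p : Matrix (Fin d) (Fin d) ℝ × (Fin d → ℤ) × (Fin d → ℤ) =>
      |(p.1 *ᵥ iR p.2.1) i| / |(p.1 *ᵥ iR p.2.2) i|) '' ((S : Set _) ×ˢ (I ×ˢ I))).Finite :=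
    ((S.finite_toSet).prod (hIf.prod hIf)).image _
  refine hfin.subset ?_
  rintro t ⟨x, y, hx, hy, hTx, hTy, hR, ht⟩
  -- the normalising diagonal matrix
  have hyk : ∀ k, 0 < |(g *ᵥ iR y) k| := fun k => abs_pos.2 (row_ne hν hnu hy k)
  have hFy : 0 < |FF g (iR y)| := hν.trans_le (hnu y hy)
  set lam : ℝ := |FF g (iR y)| ^ (1 / (d : ℝ)) with hlam
  have hlam0 : 0 < lam := Real.rpow_pos_of_pos hFy _
  have hlamd : lam ^ d = |FF g (iR y)| := by
    rw [hlam, ← Real.rpow_natCast, ← Real.rpow_mul hFy.le, one_div_mul_cancel hdR.ne',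
      Real.rpow_one]
  have hlamL : lam < L := by
    by_contra hcon
    have h1 : L ≤ lam := not_lt.1 hcon
    have h2 : 1 ≤ L := by rw [hL]; linarith [abs_nonneg T]
    have h3 : lam ≤ lam ^ d := le_self_pow₀ (h2.trans h1) hd0.ne'
    have h4 : T ≤ |T| := le_abs_self T
    rw [hlamd] at h3
    linarith
  set b : Fin d → ℝ := fun k => lam / |(g *ᵥ iR y) k| with hb
  have hb0 : ∀ k, 0 < b k := fun k => div_pos hlam0 (hyk k)
  have hb1 : ∏ k, b k = 1 := by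
    simp only [hb]
    rw [Finset.prod_div_distrib, Finset.prod_const, Finset.card_univ, Fintype.card_fin, hlamd,
      FF_eq, Finset.abs_prod]
    exact div_self (Finset.prod_pos fun k _ => hyk k).ne'
  have hmem : diagonal b * g ∈ NN d |g.det| ν :=
    (invB_of_inv (NN_inv (d := d) |g.det| ν) id).diag hgN ⟨hb0, hb1, fun i j hij => by
      rw [show i = j from hij]⟩
  obtain ⟨γ, hγ, hγR⟩ := hR₀ _ hmem.1 hmem.2
  set h' := diagonal b * g * zR γ with hh'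
  have horb : h' ∈ closure (Orb g) := subset_closure ⟨b, γ, hb0, hb1, hγ, rfl⟩
  obtain ⟨s, hs, a, ha0, ha1, has⟩ := hSc h' ⟨horb, hγR⟩
  have hdet' : |h'.det| = |g.det| := abs_det_closure horb
  have hu' : IsUnit h'.det := isUnit_iff_ne_zero.2 (by
    rw [← abs_ne_zero, hdet']; exact hV.ne')
  -- the transformed vectors
  have hback : ∀ z : Fin d → ℤ, γ *ᵥ (γ⁻¹ *ᵥ z) = z := fun z => by
    rw [mulVec_mulVec, Matrix.mul_nonsing_inv _ hγ, one_mulVec]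
  have hval : ∀ (z : Fin d → ℤ) (k : Fin d), (h' *ᵥ iR (γ⁻¹ *ᵥ z)) k = b k * (g *ᵥ iR z) k := by
    intro z k
    rw [hh', orb_mulVec, hback]
  have hI' : ∀ z : Fin d → ℤ, (∀ k, |(h' *ᵥ iR (γ⁻¹ *ᵥ z)) k| ≤ (|R| + 1) * L) →
      γ⁻¹ *ᵥ z ∈ I := by
    intro z hz
    have h1 : ∀ j, |iR (γ⁻¹ *ᵥ z) j| ≤ B := by
      intro j
      have h2 : iR (γ⁻¹ *ᵥ z) = h'⁻¹ *ᵥ (h' *ᵥ iR (γ⁻¹ *ᵥ z)) := by
        rw [mulVec_mulVec, Matrix.nonsing_inv_mul _ hu', one_mulVec]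
      rw [h2]
      have h3 : (h'⁻¹ *ᵥ (h' *ᵥ iR (γ⁻¹ *ᵥ z))) j
          = ∑ k, h'⁻¹ j k * (h' *ᵥ iR (γ⁻¹ *ᵥ z)) k := rfl
      rw [h3]
      refine (Finset.abs_sum_le_sum_abs _ _).trans ?_
      have h4 : ∀ k ∈ Finset.univ, |h'⁻¹ j k * (h' *ᵥ iR (γ⁻¹ *ᵥ z)) k| ≤
          C / |g.det| * ((|R| + 1) * L) := by
        intro k _
        rw [abs_mul]
        refine mul_le_mul ?_ (hz k) (abs_nonneg _) (by positivity)
        rw [Matrix.inv_def, Matrix.smul_apply, smul_eq_mul, abs_mul, Ring.inverse_eq_inv',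
          abs_inv, hdet', div_eq_inv_mul]
        exact mul_le_mul_of_nonneg_left (hC h' hγR j k) (inv_nonneg.2 hV.le)
      refine (Finset.sum_le_card_nsmul _ _ _ h4).trans ?_
      rw [Finset.card_univ, Fintype.card_fin, nsmul_eq_mul]
    rw [hI, Set.mem_Icc, Pi.le_def, Pi.le_def]
    have h5 : ∀ j, |(γ⁻¹ *ᵥ z) j| ≤ N := by
      intro j
      have h6 := (h1 j).trans (Int.le_ceil B)
      have h7 : |((γ⁻¹ *ᵥ z) j : ℝ)| ≤ (N : ℝ) := h6
      exact_mod_cast h7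
    exact ⟨fun j => (abs_le.1 (h5 j)).1, fun j => (abs_le.1 (h5 j)).2⟩
  have hyL : ∀ k, |(h' *ᵥ iR (γ⁻¹ *ᵥ y)) k| = lam := by
    intro k
    rw [hval, abs_mul, abs_of_pos (hb0 k), hb]
    exact div_mul_cancel₀ _ (hyk k).ne'
  have hL0 : 0 < L := by positivity
  have hyI : γ⁻¹ *ᵥ y ∈ I := hI' y fun k => by
    rw [hyL]
    nlinarith [abs_nonneg R, hlamL, hL0]
  have hxI : γ⁻¹ *ᵥ x ∈ I := hI' x fun k => by
    rw [hval, abs_mul, abs_of_pos (hb0 k)]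
    have h1 := (hR k).1
    have h2 : b k * |(g *ᵥ iR y) k| = lam := div_mul_cancel₀ _ (hyk k).ne'
    have h3 : b k * |(g *ᵥ iR x) k| ≤ b k * (R * |(g *ᵥ iR y) k|) :=
      mul_le_mul_of_nonneg_left h1.le (hb0 k).le
    have h4 : b k * (R * |(g *ᵥ iR y) k|) = R * lam := by rw [← h2]; ring
    have h5 : R * lam ≤ |R| * lam := mul_le_mul_of_nonneg_right (le_abs_self R) hlam0.le
    have h6 : |R| * lam ≤ |R| * L := mul_le_mul_of_nonneg_left hlamL.le (abs_nonneg R)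
    nlinarith
  refine ⟨(s, γ⁻¹ *ᵥ x, γ⁻¹ *ᵥ y), ⟨hs, hxI, hyI⟩, ?_⟩
  simp only
  have h1 := hval x i
  have h2 := hval y i
  rw [has, diag_mulVec] at h1 h2
  rw [← ht]
  have h3 : |(s *ᵥ iR (γ⁻¹ *ᵥ x)) i| / |(s *ᵥ iR (γ⁻¹ *ᵥ y)) i| =
      |a i * (s *ᵥ iR (γ⁻¹ *ᵥ x)) i| / |a i * (s *ᵥ iR (γ⁻¹ *ᵥ y)) i| := by
    rw [abs_mul, abs_mul, mul_div_mul_left _ _ (abs_ne_zero.2 (ha0 i).ne')]
  rw [h3, h1, h2, abs_mul, abs_mul, mul_div_mul_left _ _ (abs_ne_zero.2 (hb0 i).ne')]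

end Pool.Agent.X87.CSD
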