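import Mathlib
import Pool.Agent.X87.CSD.Line
import Pool.Agent.X87.CSD.Ratios
import Pool.Agent.Y327.Unique
import Pool.Agent.W241.LacMain

/-! # Functions with values in lacunary sets on a minimal set -/

set_option autoImplicit false

open Filter Topology Matrix

namespace Pool.Agent.X87.CSD

open H715R2 Pool.Agent.Y327 Pool.Agent.W241.Lac

variable {d : ℕ}

/-- Baire: functions with values in a countable union of closed sets -/
theorem baire_local {ι : Type} [Countable ι] {Q : Set (Matrix (Fin d) (Fin d) ℝ)} (hQ : IsClosed Q)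
    (hne : Q.Nonempty) (f : ι → Matrix (Fin d) (Fin d) ℝ → ℝ) (hf : ∀ p, ContinuousOn (f p) Q)
    (C : ℕ → Set ℝ) (hC : ∀ n, IsClosed (C n)) :
    ∃ h₀ ∈ Q, ∀ p, f p h₀ ∈ ⋃ n, C n → ∃ n, ∀ᶠ h in 𝓝[Q] h₀, f p h ∈ C n := by
  classical
  have hlc : LocallyCompactSpace Q := hQ.locallyCompactSpace
  have hB : BaireSpace Q := BaireSpace.of_t2Space_locallyCompactSpace
  have hQne : Nonempty Q := hne.to_subtype
  let Z : ι × ℕ → Set Q := fun p => {h | f p.1 (h : Matrix (Fin d) (Fin d) ℝ) ∈ C p.2}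
  have hZc : ∀ p, IsClosed (Z p) := fun p =>
    (hC p.2).preimage (continuousOn_iff_continuous_domRestrict.1 (hf p.1))
  have hdense : Dense (⋂ p, (frontier (Z p))ᶜ) := by
    refine dense_iInter_of_isOpen (fun p => isClosed_frontier.isOpen_compl) fun p => ?_
    rw [← interior_eq_empty_iff_dense_compl]
    exact interior_frontier (hZc p)
  obtain ⟨h₀, hh₀⟩ := hdense.nonempty
  rw [Set.mem_iInter] at hh₀
  refine ⟨h₀, h₀.2, fun p hp => ?_⟩
  obtain ⟨n, hn⟩ := Set.mem_iUnion.1 hp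
  refine ⟨n, ?_⟩
  have h1 := hh₀ (p, n)
  have h2 : h₀ ∈ Z (p, n) := hn
  have h3 : h₀ ∈ interior (Z (p, n)) := by
    by_contra hcon
    exact h1 ⟨subset_closure h2, hcon⟩
  have h4 : ∀ᶠ h : Q in 𝓝 h₀, f p (h : Matrix (Fin d) (Fin d) ℝ) ∈ C n := by
    filter_upwards [mem_interior_iff_mem_nhds.1 h3] with h hh
    exact hh
  rw [nhdsWithin_eq_map_subtype_coe h₀.2, Filter.eventually_map]
  exact h4

/-- conjugation of a modification of the row `k` -/
lemma Md_conj {k j : Fin d} (hj : j ≠ k) {a : Fin d → ℝ} (ha : BB (pk k j) a) {w : Fin d → ℝ}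
    (hwk : w k = 0) (h : Matrix (Fin d) (Fin d) ℝ) (γ : Matrix (Fin d) (Fin d) ℤ) :
    Md {k} (fun _ => (a k / a j) • w) * (diagonal a * h * zR γ) =
      diagonal a * (Md {k} (fun _ => w) * h) * zR γ := by
  have hja : ∀ l, l ≠ k → a l = a j := fun l hl => ha.2.2 l j (by
    unfold pk; rw [if_neg hl, if_neg hj])
  have key : Md {k} (fun _ => (a k / a j) • w) * diagonal a = diagonal a * Md {k} (fun _ => w) := by
    ext i l
    rw [mul_diagonal, diagonal_mul, Md, Md, Matrix.add_apply, Matrix.add_apply, Matrix.of_apply,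
      Matrix.of_apply]
    by_cases hi : i = k
    · subst hi
      rw [if_pos (Finset.mem_singleton_self i), if_pos (Finset.mem_singleton_self i)]
      by_cases hl : l = i
      · subst hl
        rw [Pi.smul_apply, hwk, smul_zero]
        ring
      · rw [Matrix.one_apply_ne (Ne.symm hl), Pi.smul_apply, smul_eq_mul, hja l hl]
        have := (ha.1 j).ne'
        field_simp
        ring
    · rw [if_neg (by simpa using hi), if_neg (by simpa using hi)]
      by_cases hl : i = l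
      · subst hl; ring
      · rw [Matrix.one_apply_ne hl]; ring
  rw [← Matrix.mul_assoc, ← Matrix.mul_assoc, key]
  simp only [Matrix.mul_assoc]

/-- **Pairs at all scales near every point.** -/
theorem pairs_scales {k j : Fin d} (hj : j ≠ k) {V ν : ℝ} (hV : 0 < V) (hν : 0 < ν)
    {Q : Set (Matrix (Fin d) (Fin d) ℝ)} (hQ : MinB (pk k j) Q) (hQdet : ∀ h ∈ Q, |h.det| = V)
    (hQnu : ∀ h ∈ Q, HasNu h ν) {h₁ : Matrix (Fin d) (Fin d) ℝ} (hh₁ : h₁ ∈ Q) {w : Fin d → ℝ}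
    (hwk : w k = 0) (hw : Md {k} (fun _ => w) * h₁ ∈ Q) {h₀ : Matrix (Fin d) (Fin d) ℝ}
    (hh₀ : h₀ ∈ Q) {U : Set (Matrix (Fin d) (Fin d) ℝ)} (hU : U ∈ 𝓝 h₀) :
    ∃ B : ℝ, 1 ≤ B ∧ ∀ ρ : ℝ, 0 < ρ → ∃ h ∈ U ∩ Q, ∃ σ : ℝ, ρ / B ≤ σ ∧ σ ≤ B * ρ ∧
      Md {k} (fun _ => σ • w) * h ∈ Q := by
  classical
  have hd : 0 < d := Fin.pos k
  obtain ⟨U', hU'U, hU'o, hU'm⟩ := mem_nhds_iff.1 hU
  obtain ⟨B, hB, hret⟩ := exists_returnB hd hV hν hQdet hQnu hQ hh₀ hU'o hU'm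
  have hB0 : 0 < B := by linarith
  refine ⟨B ^ 2, by nlinarith, fun ρ hρ => ?_⟩
  obtain ⟨b, hb, hbk⟩ := exists_bk hd (pk_single hj) hρ
  have h2 : diagonal b * h₁ ∈ Q := hQ.inv.diag hh₁ hb
  have hbr : b k / b j = ρ := by
    rw [hbk j hj]
    exact mul_div_cancel_right₀ _ (hb.1 j).ne'
  have h3 : Md {k} (fun _ => ρ • w) * (diagonal b * h₁) ∈ Q := by
    have h4 := hQ.inv _ hw b 1 hb (by simp)
    rw [← Md_conj hj hb hwk, zR_one, Matrix.mul_one, hbr] at h4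
    exact h4
  obtain ⟨a, γ, ha, hγ, haB, haU⟩ := hret _ h2
  have h4 := hQ.inv _ h3 a γ ha hγ
  rw [← Md_conj hj ha (by rw [Pi.smul_apply, hwk, smul_zero])] at h4
  refine ⟨_, ⟨hU'U haU, hQ.inv _ h2 a γ ha hγ⟩, a k / a j * ρ, ?_, ?_, ?_⟩
  · have h5 : 1 / B ^ 2 ≤ a k / a j := by
      rw [div_le_div_iff₀ (by positivity) (ha.1 j), one_mul]
      have h6 : a j ≤ B := (haB j).1
      have h7 : 1 ≤ a k * B := by
        have := (haB k).2
        rwa [inv_le_iff_one_le_mul₀ hB0] at this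
      nlinarith [ha.1 j, ha.1 k]
    have := mul_le_mul_of_nonneg_right h5 hρ.le
    calc ρ / B ^ 2 = 1 / B ^ 2 * ρ := by ring
      _ ≤ _ := this
  · refine mul_le_mul_of_nonneg_right ?_ hρ.le
    rw [div_le_iff₀ (ha.1 j)]
    have h6 : a k ≤ B := (haB k).1
    have h7 : 1 ≤ a j * B := by
      have := (haB j).2
      rwa [inv_le_iff_one_le_mul₀ hB0] at this
    nlinarith [ha.1 j, ha.1 k]
  · rwa [smul_smul] at h4

/-- **A function which is sensitive to the row modification does not have values in a lacunary set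
near a point.** -/
theorem lac_contra {k j : Fin d} (hj : j ≠ k) {V ν : ℝ} (hV : 0 < V) (hν : 0 < ν)
    {Q : Set (Matrix (Fin d) (Fin d) ℝ)} (hQ : MinB (pk k j) Q) (hQdet : ∀ h ∈ Q, |h.det| = V)
    (hQnu : ∀ h ∈ Q, HasNu h ν) {h₁ : Matrix (Fin d) (Fin d) ℝ} (hh₁ : h₁ ∈ Q) {w : Fin d → ℝ}
    (hwk : w k = 0) (hw : Md {k} (fun _ => w) * h₁ ∈ Q) {h₀ : Matrix (Fin d) (Fin d) ℝ}
    (hh₀ : h₀ ∈ Q) {f : Matrix (Fin d) (Fin d) ℝ → ℝ} {S : Set ℝ} (hS : Lacunary S)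
    (hf : ∀ᶠ h in 𝓝[Q] h₀, f h ∈ S) {c c' : ℝ} (hc : 0 < c) (hc' : 0 < c')
    (hfs : ∀ᶠ p in 𝓝 (h₀, (0 : ℝ)), c * |p.2| ≤ |f (Md {k} (fun _ => p.2 • w) * p.1) - f p.1| ∧
      |f (Md {k} (fun _ => p.2 • w) * p.1) - f p.1| ≤ c' * |p.2|) : False := by
  classical
  obtain ⟨W, hW, hWe⟩ := mem_nhdsWithin_iff_exists_mem_nhds_inter.1 hf
  have hcont : Continuous (fun p : Matrix (Fin d) (Fin d) ℝ × ℝ =>
      Md {k} (fun _ => p.2 • w) * p.1) := by
    have h1 : Continuous (fun p : Matrix (Fin d) (Fin d) ℝ × ℝ =>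
        (Md {k} (fun _ => p.2 • w) : Matrix (Fin d) (Fin d) ℝ)) := by
      unfold Md
      refine continuous_const.add (continuous_matrix fun i l => ?_)
      simp only [Matrix.of_apply]
      split_ifs
      · simp only [Pi.smul_apply, smul_eq_mul]
        exact continuous_snd.mul continuous_const
      · exact continuous_const
    exact h1.matrix_mul continuous_fst
  have h0 : Md {k} (fun _ => (0 : ℝ) • w) * h₀ = h₀ := by
    have h1 : (Md {k} (fun _ => (0 : ℝ) • w) : Matrix (Fin d) (Fin d) ℝ) = 1 := by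
      unfold Md
      ext i l
      simp
    rw [h1, Matrix.one_mul]
  have hev : ∀ᶠ p in 𝓝 (h₀, (0 : ℝ)), p.1 ∈ W ∧ Md {k} (fun _ => p.2 • w) * p.1 ∈ W ∧
      (c * |p.2| ≤ |f (Md {k} (fun _ => p.2 • w) * p.1) - f p.1| ∧
      |f (Md {k} (fun _ => p.2 • w) * p.1) - f p.1| ≤ c' * |p.2|) := by
    refine Filter.Eventually.and ?_ (Filter.Eventually.and ?_ hfs)
    · exact (continuous_fst.tendsto (h₀, (0 : ℝ))).eventually hW
    · have h1 := hcont.tendsto (h₀, (0 : ℝ))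
      simp only [h0] at h1
      exact h1.eventually hW
  obtain ⟨U1, hU1, U2, hU2, hU12⟩ := mem_nhds_prod_iff.1 hev
  obtain ⟨δ, hδ, hδU⟩ := Metric.mem_nhds_iff.1 hU2
  obtain ⟨B, hB, hsc⟩ := pairs_scales hj hV hν hQ hQdet hQnu hh₁ hwk hw hh₀ hU1
  have hB0 : 0 < B := by linarith
  -- the gap
  obtain ⟨η, hη0, hηlt, hηgap⟩ := hS (c' * B ^ 2 / c + 1) (by
      have : 0 < c' * B ^ 2 / c := by positivity
      linarith) (c * δ / B ^ 2) (by positivity)
  obtain ⟨h, ⟨hhU, hhQ⟩, σ, hσ1, hσ2, hσQ⟩ := hsc (η * B / c) (by positivity)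
  have hσlow : η / c ≤ σ := by
    have h1 : η * B / c / B = η / c := by field_simp
    rwa [h1] at hσ1
  have hσup : σ ≤ B ^ 2 * η / c := by
    have h1 : B * (η * B / c) = B ^ 2 * η / c := by ring
    rwa [h1] at hσ2
  have hσ0 : 0 < σ := (div_pos hη0 hc).trans_le hσlow
  have hσδ : σ < δ := by
    refine hσup.trans_lt ?_
    rw [div_lt_iff₀ hc]
    rw [lt_div_iff₀ (by positivity)] at hηlt
    linarith
  have hmem : (h, σ) ∈ U1 ×ˢ U2 := ⟨hhU, hδU (by
    rw [mem_ball_zero_iff, Real.norm_eq_abs, abs_of_pos hσ0]; exact hσδ)⟩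
  obtain ⟨hhW, hh'W, hlow, hup⟩ := hU12 hmem
  simp only at hhW hh'W hlow hup
  have e1 : f h ∈ S := hWe ⟨hhW, hhQ⟩
  have e2 : f (Md {k} (fun _ => σ • w) * h) ∈ S := hWe ⟨hh'W, hσQ⟩
  rw [abs_of_pos hσ0] at hlow hup
  have hlow' : η ≤ |f (Md {k} (fun _ => σ • w) * h) - f h| := by
    refine le_trans ?_ hlow
    rw [div_le_iff₀ hc] at hσlow
    linarith
  have hup' : |f (Md {k} (fun _ => σ • w) * h) - f h| < (c' * B ^ 2 / c + 1) * η := by
    refine hup.trans_lt ?_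
    have h1 : c' * σ ≤ c' * (B ^ 2 * η / c) := mul_le_mul_of_nonneg_left hσup hc'.le
    have h2 : c' * (B ^ 2 * η / c) = c' * B ^ 2 / c * η := by ring
    nlinarith
  rcases hηgap _ e2 _ e1 with h1 | h1
  · exact absurd h1 (not_lt.2 hlow')
  · exact absurd h1 (not_lt.2 hup'.le)

/-- the value at a point moved by a row modification -/
lemma FF_row (h : Matrix (Fin d) (Fin d) ℝ) {k : Fin d} (w : Fin d → ℝ) (s : ℝ) (m : Fin d → ℝ) :
    FF (Md {k} (fun _ => s • w) * h) m =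
      FF h m + s * ((w ⬝ᵥ (h *ᵥ m)) * ∏ l ∈ Finset.univ.erase k, (h *ᵥ m) l) := by
  classical
  rw [FF_mul, FF_eq, FF_eq]
  set z := h *ᵥ m with hz
  have h1 : ∀ l, ((Md {k} (fun _ => s • w) : Matrix (Fin d) (Fin d) ℝ) *ᵥ z) l
      = z l + if l = k then s * (w ⬝ᵥ z) else 0 := by
    intro l
    unfold Md
    rw [Matrix.add_mulVec, Matrix.one_mulVec, Pi.add_apply]
    congr 1
    show ∑ l', (if l ∈ ({k} : Finset (Fin d)) then (s • w) l' else 0) * z l' = _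
    by_cases hl : l = k
    · subst hl
      simp only [Finset.mem_singleton, if_true, Pi.smul_apply, smul_eq_mul, dotProduct]
      rw [Finset.mul_sum]
      exact Finset.sum_congr rfl fun _ _ => by ring
    · simp [hl]
  simp only [h1]
  rw [← Finset.mul_prod_erase Finset.univ _ (Finset.mem_univ k),
    ← Finset.mul_prod_erase Finset.univ (fun l => z l) (Finset.mem_univ k), if_pos rfl]
  have h2 : ∏ l ∈ Finset.univ.erase k, (z l + if l = k then s * (w ⬝ᵥ z) else 0)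
      = ∏ l ∈ Finset.univ.erase k, z l := by
    refine Finset.prod_congr rfl fun l hl => ?_
    rw [if_neg (Finset.ne_of_mem_erase hl), add_zero]
  rw [h2]
  ring

/-- a vector of small value on which a given combination of the coordinates does not vanish -/
lemma exists_vec_ne {T c₀ r : ℝ} (hc₀ : 0 < c₀) {h₀ : Matrix (Fin d) (Fin d) ℝ}
    (hvec : ∀ b : Fin d → ℝ, (∀ i, 0 < b i) → ∏ i, b i = 1 → ∃ m : Fin d → ℤ,
      (∀ i, b i * |(h₀ *ᵥ iR m) i| < r) ∧ (∀ i, c₀ ≤ b i * |(h₀ *ᵥ iR m) i|) ∧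
      |FF h₀ (iR m)| < T) {w : Fin d → ℝ} (hw : w ≠ 0) :
    ∃ m : Fin d → ℤ, |FF h₀ (iR m)| < T ∧ (∀ i, (h₀ *ᵥ iR m) i ≠ 0) ∧
      w ⬝ᵥ (h₀ *ᵥ iR m) ≠ 0 := by
  classical
  obtain ⟨l₀, hl₀⟩ : ∃ l, w l ≠ 0 := by
    by_contra hcon
    push Not at hcon
    exact hw (funext hcon)
  have hd : 0 < d := Fin.pos l₀
  have hd1 : (1 : ℝ) ≤ d := by exact_mod_cast hd
  set A : ℝ := ∑ l ∈ Finset.univ.erase l₀, |w l| with hA
  have hA0 : 0 ≤ A := Finset.sum_nonneg fun _ _ => abs_nonneg _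
  -- a large time
  obtain ⟨s, hs⟩ := exists_nat_gt (A * r / (|w l₀| * c₀))
  have hwc : 0 < |w l₀| * c₀ := mul_pos (abs_pos.2 hl₀) hc₀
  have hsr : (0 : ℝ) ≤ s := Nat.cast_nonneg s
  obtain ⟨m, hm1, hm2, hm3⟩ := hvec (at1 l₀ s) (at1_pos l₀ _) (at1_prod l₀ _)
  refine ⟨m, hm3, fun i h0 => ?_, fun h0 => ?_⟩
  · have := hm2 i
    rw [h0, abs_zero, mul_zero] at this
    exact absurd this (not_le.2 hc₀)
  · set z := h₀ *ᵥ iR m with hz
    have h1 : |w l₀ * z l₀| ≤ ∑ l ∈ Finset.univ.erase l₀, |w l * z l| := by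
      have h2 : w l₀ * z l₀ = -∑ l ∈ Finset.univ.erase l₀, w l * z l := by
        have h3 : w ⬝ᵥ z = w l₀ * z l₀ + ∑ l ∈ Finset.univ.erase l₀, w l * z l :=
          (Finset.add_sum_erase _ (fun l => w l * z l) (Finset.mem_univ l₀)).symm
        linarith
      rw [h2, abs_neg]
      exact Finset.abs_sum_le_sum_abs _ _
    have h2 : ∑ l ∈ Finset.univ.erase l₀, |w l * z l| ≤ A * (r * Real.exp (-(s : ℝ))) := by
      rw [hA, Finset.sum_mul]
      refine Finset.sum_le_sum fun l hl => ?_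
      rw [abs_mul]
      refine mul_le_mul_of_nonneg_left ?_ (abs_nonneg _)
      have h3 := hm1 l
      unfold at1 at h3
      rw [if_neg (Finset.ne_of_mem_erase hl)] at h3
      rw [Real.exp_neg, ← div_eq_mul_inv, le_div_iff₀ (Real.exp_pos _), mul_comm]
      exact h3.le
    have h3 : c₀ ≤ |z l₀| := by
      have h4 := hm2 l₀
      unfold at1 at h4
      rw [if_pos rfl] at h4
      have h5 : Real.exp (-(((d : ℝ) - 1) * s)) ≤ 1 := by
        rw [Real.exp_le_one_iff]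
        have : 0 ≤ ((d : ℝ) - 1) * s := mul_nonneg (by linarith) hsr
        linarith
      exact h4.trans (mul_le_of_le_one_left (abs_nonneg _) h5)
    have h4 : |w l₀| * c₀ ≤ A * (r * Real.exp (-(s : ℝ))) := by
      refine le_trans ?_ (h1.trans h2)
      rw [abs_mul]
      exact mul_le_mul_of_nonneg_left h3 (abs_nonneg _)
    have h5 : Real.exp (-(s : ℝ)) * s < 1 := by
      have h6 := Real.add_one_le_exp (s : ℝ)
      rw [Real.exp_neg, inv_mul_lt_iff₀ (Real.exp_pos _)]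
      linarith
    rw [div_lt_iff₀ hwc] at hs
    have h6 : 0 < Real.exp (-(s : ℝ)) := Real.exp_pos _
    have h7 : A * (r * Real.exp (-(s : ℝ))) ≤ Real.exp (-(s : ℝ)) * ((s : ℝ) * (|w l₀| * c₀)) := by
      nlinarith
    have h8 : Real.exp (-(s : ℝ)) * ((s : ℝ) * (|w l₀| * c₀)) < 1 * (|w l₀| * c₀) := by
      rw [← mul_assoc]
      exact mul_lt_mul_of_pos_right h5 hwc
    linarith

/-- sensitivity of the values -/
lemma value_sens {h₀ : Matrix (Fin d) (Fin d) ℝ} {k : Fin d} (w : Fin d → ℝ) (m : Fin d → ℤ)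
    (hz : ∀ i, (h₀ *ᵥ iR m) i ≠ 0) (hw : w ⬝ᵥ (h₀ *ᵥ iR m) ≠ 0) :
    ∃ c c' : ℝ, 0 < c ∧ 0 < c' ∧ ∀ᶠ p in 𝓝 (h₀, (0 : ℝ)),
      c * |p.2| ≤ |(|FF (Md {k} (fun _ => p.2 • w) * p.1) (iR m)|) - (|FF p.1 (iR m)|)| ∧
      |(|FF (Md {k} (fun _ => p.2 • w) * p.1) (iR m)|) - (|FF p.1 (iR m)|)| ≤ c' * |p.2| := by
  classical
  set G : Matrix (Fin d) (Fin d) ℝ → ℝ := fun h =>
    (w ⬝ᵥ (h *ᵥ iR m)) * ∏ l ∈ Finset.univ.erase k, (h *ᵥ iR m) l with hG
  have hGc : Continuous G := by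
    have h1 : ∀ l, Continuous (fun h : Matrix (Fin d) (Fin d) ℝ => (h *ᵥ iR m) l) :=
      fun l => continuous_mulVec_apply (iR m) l
    refine Continuous.mul ?_ (continuous_finsetProd _ fun l _ => h1 l)
    unfold dotProduct
    exact continuous_finsetSum _ fun l _ => continuous_const.mul (h1 l)
  have hG0 : G h₀ ≠ 0 := mul_ne_zero hw (Finset.prod_ne_zero_iff.2 fun l _ => hz l)
  have hF0 : FF h₀ (iR m) ≠ 0 := by
    rw [FF_eq]
    exact Finset.prod_ne_zero_iff.2 fun l _ => hz l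
  set g₀ := |G h₀| with hg₀
  have hg₀pos : 0 < g₀ := abs_pos.2 hG0
  refine ⟨g₀ / 2, 2 * g₀, by positivity, by positivity, ?_⟩
  have hcont : Continuous (fun p : Matrix (Fin d) (Fin d) ℝ × ℝ =>
      FF (Md {k} (fun _ => p.2 • w) * p.1) (iR m)) := by
    have h1 : (fun p : Matrix (Fin d) (Fin d) ℝ × ℝ =>
        FF (Md {k} (fun _ => p.2 • w) * p.1) (iR m)) = fun p => FF p.1 (iR m) + p.2 * G p.1 := by
      funext p
      exact FF_row p.1 w p.2 (iR m)
    rw [h1]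
    exact ((continuous_FF (iR m)).comp continuous_fst).add
      (continuous_snd.mul (hGc.comp continuous_fst))
  have hz0 : FF (Md {k} (fun _ => (0 : ℝ) • w) * h₀) (iR m) = FF h₀ (iR m) := by
    rw [FF_row]; ring
  have e1 : ∀ᶠ p : Matrix (Fin d) (Fin d) ℝ × ℝ in 𝓝 (h₀, (0 : ℝ)),
      g₀ / 2 < |G p.1| ∧ |G p.1| < 2 * g₀ := by
    have h1 : Tendsto (fun p : Matrix (Fin d) (Fin d) ℝ × ℝ => |G p.1|) (𝓝 (h₀, (0 : ℝ)))
        (𝓝 g₀) := ((hGc.comp continuous_fst).abs).tendsto (h₀, (0 : ℝ))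
    exact (h1.eventually (lt_mem_nhds (by linarith))).and
      (h1.eventually (gt_mem_nhds (by linarith)))
  have e2 : ∀ᶠ p : Matrix (Fin d) (Fin d) ℝ × ℝ in 𝓝 (h₀, (0 : ℝ)),
      0 < FF p.1 (iR m) * FF h₀ (iR m) := by
    have h1 := (((continuous_FF (iR m)).comp
      (continuous_fst (X := Matrix (Fin d) (Fin d) ℝ) (Y := ℝ))).mul
      (continuous_const (y := FF h₀ (iR m)))).tendsto (h₀, (0 : ℝ))
    exact h1.eventually (lt_mem_nhds (mul_self_pos.2 hF0))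
  have e3 : ∀ᶠ p : Matrix (Fin d) (Fin d) ℝ × ℝ in 𝓝 (h₀, (0 : ℝ)),
      0 < FF (Md {k} (fun _ => p.2 • w) * p.1) (iR m) * FF h₀ (iR m) := by
    have h1 : Tendsto (fun p : Matrix (Fin d) (Fin d) ℝ × ℝ =>
        FF (Md {k} (fun _ => p.2 • w) * p.1) (iR m) * FF h₀ (iR m)) (𝓝 (h₀, (0 : ℝ)))
        (𝓝 (FF (Md {k} (fun _ => (0 : ℝ) • w) * h₀) (iR m) * FF h₀ (iR m))) :=
      (hcont.mul (continuous_const (y := FF h₀ (iR m)))).tendsto (h₀, (0 : ℝ))
    rw [hz0] at h1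
    exact h1.eventually (lt_mem_nhds (mul_self_pos.2 hF0))
  filter_upwards [e1, e2, e3] with p h1 h2 h3
  have h4 : FF (Md {k} (fun _ => p.2 • w) * p.1) (iR m) = FF p.1 (iR m) + p.2 * G p.1 :=
    FF_row p.1 w p.2 (iR m)
  have h5 : |(|FF (Md {k} (fun _ => p.2 • w) * p.1) (iR m)|) - (|FF p.1 (iR m)|)| =
      |p.2| * |G p.1| := by
    rw [← abs_mul]
    rcases lt_or_gt_of_ne hF0 with h0 | h0
    · have h6 : FF p.1 (iR m) < 0 := by
        by_contra hcon
        exact absurd h2 (not_lt.2 (mul_nonpos_of_nonneg_of_nonpos (not_lt.1 hcon) h0.le))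
      have h7 : FF (Md {k} (fun _ => p.2 • w) * p.1) (iR m) < 0 := by
        by_contra hcon
        exact absurd h3 (not_lt.2 (mul_nonpos_of_nonneg_of_nonpos (not_lt.1 hcon) h0.le))
      rw [abs_of_neg h6, abs_of_neg h7, h4]
      have : -(FF p.1 (iR m) + p.2 * G p.1) - -FF p.1 (iR m) = -(p.2 * G p.1) := by ring
      rw [this, abs_neg]
    · have h6 : 0 < FF p.1 (iR m) := (pos_iff_pos_of_mul_pos h2).2 h0
      have h7 : 0 < FF (Md {k} (fun _ => p.2 • w) * p.1) (iR m) :=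
        (pos_iff_pos_of_mul_pos h3).2 h0
      rw [abs_of_pos h6, abs_of_pos h7, h4]
      have : FF p.1 (iR m) + p.2 * G p.1 - FF p.1 (iR m) = p.2 * G p.1 := by ring
      rw [this]
  rw [h5]
  have h6 := abs_nonneg p.2
  constructor
  · nlinarith [h1.1]
  · nlinarith [h1.2]

/-- sensitivity of the ratios -/
lemma ratio_sens {h₀ : Matrix (Fin d) (Fin d) ℝ} {k l l' : Fin d} (w : Fin d → ℝ)
    (h1 : h₀ k l ≠ 0) (h2 : h₀ k l' ≠ 0)
    (hw : (w ᵥ* h₀) l * h₀ k l' - (w ᵥ* h₀) l' * h₀ k l ≠ 0) :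
    ∃ c c' : ℝ, 0 < c ∧ 0 < c' ∧ ∀ᶠ p in 𝓝 (h₀, (0 : ℝ)),
      c * |p.2| ≤ |(|(Md {k} (fun _ => p.2 • w) * p.1) k l| /
        |(Md {k} (fun _ => p.2 • w) * p.1) k l'|) - (|p.1 k l| / |p.1 k l'|)| ∧
      |(|(Md {k} (fun _ => p.2 • w) * p.1) k l| /
        |(Md {k} (fun _ => p.2 • w) * p.1) k l'|) - (|p.1 k l| / |p.1 k l'|)| ≤ c' * |p.2| := by
  classical
  have hrow : ∀ (p : Matrix (Fin d) (Fin d) ℝ × ℝ) b, (Md {k} (fun _ => p.2 • w) * p.1) k b =
      p.1 k b + p.2 * (w ᵥ* p.1) b := by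
    intro p b
    have h3 := congrFun (Md_row (k := k) (p.2 • w) p.1) b
    rw [h3, Pi.add_apply, Matrix.smul_vecMul, Pi.smul_apply, smul_eq_mul]
  have hwc : ∀ b, Continuous (fun h : Matrix (Fin d) (Fin d) ℝ => (w ᵥ* h) b) := by
    intro b
    unfold vecMul dotProduct
    exact continuous_finsetSum _ fun i _ => continuous_const.mul (cont_entry i b)
  set G : Matrix (Fin d) (Fin d) ℝ × ℝ → ℝ := fun p =>
    ((w ᵥ* p.1) l * p.1 k l' - (w ᵥ* p.1) l' * p.1 k l) /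
      (p.1 k l' * (p.1 k l' + p.2 * (w ᵥ* p.1) l')) with hG
  have hGc : ContinuousAt G (h₀, (0 : ℝ)) := by
    refine ContinuousAt.div ?_ ?_ ?_
    · refine Continuous.continuousAt ?_
      exact (((hwc l).comp continuous_fst).mul ((cont_entry k l').comp continuous_fst)).sub
        (((hwc l').comp continuous_fst).mul ((cont_entry k l).comp continuous_fst))
    · refine Continuous.continuousAt ?_
      exact ((cont_entry k l').comp continuous_fst).mul (((cont_entry k l').comp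
        continuous_fst).add (continuous_snd.mul ((hwc l').comp continuous_fst)))
    · simp only [zero_mul, add_zero]
      exact mul_ne_zero h2 h2
  have hG0 : G (h₀, (0 : ℝ)) ≠ 0 := by
    simp only [hG, zero_mul, add_zero]
    exact div_ne_zero hw (mul_ne_zero h2 h2)
  set g₀ := |G (h₀, (0 : ℝ))| with hg₀
  have hg₀pos : 0 < g₀ := abs_pos.2 hG0
  refine ⟨g₀ / 2, 2 * g₀, by positivity, by positivity, ?_⟩
  have e1 : ∀ᶠ p : Matrix (Fin d) (Fin d) ℝ × ℝ in 𝓝 (h₀, (0 : ℝ)),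
      g₀ / 2 < |G p| ∧ |G p| < 2 * g₀ := by
    have h3 := hGc.abs.tendsto
    exact (h3.eventually (lt_mem_nhds (by rw [← hg₀]; linarith))).and
      (h3.eventually (gt_mem_nhds (by rw [← hg₀]; linarith)))
  have e2 : ∀ b, h₀ k b ≠ 0 → ∀ᶠ p : Matrix (Fin d) (Fin d) ℝ × ℝ in 𝓝 (h₀, (0 : ℝ)),
      0 < p.1 k b * h₀ k b := by
    intro b hb
    have h3 := (((cont_entry k b).comp
      (continuous_fst (X := Matrix (Fin d) (Fin d) ℝ) (Y := ℝ))).mul
      (continuous_const (y := h₀ k b))).tendsto (h₀, (0 : ℝ))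
    exact h3.eventually (lt_mem_nhds (mul_self_pos.2 hb))
  have e3 : ∀ b, h₀ k b ≠ 0 → ∀ᶠ p : Matrix (Fin d) (Fin d) ℝ × ℝ in 𝓝 (h₀, (0 : ℝ)),
      0 < (p.1 k b + p.2 * (w ᵥ* p.1) b) * h₀ k b := by
    intro b hb
    have h3 : Continuous (fun p : Matrix (Fin d) (Fin d) ℝ × ℝ =>
        (p.1 k b + p.2 * (w ᵥ* p.1) b) * h₀ k b) :=
      (((cont_entry k b).comp continuous_fst).add
        (continuous_snd.mul ((hwc b).comp continuous_fst))).mul continuous_const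
    have h4 := h3.tendsto (h₀, (0 : ℝ))
    simp only [zero_mul, add_zero] at h4
    exact h4.eventually (lt_mem_nhds (mul_self_pos.2 hb))
  filter_upwards [e1, e2 l h1, e2 l' h2, e3 l h1, e3 l' h2] with p hp1 hp2 hp3 hp4 hp5
  rw [hrow, hrow]
  set x := p.1 k l with hx
  set y := p.1 k l' with hy
  set x' := x + p.2 * (w ᵥ* p.1) l with hx'
  set y' := y + p.2 * (w ᵥ* p.1) l' with hy'
  have hy0 : y ≠ 0 := fun h => by rw [h, zero_mul] at hp3; exact lt_irrefl _ hp3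
  have hy'0 : y' ≠ 0 := fun h => by rw [h, zero_mul] at hp5; exact lt_irrefl _ hp5
  have hxx : 0 < x' * x := by
    have h3 : 0 < (x' * x) * (h₀ k l) ^ 2 := by
      have := mul_pos hp4 hp2
      linarith [this, show x' * h₀ k l * (x * h₀ k l) = (x' * x) * (h₀ k l) ^ 2 by ring]
    exact (pos_iff_pos_of_mul_pos h3).2 (by positivity)
  have hyy : 0 < y' * y := by
    have h3 : 0 < (y' * y) * (h₀ k l') ^ 2 := by
      have := mul_pos hp5 hp3
      linarith [this, show y' * h₀ k l' * (y * h₀ k l') = (y' * y) * (h₀ k l') ^ 2 by ring]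
    exact (pos_iff_pos_of_mul_pos h3).2 (by positivity)
  have hdiff : x' / y' - x / y = p.2 * G p := by
    simp only [hG]
    rw [← hx, ← hy, ← hy', hx']
    field_simp
    rw [hy']
    ring
  have hsame : 0 < (x' / y') * (x / y) := by
    have h3 : (x' / y') * (x / y) = (x' * x) / (y' * y) := by field_simp
    rw [h3]
    exact div_pos hxx hyy
  have h5 : |(|x'| / |y'|) - (|x| / |y|)| = |p.2| * |G p| := by
    rw [← abs_div, ← abs_div, ← abs_mul, ← hdiff]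
    rcases lt_trichotomy (x / y) 0 with h3 | h3 | h3
    · have h4 : x' / y' < 0 := by
        by_contra hcon
        exact absurd hsame (not_lt.2 (mul_nonpos_of_nonneg_of_nonpos (not_lt.1 hcon) h3.le))
      rw [abs_of_neg h3, abs_of_neg h4]
      have : -(x' / y') - -(x / y) = -(x' / y' - x / y) := by ring
      rw [this, abs_neg]
    · rw [h3, mul_zero] at hsame
      exact absurd hsame (lt_irrefl _)
    · have h4 : 0 < x' / y' := (pos_iff_pos_of_mul_pos hsame).2 h3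
      rw [abs_of_pos h3, abs_of_pos h4]
  rw [h5]
  have h6 := abs_nonneg p.2
  constructor
  · nlinarith [hp1.1]
  · nlinarith [hp1.2]

end Pool.Agent.X87.CSD
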