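import Mathlib
import Pool.Agent.X87.CSD.LwWindows
import Pool.Agent.X87.CSD.Scales

/-! # Lacunary limit values and ratios along windows -/

set_option autoImplicit false

open Filter Topology Matrix

namespace Pool.Agent.X87.CSD

open H715R2 Pool.Agent.Y327 Pool.Agent.W241.Lac

/-- a minimal set along the windows and a pair in it which differs in the row `k` -/
theorem window_pair {α β ν : ℝ} (hν0 : 0 < ν)
    (hν : ∀ q p r : ℤ, q ≠ 0 → ν ≤ |(q : ℝ) * (α * q - p) * (β * q - r)|)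
    {𝒲 : Set (ℝ × ℝ)} {k : Fin 3} (h𝒲 : LongSegments 𝒲 k) :
    ∃ Q ⊆ LimW α β 𝒲 k, ∃ j : Fin 3, j ≠ k ∧ MinB (pk k j) Q ∧ (∀ h ∈ Q, |h.det| = 1) ∧
      (∀ h ∈ Q, HasNu h ν) ∧ ∃ h₁ ∈ Q, ∃ w : Fin 3 → ℝ, w k = 0 ∧ w ≠ 0 ∧
        Md {k} (fun _ => w) * h₁ ∈ Q := by
  obtain ⟨Q, hQW, -, -, ⟨j, hj, hQ⟩, hdet, hnu, hfr⟩ := window_min hν0 hν h𝒲
  obtain ⟨h₀, hh₀⟩ := hQ.ne
  obtain ⟨h₁, hh₁, w, hwk, hw0, hw⟩ := row_pair (by norm_num) one_pos hν0 hdet hnu hQ.closed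
    hQ.inv hh₀ (pk_single hj) (hfr h₀ hh₀)
  exact ⟨Q, hQW, j, hj, hQ, hdet, hnu, h₁, hh₁, w, hwk, hw0, hw⟩

/-- the values at integer points of limits along the windows are limit values -/
lemma window_cluster {α β ν : ℝ} (hν0 : 0 < ν) {𝒲 : Set (ℝ × ℝ)} {k : Fin 3}
    {h : Matrix (Fin 3) (Fin 3) ℝ} (hh : h ∈ LimW α β 𝒲 k) (hnu : HasNu h ν) {R : ℝ}
    {m : Fin 3 → ℤ} (hm : m ≠ 0) (hR : ∀ l, |(h *ᵥ iR m) l| < R) :
    MapClusterPt |FF h (iR m)| (atTop ⊓ 𝓟 (DenW α β R 𝒲)) (fL α β) := by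
  rw [mapClusterPt_iff_frequently]
  intro s hs
  rw [frequently_inf_principal, frequently_atTop]
  intro N₀
  obtain ⟨h', hh', p, hp, q, hq1, hq2, hq3, -⟩ := approx hν0 hh hnu N₀
    (fun _ : Unit => m) (fun _ => hm) (fun _ l => hR l)
    (U := (fun h' : Matrix (Fin 3) (Fin 3) ℝ => |FF h' (iR m)|) ⁻¹' s)
    ((continuous_FF (iR m)).abs.continuousAt hs)
  refine ⟨q (), hq1 (), ⟨p, hp, hq2 ()⟩, ?_⟩
  rw [hq3 ()]
  exact hh'

/-- **Lacunary limit values along windows.** -/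
theorem window_values_lac {α β T : ℝ}
    (hT : 2 / 9 < T ∨ ∀ h : Matrix (Fin 3) (Fin 3) ℝ, |h.det| = 1 →
      ∃ m : Fin 3 → ℤ, m ≠ 0 ∧ |FF h (iR m)| < T)
    {𝒲 : Set (ℝ × ℝ)} {k : Fin 3} (h𝒲 : LongSegments 𝒲 k)
    (C : ℕ → Set ℝ) (hC : ∀ n, Lacunary (C n))
    (hcov : ∀ R : ℝ, {t : ℝ | t < T ∧
      MapClusterPt t (atTop ⊓ 𝓟 (DenW α β R 𝒲)) (fL α β)} ⊆ ⋃ n, C n) :
    ∀ ε : ℝ, 0 < ε → ∀ N : ℕ, ∃ q : ℕ, N ≤ q ∧ 0 < q ∧ fL α β q < ε := by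
  classical
  intro ε hε N
  by_contra hcon
  push Not at hcon
  obtain ⟨ν, hν0, hν⟩ := exists_nu hε hcon
  obtain ⟨Q, hQW, j, hj, hQ, hQdet, hQnu, h₁, hh₁, w, hwk, hw0, hw⟩ := window_pair hν0 hν h𝒲
  have hT' : ∀ h : Matrix (Fin 3) (Fin 3) ℝ, |h.det| = 1 →
      ∃ m : Fin 3 → ℤ, m ≠ 0 ∧ |FF h (iR m)| < T := by
    rcases hT with hT | hT
    · intro h hh
      refine mink_prod (by norm_num) 1 T one_pos ?_ h hh
      have h1 : ((Nat.factorial 3 : ℕ) : ℝ) = 6 := by norm_num [Nat.factorial]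
      rw [h1]
      push_cast
      linarith
    · exact hT
  obtain ⟨h₀, hh₀, hloc⟩ := baire_local hQ.closed hQ.ne
    (fun (m : Fin 3 → ℤ) h => |FF h (iR m)|) (fun m => (continuous_FF (iR m)).abs.continuousOn)
    (fun n => closure (C n)) (fun n => isClosed_closure)
  obtain ⟨r, hr, hrvec⟩ := exists_vec_gen (d := 3) (by norm_num) 1 ν T one_pos hν0 hT'
  obtain ⟨m, hmT, hmz, hmw⟩ := exists_vec_ne (c₀ := ν / r ^ (3 - 1)) (r := r) (by positivity)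
    (hrvec h₀ (hQdet h₀ hh₀) (hQnu h₀ hh₀)) hw0
  have hm : m ≠ 0 := by
    rintro rfl
    apply hmz 0
    have : iR (0 : Fin 3 → ℤ) = 0 := by funext l; simp [iR]
    rw [this, mulVec_zero]
    rfl
  obtain ⟨R, hR⟩ := exists_nat_gt (∑ l, |(h₀ *ᵥ iR m) l|)
  have hR' : ∀ l, |(h₀ *ᵥ iR m) l| < R := fun l =>
    (Finset.single_le_sum (f := fun l => |(h₀ *ᵥ iR m) l|) (fun _ _ => abs_nonneg _)
      (Finset.mem_univ l)).trans_lt hR
  have hmem := hcov R ⟨hmT, window_cluster hν0 (hQW hh₀) (hQnu h₀ hh₀) hm hR'⟩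
  obtain ⟨n, hn⟩ := hloc m (by
    obtain ⟨n, hn⟩ := Set.mem_iUnion.1 hmem
    exact Set.mem_iUnion.2 ⟨n, subset_closure hn⟩)
  obtain ⟨c, c', hc, hc', hsens⟩ := value_sens (k := k) w m hmz hmw
  exact lac_contra hj one_pos hν0 hQ hQdet hQnu hh₁ hwk hw hh₀
    (f := fun h => |FF h (iR m)|) (hC n).closure hn hc hc' hsens

/-- `q`, `‖qα‖` or `‖qβ‖` -/
noncomputable def dk (α β : ℝ) (k : Fin 3) (q : ℕ) : ℝ :=
  ![(q : ℝ), |(q : ℝ) * α - (round ((q : ℝ) * α) : ℝ)|,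
    |(q : ℝ) * β - (round ((q : ℝ) * β) : ℝ)|] k

/-- the limit points of the ratios -/
def LimRat (α β R : ℝ) (𝒲 : Set (ℝ × ℝ)) (k : Fin 3) : Set ℝ :=
  {t | ∀ N : ℕ, ∀ ε : ℝ, 0 < ε → ∃ p ∈ 𝒲, ∃ q ∈ Den α β R p, ∃ q' ∈ Den α β R p,
    N ≤ q ∧ N ≤ q' ∧ |dk α β k q / dk α β k q' - t| < ε}

lemma window_ratio {α β ν : ℝ} (hν0 : 0 < ν) {𝒲 : Set (ℝ × ℝ)} {k : Fin 3}
    {h : Matrix (Fin 3) (Fin 3) ℝ} (hh : h ∈ LimW α β 𝒲 k) (hnu : HasNu h ν) {R : ℝ}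
    (hR : ∀ i l, |h i l| < R) (l l' : Fin 3) :
    |h k l| / |h k l'| ∈ LimRat α β R 𝒲 k := by
  intro N ε hε
  have hne : |h k l'| ≠ 0 := by
    have := row_ne hν0 hnu (ue_ne l') k
    rw [mulVec_ue] at this
    exact abs_ne_zero.2 this
  have hcont : ContinuousAt (fun h' : Matrix (Fin 3) (Fin 3) ℝ => |h' k l| / |h' k l'|) h :=
    ((cont_entry k l).abs.continuousAt).div ((cont_entry k l').abs.continuousAt) hne
  have hU : {h' : Matrix (Fin 3) (Fin 3) ℝ | |(|h' k l| / |h' k l'|) - (|h k l| / |h k l'|)| < ε}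
      ∈ 𝓝 h := by
    have := hcont.eventually (Metric.ball_mem_nhds (|h k l| / |h k l'|) hε)
    filter_upwards [this] with h' hh'
    exact hh'
  obtain ⟨h', hh', p, hp, q, hq1, hq2, -, hq4⟩ := approx hν0 hh hnu N
    (fun b : Bool => if b then ue l else ue l') (fun b => by
      cases b
      · exact ue_ne l'
      · exact ue_ne l) (R := R) (fun b i => by
      cases b
      · simp only [Bool.false_eq_true, if_false, mulVec_ue]; exact hR i l'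
      · simp only [if_true, mulVec_ue]; exact hR i l) hU
  refine ⟨p, hp, q true, hq2 true, q false, hq2 false, hq1 true, hq1 false, ?_⟩
  have hkey : ∀ b : Bool, |(h' *ᵥ iR (if b then ue l else ue l')) k| = aw p k * dk α β k (q b) := by
    intro b
    obtain ⟨c0, c1, c2⟩ := hq4 b
    fin_cases k
    · exact c0
    · exact c1
    · exact c2
  have k1 := hkey true
  have k2 := hkey false
  simp only [if_true, Bool.false_eq_true, if_false, mulVec_ue] at k1 k2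
  have h3 : |(|h' k l| / |h' k l'|) - (|h k l| / |h k l'|)| < ε := hh'
  rw [k1, k2, mul_div_mul_left _ _ (aw_pos p k).ne'] at h3
  exact h3

/-- **Lacunary limit ratios along windows.** -/
theorem window_ratios_lac {α β : ℝ} {𝒲 : Set (ℝ × ℝ)} {k : Fin 3} (h𝒲 : LongSegments 𝒲 k)
    (C : ℕ → Set ℝ) (hC : ∀ n, Lacunary (C n))
    (hcov : ∀ R : ℝ, LimRat α β R 𝒲 k ⊆ ⋃ n, C n) :
    ∀ ε : ℝ, 0 < ε → ∀ N : ℕ, ∃ q : ℕ, N ≤ q ∧ 0 < q ∧ fL α β q < ε := by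
  classical
  intro ε hε N
  by_contra hcon
  push Not at hcon
  obtain ⟨ν, hν0, hν⟩ := exists_nu hε hcon
  obtain ⟨Q, hQW, j, hj, hQ, hQdet, hQnu, h₁, hh₁, w, hwk, hw0, hw⟩ := window_pair hν0 hν h𝒲
  have hne : ∀ h ∈ Q, ∀ i l, h i l ≠ 0 := by
    intro h hh i l
    have := row_ne hν0 (hQnu h hh) (ue_ne l) i
    rwa [mulVec_ue] at this
  obtain ⟨h₀, hh₀, hloc⟩ := baire_local hQ.closed hQ.ne
    (fun (p : Fin 3 × Fin 3) h => |h k p.1| / |h k p.2|)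
    (fun p => ((cont_entry k p.1).abs.continuousOn).div ((cont_entry k p.2).abs.continuousOn)
      fun h hh => abs_ne_zero.2 (hne h hh k p.2))
    (fun n => closure (C n)) (fun n => isClosed_closure)
  obtain ⟨l, l', hll⟩ : ∃ l l', (w ᵥ* h₀) l * h₀ k l' - (w ᵥ* h₀) l' * h₀ k l ≠ 0 := by
    by_contra hcon
    push Not at hcon
    have hdet0 : h₀.det ≠ 0 := by
      rw [← abs_ne_zero, hQdet h₀ hh₀]; exact one_ne_zero
    have hu : IsUnit h₀.det := isUnit_iff_ne_zero.2 hdet0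
    have h1 : w ᵥ* h₀ = ((w ᵥ* h₀) 0 / h₀ k 0) • ((Pi.single k 1 : Fin 3 → ℝ) ᵥ* h₀) := by
      rw [Matrix.single_one_vecMul]
      funext l
      rw [Pi.smul_apply, smul_eq_mul]
      have h2 := hcon l 0
      have h3 := hne h₀ hh₀ k 0
      rw [eq_comm, div_mul_eq_mul_div, div_eq_iff h3]
      show (w ᵥ* h₀) 0 * h₀ k l = (w ᵥ* h₀) l * h₀ k 0
      linarith
    have h2 := congrArg (fun v => v ᵥ* h₀⁻¹) h1
    simp only [Matrix.smul_vecMul, Matrix.vecMul_vecMul, Matrix.mul_nonsing_inv _ hu,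
      Matrix.vecMul_one] at h2
    have h3 : (w ᵥ* h₀) 0 / h₀ k 0 = 0 := by
      have h4 := congrFun h2 k
      rw [hwk, Pi.smul_apply, Pi.single_eq_same, smul_eq_mul, mul_one] at h4
      exact h4.symm
    rw [h3, zero_smul] at h2
    exact hw0 h2
  obtain ⟨R, hR⟩ := exists_nat_gt (∑ i, ∑ l, |h₀ i l|)
  have hR' : ∀ i l, |h₀ i l| < R := fun i l => by
    refine lt_of_le_of_lt ?_ hR
    exact (Finset.single_le_sum (f := fun l => |h₀ i l|) (fun _ _ => abs_nonneg _)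
      (Finset.mem_univ l)).trans (Finset.single_le_sum (f := fun i => ∑ l, |h₀ i l|)
        (fun _ _ => Finset.sum_nonneg fun _ _ => abs_nonneg _) (Finset.mem_univ i))
  have hmem := hcov R (window_ratio hν0 (hQW hh₀) (hQnu h₀ hh₀) hR' l l')
  obtain ⟨n, hn⟩ := hloc (l, l') (by
    obtain ⟨n, hn⟩ := Set.mem_iUnion.1 hmem
    exact Set.mem_iUnion.2 ⟨n, subset_closure hn⟩)
  obtain ⟨c, c', hc, hc', hsens⟩ := ratio_sens (k := k) (l := l) (l' := l') w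
    (hne h₀ hh₀ k l) (hne h₀ hh₀ k l') hll
  exact lac_contra hj one_pos hν0 hQ hQdet hQnu hh₁ hwk hw hh₀
    (f := fun h => |h k l| / |h k l'|) (hC n).closure hn hc hc' hsens

end Pool.Agent.X87.CSD
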