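import Mathlib
import Pool.Agent.X87.CSD.LwScales

/-! # Windows in cones -/

set_option autoImplicit false

open Filter Topology Matrix

namespace Pool.Agent.X87.CSD

open H715R2 Pool.Agent.Y327 Pool.Agent.W241.Lac

/-- the places near the ray of slope `s` -/
def Cone (s δ : ℝ) : Set (ℝ × ℝ) := {p | |p.1 - s * (p.1 + p.2)| < δ * (p.1 + p.2)}

/-- the places with large coordinates -/
def Deep (M : ℝ) : Set (ℝ × ℝ) := {p | M ≤ p.1 ∧ M ≤ p.2}

lemma cone_long {s δ : ℝ} (hs0 : 0 < s) (hs1 : s < 1) (hδ : 0 < δ) (k : Fin 3) (M₀ : ℝ) :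
    LongSegments (Cone s δ ∩ Deep M₀) k := by
  intro n
  have hs1' : 0 < 1 - s := by linarith
  have hn : (0 : ℝ) ≤ n := Nat.cast_nonneg n
  set A : ℝ := 3 * n + |M₀| with hA
  have hA0 : 0 ≤ A := by positivity
  set M : ℝ := (10 * n + 1) / δ + A / s + A / (1 - s) + 10 * n + 1 with hM
  have h1 : 0 ≤ (10 * (n : ℝ) + 1) / δ := by positivity
  have h2 : 0 ≤ A / s := by positivity
  have h3 : 0 ≤ A / (1 - s) := by positivity
  have g1 : A ≤ s * M := by
    have : A / s ≤ M := by rw [hM]; linarith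
    rw [div_le_iff₀ hs0] at this
    linarith
  have g2 : A ≤ (1 - s) * M := by
    have : A / (1 - s) ≤ M := by rw [hM]; linarith
    rw [div_le_iff₀ hs1'] at this
    linarith
  have g3 : 10 * (n : ℝ) + 1 + δ * (10 * n + 1) ≤ δ * M := by
    have : (10 * (n : ℝ) + 1) / δ + (10 * n + 1) ≤ M := by rw [hM]; linarith
    have h4 := mul_le_mul_of_nonneg_left this hδ.le
    rw [mul_add, mul_div_cancel₀ _ hδ.ne'] at h4
    exact h4
  obtain ⟨d1, d2⟩ := abs_dirw_le k
  have hM₀ := le_abs_self M₀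
  refine ⟨(s * M, (1 - s) * M), by simp only; linarith [abs_nonneg M₀],
    by simp only; linarith [abs_nonneg M₀], fun σ hσ => ?_⟩
  have e1 : |σ * (dirw k).1| ≤ 2 * n := by
    rw [abs_mul]
    nlinarith [abs_nonneg σ, abs_nonneg (dirw k).1]
  have e2 : |σ * (dirw k).2| ≤ 2 * n := by
    rw [abs_mul]
    nlinarith [abs_nonneg σ, abs_nonneg (dirw k).2]
  obtain ⟨e1l, e1u⟩ := abs_le.1 e1
  obtain ⟨e2l, e2u⟩ := abs_le.1 e2
  refine ⟨?_, ?_, ?_⟩
  · show |s * M + σ * (dirw k).1 - s * (s * M + σ * (dirw k).1 + ((1 - s) * M + σ * (dirw k).2))| <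
      δ * (s * M + σ * (dirw k).1 + ((1 - s) * M + σ * (dirw k).2))
    have h5 : s * M + σ * (dirw k).1 - s * (s * M + σ * (dirw k).1 +
        ((1 - s) * M + σ * (dirw k).2)) = (1 - s) * (σ * (dirw k).1) - s * (σ * (dirw k).2) := by
      ring
    have h6 : s * M + σ * (dirw k).1 + ((1 - s) * M + σ * (dirw k).2) =
        M + (σ * (dirw k).1 + σ * (dirw k).2) := by ring
    rw [h5, h6]
    have h7 : |(1 - s) * (σ * (dirw k).1) - s * (σ * (dirw k).2)| ≤ 4 * n := by
      refine (abs_sub _ _).trans ?_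
      rw [abs_mul, abs_mul (s : ℝ), abs_of_pos hs1', abs_of_pos hs0]
      nlinarith
    have h8 : δ * (M + (σ * (dirw k).1 + σ * (dirw k).2)) ≥ δ * (M - 4 * n) :=
      mul_le_mul_of_nonneg_left (by linarith) hδ.le
    nlinarith
  · show M₀ ≤ s * M + σ * (dirw k).1
    linarith
  · show M₀ ≤ (1 - s) * M + σ * (dirw k).2
    linarith

/-- the coordinates of the denominators which are small at a place, in a counterexample -/
lemma den_bounds {α β R ε : ℝ} (hR : 0 < R) (hε : 0 < ε) {p : ℝ × ℝ} {q : ℕ}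
    (hq : q ∈ Den α β R p) (hf : ε ≤ fL α β q) :
    ε / R ^ 2 * Real.exp (p.1 + p.2) ≤ q ∧
      ε / R ^ 2 * Real.exp (-p.1) ≤ |(q : ℝ) * α - (round ((q : ℝ) * α) : ℝ)| ∧
      ε / R ^ 2 * Real.exp (-p.2) ≤ |(q : ℝ) * β - (round ((q : ℝ) * β) : ℝ)| := by
  obtain ⟨h1, h2, h3⟩ := hq
  unfold fL at hf
  set x := |(q : ℝ) * α - (round ((q : ℝ) * α) : ℝ)| with hx
  set y := |(q : ℝ) * β - (round ((q : ℝ) * β) : ℝ)| with hy
  have hx0 : 0 ≤ x := abs_nonneg _
  have hy0 : 0 ≤ y := abs_nonneg _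
  have hq0 : (0 : ℝ) ≤ q := Nat.cast_nonneg q
  have key : ∀ (a b c A B E : ℝ), 0 ≤ a → 0 ≤ b → 0 ≤ c → 0 < A → 0 < B → 0 < E → b < R * A →
      c < R * B → ε ≤ a * b * c → A * B * E = 1 → ε / R ^ 2 * E ≤ a := by
    intro a b c A B E ha hb hc hA hB hE hbA hcB habc hABE
    have h4 : a * b * c ≤ a * ((R * A) * (R * B)) := by
      rw [mul_assoc]
      exact mul_le_mul_of_nonneg_left (mul_le_mul hbA.le hcB.le hc (by positivity)) ha
    have h5 : ε * E ≤ a * R ^ 2 := by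
      calc ε * E ≤ a * ((R * A) * (R * B)) * E := mul_le_mul_of_nonneg_right (habc.trans h4) hE.le
        _ = a * R ^ 2 * (A * B * E) := by ring
        _ = a * R ^ 2 := by rw [hABE, mul_one]
    rw [div_mul_eq_mul_div, div_le_iff₀ (by positivity)]
    exact h5
  have hexp : ∀ a b c : ℝ, a + b + c = 0 → Real.exp a * Real.exp b * Real.exp c = 1 := by
    intro a b c h
    rw [← Real.exp_add, ← Real.exp_add, h, Real.exp_zero]
  refine ⟨?_, ?_, ?_⟩
  · exact key q x y _ _ _ hq0 hx0 hy0 (Real.exp_pos (-p.1)) (Real.exp_pos (-p.2))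
      (Real.exp_pos _) h2 h3 hf (hexp _ _ _ (by ring))
  · exact key x q y _ _ _ hx0 hq0 hy0 (Real.exp_pos (p.1 + p.2)) (Real.exp_pos (-p.2))
      (Real.exp_pos _) h1 h3 (by linarith [show (q : ℝ) * x * y = x * q * y by ring])
      (hexp _ _ _ (by ring))
  · exact key y q x _ _ _ hy0 hq0 hx0 (Real.exp_pos (p.1 + p.2)) (Real.exp_pos (-p.1))
      (Real.exp_pos _) h1 h2 (by linarith [show (q : ℝ) * x * y = y * q * x by ring])
      (hexp _ _ _ (by ring))

/-- the denominators with `‖qα‖` between `q ^ (-s-δ)` and `q ^ (-s+δ)` -/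
def Near (α s δ : ℝ) : Set ℕ :=
  {q | (q : ℝ) ^ (-s - δ) < |(q : ℝ) * α - (round ((q : ℝ) * α) : ℝ)| ∧
    |(q : ℝ) * α - (round ((q : ℝ) * α) : ℝ)| < (q : ℝ) ^ (-s + δ)}

/-- In a counterexample the denominators which are small at a place of a narrow cone have exponent
near the slope of the cone. -/
lemma den_near {α β s δ R ε : ℝ} (hs0 : 0 < s) (hs1 : s < 1) (hδ : 0 < δ) (hR : 0 < R)
    (hε : 0 < ε) : ∃ M₀ : ℝ, ∀ p ∈ Cone s (δ / 2) ∩ Deep M₀, ∀ q ∈ Den α β R p,
      ε ≤ fL α β q → q ∈ Near α s δ := by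
  -- the constant
  set L : ℝ := |Real.log R| + |Real.log (ε / R ^ 2)| + 1 with hL
  have hL0 : 0 < L := by positivity
  refine ⟨(L * (s + δ + 2) / (δ / 2) + L + 1), ?_⟩
  rintro p ⟨hp1, hp2, hp3⟩ q hq hf
  obtain ⟨b1, b2, -⟩ := den_bounds hR hε hq hf
  obtain ⟨h1, h2, -⟩ := hq
  have hc : 0 < ε / R ^ 2 := by positivity
  have hq0 : (0 : ℝ) < q := (mul_pos hc (Real.exp_pos _)).trans_le b1
  set x := |(q : ℝ) * α - (round ((q : ℝ) * α) : ℝ)| with hx
  have hx0 : 0 < x := (mul_pos hc (Real.exp_pos _)).trans_le b2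
  set S := p.1 + p.2 with hS
  -- logarithms
  have l1 : Real.log q ≤ S + L := by
    have h3 := Real.log_le_log hq0 h1.le
    rw [Real.log_mul hR.ne' (Real.exp_pos _).ne', Real.log_exp] at h3
    linarith [le_abs_self (Real.log R), abs_nonneg (Real.log (ε / R ^ 2))]
  have l2 : S - L ≤ Real.log q := by
    have h3 := Real.log_le_log (mul_pos hc (Real.exp_pos _)) b1
    rw [Real.log_mul hc.ne' (Real.exp_pos _).ne', Real.log_exp] at h3
    linarith [neg_abs_le (Real.log (ε / R ^ 2)), abs_nonneg (Real.log R)]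
  have l3 : Real.log x ≤ -p.1 + L := by
    have h3 := Real.log_le_log hx0 h2.le
    rw [Real.log_mul hR.ne' (Real.exp_pos _).ne', Real.log_exp] at h3
    linarith [le_abs_self (Real.log R), abs_nonneg (Real.log (ε / R ^ 2))]
  have l4 : -p.1 - L ≤ Real.log x := by
    have h3 := Real.log_le_log (mul_pos hc (Real.exp_pos _)) b2
    rw [Real.log_mul hc.ne' (Real.exp_pos _).ne', Real.log_exp] at h3
    linarith [neg_abs_le (Real.log (ε / R ^ 2)), abs_nonneg (Real.log R)]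
  have hcone : |p.1 - s * S| < δ / 2 * S := hp1
  obtain ⟨c1, c2⟩ := abs_lt.1 hcone
  have hbig : L * (s + δ + 2) < δ / 2 * S := by
    have h3 : L * (s + δ + 2) / (δ / 2) < S := by
      have h4 : 0 ≤ L * (s + δ + 2) / (δ / 2) := by positivity
      rw [hS]
      linarith
    rw [div_lt_iff₀ (by positivity)] at h3
    linarith
  have hbigR : L * (s + δ + 2) + L < δ / 2 * S + L := by linarith
  constructor
  · show (q : ℝ) ^ (-s - δ) < x
    rw [← Real.log_lt_log_iff (Real.rpow_pos_of_pos hq0 _) hx0, Real.log_rpow hq0]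
    have h3 : (-s - δ) * Real.log q ≤ (-s - δ) * (S - L) := by
      nlinarith
    nlinarith
  · show x < (q : ℝ) ^ (-s + δ)
    rw [← Real.log_lt_log_iff hx0 (Real.rpow_pos_of_pos hq0 _), Real.log_rpow hq0]
    have h3 : -s * Real.log q ≥ -s * (S + L) := by nlinarith
    have h4 : δ * Real.log q ≥ δ * (S - L) := by nlinarith
    nlinarith

end Pool.Agent.X87.CSD
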