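import Mathlib
import Pool.Agent.X87.CSD.LwCone

/-! # Sparse windows in a cone -/

set_option autoImplicit false

open Filter Topology Matrix

namespace Pool.Agent.X87.CSD

open H715R2 Pool.Agent.Y327 Pool.Agent.W241.Lac

/-- windows in a cone such that large denominators are at deep places only -/
lemma cone_windows {s δ : ℝ} (hs0 : 0 < s) (hs1 : s < 1) (hδ : 0 < δ) (k : Fin 3) (M₀ : ℕ → ℝ) :
    ∃ W : Set (ℝ × ℝ), LongSegments W k ∧ ∀ (m : ℕ) (α β R : ℝ), ∃ B : ℕ, ∀ z ∈ W,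
      ∀ q ∈ Den α β R z, B < q → z ∈ Cone s δ ∩ Deep (M₀ m) := by
  have hB : ∀ n : ℕ, ∃ p, Seg (Cone s δ ∩ Deep (∑ i ∈ Finset.range (n + 1), |M₀ i|)) k n p :=
    fun n => cone_long hs0 hs1 hδ k _ n
  choose p hp using hB
  refine ⟨{z | ∃ n : ℕ, ∃ σ : ℝ, |σ| ≤ n ∧
      z = ((p n).1 + σ * (dirw k).1, (p n).2 + σ * (dirw k).2)},
    fun n => ⟨p n, (hp n).1, (hp n).2.1, fun σ hσ => ⟨n, σ, hσ, rfl⟩⟩, fun m α β R => ?_⟩
  have hfin : ∀ n : ℕ, ∃ B : ℕ, ∀ σ : ℝ, |σ| ≤ n → ∀ q : ℕ,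
      (q : ℝ) < R * Real.exp ((p n).1 + σ * (dirw k).1 +
        ((p n).2 + σ * (dirw k).2)) → q ≤ B := by
    intro n
    obtain ⟨B, hB⟩ := exists_nat_ge (|R| * Real.exp ((p n).1 + (p n).2 + 4 * n))
    refine ⟨B, fun σ hσ q hq => ?_⟩
    have h3 : (q : ℝ) ≤ B := by
      refine hq.le.trans (le_trans ?_ hB)
      obtain ⟨d1, d2⟩ := abs_dirw_le k
      have e1 : σ * (dirw k).1 ≤ 2 * n := by
        refine (le_abs_self _).trans ?_
        rw [abs_mul]
        nlinarith [abs_nonneg σ, abs_nonneg (dirw k).1]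
      have e2 : σ * (dirw k).2 ≤ 2 * n := by
        refine (le_abs_self _).trans ?_
        rw [abs_mul]
        nlinarith [abs_nonneg σ, abs_nonneg (dirw k).2]
      have h4 : (p n).1 + σ * (dirw k).1 + ((p n).2 + σ * (dirw k).2) ≤
          (p n).1 + (p n).2 + 4 * n := by
        linarith
      exact mul_le_mul (le_abs_self R) (Real.exp_le_exp.2 h4) (Real.exp_pos _).le (abs_nonneg R)
    exact_mod_cast h3
  choose B hB using hfin
  refine ⟨∑ i ∈ Finset.range (m + 1), B i, ?_⟩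
  rintro z ⟨n, σ, hσ, rfl⟩ q hzq hq1
  have hnm : m < n := by
    by_contra hcon
    have h4 : n ∈ Finset.range (m + 1) := Finset.mem_range.2 (by omega)
    have h5 : B n ≤ ∑ i ∈ Finset.range (m + 1), B i :=
      Finset.single_le_sum (f := B) (fun _ _ => Nat.zero_le _) h4
    have h6 := hB n σ hσ q hzq.1
    omega
  have hz := (hp n).2.2 σ hσ
  refine ⟨hz.1, ?_⟩
  have h4 : m ∈ Finset.range (n + 1) := Finset.mem_range.2 (by omega)
  have h5 : |M₀ m| ≤ ∑ i ∈ Finset.range (n + 1), |M₀ i| :=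
    Finset.single_le_sum (f := fun i : ℕ => |M₀ i|) (fun _ _ => abs_nonneg _) h4
  have h6 := (le_abs_self (M₀ m)).trans h5
  exact ⟨h6.trans hz.2.1, h6.trans hz.2.2⟩

/-- In a counterexample there are windows in a cone at which all large denominators have exponent
near the slope of the cone. -/
lemma near_windows {α β s δ ε : ℝ} {N : ℕ} (hs0 : 0 < s) (hs1 : s < 1) (hδ : 0 < δ) (hε : 0 < ε)
    (hN : ∀ q : ℕ, N ≤ q → 0 < q → ε ≤ fL α β q) (k : Fin 3) :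
    ∃ W : Set (ℝ × ℝ), LongSegments W k ∧ ∀ R : ℝ, ∃ B : ℕ, ∀ z ∈ W, ∀ q ∈ Den α β R z, B < q →
      q ∈ Near α s δ := by
  have hM : ∀ R : ℝ, ∃ M₀ : ℝ, ∀ p ∈ Cone s (δ / 2) ∩ Deep M₀,
      ∀ q ∈ Den α β R p, ε ≤ fL α β q → q ∈ Near α s δ := by
    intro R
    by_cases hR : 0 < R
    · exact den_near hs0 hs1 hδ hR hε
    · refine ⟨0, fun p _ q hq _ => ?_⟩
      exact absurd ((abs_nonneg _).trans_lt hq.2.1)
        (not_lt.2 (mul_nonpos_of_nonpos_of_nonneg (not_lt.1 hR) (Real.exp_pos _).le))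
  choose M₀ hM₀ using hM
  obtain ⟨W, hW, hWB⟩ := cone_windows hs0 hs1 (δ := δ / 2) (by positivity) k (fun n => M₀ n)
  refine ⟨W, hW, fun R => ?_⟩
  obtain ⟨m, hm⟩ := exists_nat_ge R
  obtain ⟨B, hB⟩ := hWB m α β R
  refine ⟨max B N, fun z hz q hzq hq => ?_⟩
  have h1 : B < q := (le_max_left _ _).trans_lt hq
  have h2 : N < q := (le_max_right _ _).trans_lt hq
  refine hM₀ m z (hB z hz q hzq h1) q ?_ (hN q h2.le (by omega))
  obtain ⟨h4, h5, h6⟩ := hzq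
  exact ⟨h4.trans_le (mul_le_mul_of_nonneg_right hm (Real.exp_pos _).le),
    h5.trans_le (mul_le_mul_of_nonneg_right hm (Real.exp_pos _).le),
    h6.trans_le (mul_le_mul_of_nonneg_right hm (Real.exp_pos _).le)⟩

/-- the denominators at a common place are comparable, in a counterexample -/
lemma dk_compare {α β R ε : ℝ} (hR : 0 < R) (hε : 0 < ε) {p : ℝ × ℝ} {q q' : ℕ}
    (hq : q ∈ Den α β R p) (hq' : q' ∈ Den α β R p) (hf : ε ≤ fL α β q') (l : Fin 3) :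
    dk α β l q < R ^ 3 / ε * dk α β l q' := by
  obtain ⟨b0, b1, b2⟩ := den_bounds hR hε hq' hf
  obtain ⟨c0, c1, c2⟩ := hq
  have key : ∀ x y E : ℝ, 0 < E → x < R * E → ε / R ^ 2 * E ≤ y → x < R ^ 3 / ε * y := by
    intro x y E hE hx hy
    have h1 : R ^ 3 / ε * (ε / R ^ 2 * E) ≤ R ^ 3 / ε * y :=
      mul_le_mul_of_nonneg_left hy (by positivity)
    have h2 : R ^ 3 / ε * (ε / R ^ 2 * E) = R * E := by field_simp
    linarith
  fin_cases l
  · exact key _ _ _ (Real.exp_pos _) c0 b0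
  · exact key _ _ _ (Real.exp_pos _) c1 b1
  · exact key _ _ _ (Real.exp_pos _) c2 b2

end Pool.Agent.X87.CSD
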