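import Mathlib
import Pool.Agent.X87.CSD.Line
import Pool.Agent.Y327.ManyEx
import Pool.Agent.Y327.Unique

/-! # Products with common factors -/

set_option autoImplicit false

open Filter Topology Matrix

namespace Pool.Agent.X87.CSD

open H715R2 Pool.Agent.Y327

variable {d : ℕ}

lemma propInt_diag_ne {a : Fin d → ℝ} (ha : ∏ i, a i ≠ 0) {h : Matrix (Fin d) (Fin d) ℝ}
    (hP : PropInt h) : PropInt (diagonal a * h) := by
  obtain ⟨c, hc, hz⟩ := hP
  refine ⟨c / ∏ i, a i, div_ne_zero hc ha, fun m => ?_⟩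
  rw [polyF_diag, smul_smul, div_mul_cancel₀ _ ha]
  exact hz m

/-- an integral form has an integer stabiliser with distinct eigenvalues -/
theorem exists_stab (hd : 3 ≤ d) {g : Matrix (Fin d) (Fin d) ℝ} (hg : g.det ≠ 0) {ν : ℝ}
    (hν : 0 < ν) (hnu : HasNu g ν) (hP : PropInt g) :
    ∃ (δ : Matrix (Fin d) (Fin d) ℤ) (c : Fin d → ℝ), Function.Injective c ∧
      g * zR δ = diagonal c * g := by
  have hd0 : 0 < d := by omega
  obtain ⟨M, hMg, hMc, hMne, hMinv, hMmin⟩ := exists_minimal hd0 hν hg hnu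
  obtain ⟨h₀, hh₀⟩ := hMne
  have hV : 0 < |g.det| := abs_pos.2 hg
  have hgN : g ∈ NN d |g.det| ν := ⟨rfl, hnu⟩
  have hMN : M ⊆ NN d |g.det| ν := hMg.trans (NN_orb hgN)
  have hP₀ : PropInt h₀ := propInt_closure hd hg hν hnu hP (hMg hh₀)
  have hiso := isolated hd hV hν (hMN hh₀) hP₀
  have hloc : ∀ᶠ h in 𝓝[M] h₀, ∃ a : Fin d → ℝ, (∀ i, 0 < a i) ∧ ∏ i, a i = 1 ∧
      h = diagonal a * h₀ := hiso.filter_mono (nhdsWithin_mono _ hMN)
  obtain ⟨δ, c, hc, hδ⟩ := exists_stabilizer (by omega) hν hg hnu hMg hMc hMinv hh₀ hloc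
    (single_orbit hMc hMinv hMmin hh₀ hloc)
  -- `g` is in the orbit of `h₀`
  obtain ⟨u, hu, hulim⟩ := exists_seq_of_mem_closure (hMg hh₀)
  have huN : ∀ n, u n ∈ NN d |g.det| ν := fun n => NN_orb hgN (subset_closure (hu n))
  have hulim' : Tendsto u atTop (𝓝[NN d |g.det| ν] h₀) :=
    tendsto_nhdsWithin_iff.2 ⟨hulim, Eventually.of_forall huN⟩
  obtain ⟨n, a, ha0, -, hn⟩ := (hulim'.eventually hiso).exists
  obtain ⟨a', γ, ha'0, -, hγ, hn'⟩ := hu n
  have hinv : (diagonal (fun i => (a' i)⁻¹) : Matrix (Fin d) (Fin d) ℝ) * diagonal a' = 1 := by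
    rw [diagonal_mul_diagonal]
    have : (fun i => (a' i)⁻¹ * a' i) = fun _ => (1 : ℝ) := by
      funext i
      exact inv_mul_cancel₀ (ha'0 i).ne'
    rw [this, diagonal_one]
  have hgh : g = diagonal (fun i => (a' i)⁻¹ * a i) * h₀ * zR γ⁻¹ := by
    have h1 : diagonal a' * g * zR γ = diagonal a * h₀ := by rw [← hn', hn]
    calc g = 1 * g * 1 := by rw [Matrix.one_mul, Matrix.mul_one]
      _ = (diagonal (fun i => (a' i)⁻¹) * diagonal a') * g * (zR γ * zR γ⁻¹) := by
        rw [hinv, zR_inv hγ]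
      _ = diagonal (fun i => (a' i)⁻¹) * (diagonal a' * g * zR γ) * zR γ⁻¹ := by
        simp only [Matrix.mul_assoc]
      _ = _ := by rw [h1, ← Matrix.mul_assoc, diagonal_mul_diagonal]
  refine ⟨γ * δ * γ⁻¹, c, hc, ?_⟩
  have hD : ∀ b : Fin d → ℝ, (diagonal b * diagonal c : Matrix (Fin d) (Fin d) ℝ)
      = diagonal c * diagonal b := fun b => by
    rw [diagonal_mul_diagonal, diagonal_mul_diagonal]
    congr 1
    funext i
    ring
  calc g * zR (γ * δ * γ⁻¹)
      = diagonal (fun i => (a' i)⁻¹ * a i) * h₀ * (zR γ⁻¹ * zR γ) * zR δ * zR γ⁻¹ := by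
        rw [zR_mul, zR_mul]
        conv_lhs => rw [hgh]
        simp only [Matrix.mul_assoc]
    _ = diagonal (fun i => (a' i)⁻¹ * a i) * (h₀ * zR δ) * zR γ⁻¹ := by
        rw [zR_inv' hγ]
        simp only [Matrix.mul_assoc, Matrix.mul_one]
    _ = diagonal c * (diagonal (fun i => (a' i)⁻¹ * a i) * h₀ * zR γ⁻¹) := by
        rw [hδ, ← Matrix.mul_assoc, hD]
        simp only [Matrix.mul_assoc]
    _ = diagonal c * g := by rw [← hgh]

/-- **One common factor.** -/
theorem common_factor (hd : 3 ≤ d) {g g' : Matrix (Fin d) (Fin d) ℝ} (hg : g.det ≠ 0)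
    (hg' : g'.det ≠ 0) {ν : ℝ} (hν : 0 < ν) (hnu : HasNu g ν) (hnu' : HasNu g' ν)
    (hP : PropInt g) {i j : Fin d} {s : ℝ} (hs : s ≠ 0) (hrow : g' j = s • g i) : PropInt g' := by
  have hd0 : 0 < d := by omega
  obtain ⟨δ, c, hc, hδ⟩ := exists_stab hd hg hν hnu hP
  obtain ⟨K, hfin, hK, r, hr, hmem⟩ := exists_alg_row hg δ c hc hδ i
  have hmem' : ∀ l, r / s * g' j l ∈ K := by
    intro l
    have h1 : r / s * g' j l = r * g i l := by
      rw [hrow, Pi.smul_apply, smul_eq_mul]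
      field_simp
    rw [h1]
    exact hmem l
  rcases limit_alg hd hg' (subset_closure (mem_orb_self g')) j (r / s) (div_ne_zero hr hs) K hK
    hmem' with ⟨x, hx, hx0⟩ | hP' | hdense
  · exfalso
    have h1 := hnu' x hx
    have h2 : FF g' (iR x) = 0 := by
      rw [FF]
      exact Finset.prod_eq_zero (Finset.mem_univ j) hx0
    rw [h2, abs_zero] at h1
    exact absurd h1 (not_le.2 hν)
  · exact hP'
  · exfalso
    obtain ⟨x, hx, hx2⟩ := dense_ne hd0 hdense 0 ν hν
    rw [sub_zero] at hx2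
    exact absurd (hnu' x hx) (not_le.2 hx2)

/-- two matrices which agree up to one row -/
lemma exists_Md {g g' : Matrix (Fin d) (Fin d) ℝ} (hg : g.det ≠ 0) (hg' : g'.det ≠ 0) {k : Fin d}
    (hrows : ∀ j, j ≠ k → g' j = g j) : ∃ (c : ℝ) (w : Fin d → ℝ), c ≠ 0 ∧ w k = 0 ∧
      g' k = c • (g k + w ᵥ* g) ∧
      g' = diagonal (Function.update 1 k c) * (Md {k} (fun _ => w) * g) := by
  classical
  have hu : IsUnit g.det := isUnit_iff_ne_zero.2 hg
  set N : Matrix (Fin d) (Fin d) ℝ := g' * g⁻¹ with hN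
  have hNg : N * g = g' := by rw [hN, Matrix.mul_assoc, Matrix.nonsing_inv_mul _ hu, Matrix.mul_one]
  have hNj : ∀ j, j ≠ k → N j = (1 : Matrix (Fin d) (Fin d) ℝ) j := by
    intro j hj
    have h1 : N j = g' j ᵥ* g⁻¹ := by
      funext l; rw [hN, Matrix.mul_apply]; rfl
    rw [h1, hrows j hj]
    have h2 : g j ᵥ* g⁻¹ = (g * g⁻¹) j := by
      funext l; rw [Matrix.mul_apply]; rfl
    rw [h2, Matrix.mul_nonsing_inv _ hu]
  have hc : N k k ≠ 0 := by
    intro h0
    apply hg'
    rw [← hNg, det_mul, Matrix.det_eq_zero_of_column_eq_zero k, zero_mul]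
    intro i
    by_cases hi : i = k
    · rw [hi]; exact h0
    · rw [hNj i hi, Matrix.one_apply_ne hi]
  set w : Fin d → ℝ := fun l => if l = k then 0 else N k l / N k k with hw
  have hwk : w k = 0 := by simp [hw]
  have hNk : N k = N k k • ((Pi.single k 1 : Fin d → ℝ) + w) := by
    funext l
    rw [Pi.smul_apply, Pi.add_apply, smul_eq_mul]
    by_cases hl : l = k
    · subst hl
      rw [hwk, Pi.single_eq_same, add_zero, mul_one]
    · simp only [hw]
      rw [if_neg hl, Pi.single_eq_of_ne hl, zero_add, mul_div_cancel₀ _ hc]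
  have hrowk : g' k = N k k • (g k + w ᵥ* g) := by
    have h1 : g' k = N k ᵥ* g := by
      rw [← hNg]
      funext l; rw [Matrix.mul_apply]; rfl
    rw [h1]
    conv_lhs => rw [hNk]
    rw [Matrix.smul_vecMul, Matrix.add_vecMul, Matrix.single_one_vecMul]
    rfl
  refine ⟨N k k, w, hc, hwk, hrowk, ?_⟩
  funext j
  by_cases hj : j = k
  · subst hj
    rw [hrowk]
    funext l
    rw [diagonal_mul, Function.update_self, Pi.smul_apply, smul_eq_mul]
    congr 1
    have := congrFun (Md_row (k := j) w g) l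
    rw [this]
  · funext l
    rw [diagonal_mul, Function.update_of_ne hj, Pi.one_apply, one_mul, hrows j hj,
      Md_row_ne w g hj]

lemma prod_update (k : Fin d) (c : ℝ) : ∏ i, (Function.update (1 : Fin d → ℝ) k c) i = c := by
  classical
  rw [← Finset.mul_prod_erase _ _ (Finset.mem_univ k), Function.update_self,
    Finset.prod_eq_one, mul_one]
  intro i hi
  rw [Function.update_of_ne (Finset.ne_of_mem_erase hi)]
  rfl

/-- **The last factor of an integral form is determined.** -/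
theorem last_factor (hd : 3 ≤ d) {g g' : Matrix (Fin d) (Fin d) ℝ} (hg : g.det ≠ 0)
    (hg' : g'.det ≠ 0) {ν : ℝ} (hν : 0 < ν) (hnu : HasNu g ν) (hnu' : HasNu g' ν)
    (hP : PropInt g) {k : Fin d} (hrows : ∀ j, j ≠ k → g' j = g j) : ∃ c : ℝ, g' k = c • g k := by
  classical
  obtain ⟨j, hj⟩ : ∃ j : Fin d, j ≠ k := by
    by_contra hcon
    push Not at hcon
    have h1 : Fintype.card (Fin d) ≤ 1 := Fintype.card_le_one_iff.2 fun a b => by
      rw [hcon a, hcon b]
    rw [Fintype.card_fin] at h1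
    omega
  have hP' : PropInt g' := common_factor hd hg hg' hν hnu hnu' hP one_ne_zero (i := j) (j := j)
    (by rw [one_smul]; exact hrows j hj)
  obtain ⟨c, w, hc, hwk, hk, he⟩ := exists_Md hg hg' hrows
  set g'' := Md {k} (fun _ => w) * g with hg''
  have hFF : ∀ x, FF g' x = c * FF g'' x := by
    intro x
    rw [he, FF_diag_mul, prod_update]
  have hnu'' : HasNu g'' (ν / |c|) := by
    intro m hm
    have h1 := hnu' m hm
    rw [hFF, abs_mul] at h1
    rw [div_le_iff₀ (abs_pos.2 hc), mul_comm]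
    exact h1
  have hP'' : PropInt g'' := by
    have h1 : g'' = diagonal (Function.update 1 k c⁻¹) * g' := by
      rw [he, ← Matrix.mul_assoc, diagonal_mul_diagonal]
      have h2 : (fun i => Function.update (1 : Fin d → ℝ) k c⁻¹ i *
          Function.update (1 : Fin d → ℝ) k c i) = fun _ => (1 : ℝ) := by
        funext i
        by_cases hi : i = k
        · subst hi
          rw [Function.update_self, Function.update_self, inv_mul_cancel₀ hc]
        · rw [Function.update_of_ne hi, Function.update_of_ne hi]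
          simp
      rw [h2, diagonal_one, Matrix.one_mul]
    rw [h1]
    exact propInt_diag_ne (by rw [prod_update]; exact inv_ne_zero hc) hP'
  set ν₁ := min ν (ν / |c|) with hν₁
  have hν₁0 : 0 < ν₁ := lt_min hν (div_pos hν (abs_pos.2 hc))
  have hw := unique_factor (by omega) hg hν₁0 (fun m hm => (min_le_left _ _).trans (hnu m hm)) hP
    hwk (fun m hm => (min_le_right _ _).trans (hnu'' m hm)) hP''
  refine ⟨c, ?_⟩
  rw [hk, hw, Matrix.zero_vecMul, add_zero]

/-- **Two forms in the limit set along a line which differ in one factor.** -/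
theorem line_pair (hd : 3 ≤ d) {g : Matrix (Fin d) (Fin d) ℝ} (hg : g.det ≠ 0) {ν : ℝ}
    (hν : 0 < ν) (hnu : HasNu g ν) (hint : ¬ PropInt g) (k : Fin d) {𝒯 : Set ℝ}
    (h𝒯 : LongIntervals 𝒯) : ∃ h ∈ LimSet g k 𝒯, ∃ h' ∈ LimSet g k 𝒯,
      (∀ j, j ≠ k → h' j = h j) ∧ ∀ c : ℝ, h' k ≠ c • h k := by
  classical
  have hd0 : 0 < d := by omega
  obtain ⟨j, hj⟩ : ∃ j : Fin d, j ≠ k := by
    by_contra hcon
    push Not at hcon
    have h1 : Fintype.card (Fin d) ≤ 1 := Fintype.card_le_one_iff.2 fun a b => by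
      rw [hcon a, hcon b]
    rw [Fintype.card_fin] at h1
    omega
  have hsub := LimSet_sub g k 𝒯
  obtain ⟨Q, hQY, hQ⟩ := exists_minB hd0 (pk k j) (abs_pos.2 hg) hν (LimSet_closed g k 𝒯)
    (LimSet_nonempty hd0 hg hν hnu k h𝒯) (LimSet_inv hj 𝒯)
    (fun h hh => abs_det_closure (hsub hh)) (fun h hh => hasNu_closure hnu (hsub hh))
  obtain ⟨h₀, hh₀⟩ := hQ.ne
  obtain ⟨h, hh, w, hwk, hw0, hw⟩ := row_pair hd0 (abs_pos.2 hg) hν
    (fun h hh => abs_det_closure (hsub (hQY hh))) (fun h hh => hasNu_closure hnu (hsub (hQY hh)))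
    hQ.closed hQ.inv hh₀ (pk_single hj)
    (frequently_row hd hg hν hnu hint (hQY.trans hsub) hQ hh₀ (k := k) (pk_single hj))
  have hdet : h.det ≠ 0 := by
    rw [← abs_ne_zero, abs_det_closure (hsub (hQY hh)), abs_ne_zero]; exact hg
  have hu : IsUnit h.det := isUnit_iff_ne_zero.2 hdet
  refine ⟨h, hQY hh, _, hQY hw, fun j hj => Md_row_ne w h hj, fun c hc => ?_⟩
  rw [Md_row] at hc
  have h1 : ((Pi.single k 1 : Fin d → ℝ) + w) ᵥ* h = (c • (Pi.single k 1 : Fin d → ℝ)) ᵥ* h := by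
    rw [Matrix.add_vecMul, Matrix.single_one_vecMul, Matrix.smul_vecMul, Matrix.single_one_vecMul]
    exact hc
  have h2 := congrArg (fun v => v ᵥ* h⁻¹) h1
  simp only [Matrix.vecMul_vecMul, Matrix.mul_nonsing_inv _ hu, Matrix.vecMul_one] at h2
  apply hw0
  funext l
  have h3 := congrFun h2 l
  rw [Pi.add_apply, Pi.smul_apply, smul_eq_mul] at h3
  by_cases hl : l = k
  · rw [hl, hwk]; rfl
  · rw [Pi.single_eq_of_ne hl, zero_add, mul_zero] at h3
    exact h3

lemma FF_submatrix (h : Matrix (Fin d) (Fin d) ℝ) (σ : Equiv.Perm (Fin d)) (x : Fin d → ℝ) :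
    FF (h.submatrix σ id) x = FF h x := by
  unfold FF
  exact Equiv.prod_comp σ (fun i => ∑ j, h i j * x j)

/-- **Two forms which differ by adding one factor to another one.** -/
theorem add_pair (hd : 3 ≤ d) {g : Matrix (Fin d) (Fin d) ℝ} (hg : g.det ≠ 0) {ν : ℝ}
    (hν : 0 < ν) (hnu : HasNu g ν) (hint : ¬ PropInt g) {i j : Fin d} (hij : i ≠ j) :
    ∃ (g₁ : Matrix (Fin d) (Fin d) ℝ) (ν₁ : ℝ), g₁.det ≠ 0 ∧ 0 < ν₁ ∧ HasNu g₁ ν₁ ∧
      HasNu (g₁.updateRow i (g₁ i + g₁ j)) ν₁ := by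
  classical
  have hd0 : 0 < d := by omega
  obtain ⟨M, hMg, hM⟩ := exists_min_closure hd0 hg hν hnu
  obtain ⟨j', hj', s, hs, h, hh, hh'⟩ := root_pair hd hg hν hnu hint hMg hM i
  have hdet : h.det ≠ 0 := by
    rw [← abs_ne_zero, abs_det_closure (hMg hh), abs_ne_zero]; exact hg
  have hn1 : HasNu h ν := hasNu_closure hnu (hMg hh)
  have hn2 := hasNu_closure hnu (hMg hh')
  set h' := Md {i} (fun _ l => if l = j' then s else 0) * h with hh'def
  set σ : Equiv.Perm (Fin d) := Equiv.swap j j' with hσ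
  set c : Fin d → ℝ := Function.update 1 j s with hc
  set g₁ : Matrix (Fin d) (Fin d) ℝ := diagonal c * h.submatrix σ id with hg₁
  have hσi : σ i = i := Equiv.swap_apply_of_ne_of_ne hij hj'.symm
  have hσj : σ j = j' := Equiv.swap_apply_left j j'
  have hci : c i = 1 := by rw [hc, Function.update_of_ne hij]; rfl
  have hcj : c j = s := by rw [hc, Function.update_self]
  have hF1 : ∀ x, FF g₁ x = s * FF h x := fun x => by
    rw [hg₁, FF_diag_mul, FF_submatrix, hc, prod_update]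
  have hadd : g₁.updateRow i (g₁ i + g₁ j) = diagonal c * h'.submatrix σ id := by
    funext k
    by_cases hk : k = i
    · subst hk
      rw [Matrix.updateRow_self]
      funext l
      rw [Pi.add_apply, hg₁, diagonal_mul, diagonal_mul, diagonal_mul, hci, hcj,
        Matrix.submatrix_apply, Matrix.submatrix_apply, Matrix.submatrix_apply, hσi, hσj, id,
        one_mul, one_mul]
      have h1 : h' k = h k + s • h j' := by
        rw [hh'def]
        have h2 := Md_row (k := k) (fun l => if l = j' then s else 0) h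
        rw [h2]
        congr 1
        funext b
        simp [Matrix.vecMul, dotProduct]
      rw [h1, Pi.add_apply, Pi.smul_apply, smul_eq_mul]
    · rw [Matrix.updateRow_ne hk]
      funext l
      rw [hg₁, diagonal_mul, diagonal_mul, Matrix.submatrix_apply, Matrix.submatrix_apply, id]
      have h1 : σ k ≠ i := by
        intro h2
        apply hk
        rw [← hσi] at h2
        exact σ.injective h2
      have h3 : h' (σ k) = h (σ k) := Md_row_ne _ h h1
      rw [h3]
  have hF2 : ∀ x, FF (g₁.updateRow i (g₁ i + g₁ j)) x = s * FF h' x := fun x => by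
    rw [hadd, FF_diag_mul, FF_submatrix, hc, prod_update]
  refine ⟨g₁, |s| * ν, ?_, by positivity, fun m hm => ?_, fun m hm => ?_⟩
  · rw [hg₁, det_mul, det_diagonal, hc, prod_update]
    refine mul_ne_zero hs ?_
    have h1 : (h.submatrix σ id).det = Equiv.Perm.sign σ * h.det := det_permute σ h
    rw [h1]
    refine mul_ne_zero ?_ hdet
    rcases Int.units_eq_one_or (Equiv.Perm.sign σ) with h2 | h2 <;> rw [h2] <;> simp
  · rw [hF1, abs_mul]
    exact mul_le_mul_of_nonneg_left (hn1 m hm) (abs_nonneg s)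
  · rw [hF2, abs_mul]
    exact mul_le_mul_of_nonneg_left (hn2 m hm) (abs_nonneg s)

end Pool.Agent.X87.CSD
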