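import Mathlib
import Pool.Agent.X87.CSD.Scales

/-! # Lacunary values and ratios near a line -/

set_option autoImplicit false

open Filter Topology Matrix

namespace Pool.Agent.X87.CSD

open H715R2 Pool.Agent.Y327 Pool.Agent.W241.Lac

variable {d : ℕ}

/-- the integer points which are small at the time `t` -/
def SmallAt (g : Matrix (Fin d) (Fin d) ℝ) (k : Fin d) (t R : ℝ) : Set (Fin d → ℤ) :=
  {x | x ≠ 0 ∧ ∀ l, at1 k t l * |(g *ᵥ iR x) l| < R}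

/-- the absolute values `< T` at the nonzero integer points which are small at a time in `𝒯` -/
def SmallVals (g : Matrix (Fin d) (Fin d) ℝ) (k : Fin d) (𝒯 : Set ℝ) (R T : ℝ) : Set ℝ :=
  {v | ∃ t ∈ 𝒯, ∃ x ∈ SmallAt g k t R, |FF g (iR x)| = v ∧ v < T}

/-- the ratios of the factor `k` at two integer points which are small at a common time in `𝒯` -/
def LineRatios (g : Matrix (Fin d) (Fin d) ℝ) (k : Fin d) (𝒯 : Set ℝ) (R : ℝ) : Set ℝ :=
  {v | ∃ t ∈ 𝒯, ∃ x ∈ SmallAt g k t R, ∃ y ∈ SmallAt g k t R,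
    |(g *ᵥ iR x) k| / |(g *ᵥ iR y) k| = v}

lemma smallVals_closure {g h : Matrix (Fin d) (Fin d) ℝ} {k : Fin d} {𝒯 : Set ℝ}
    (hh : h ∈ LimSet g k 𝒯) {R T : ℝ} {m : Fin d → ℤ} (hm0 : m ≠ 0)
    (hm : ∀ l, |(h *ᵥ iR m) l| < R) (hmT : |FF h (iR m)| < T) :
    |FF h (iR m)| ∈ closure (SmallVals g k 𝒯 R T) := by
  have h1 := Set.mem_iInter.1 hh 0
  obtain ⟨u, hu, hulim⟩ := exists_seq_of_mem_closure h1
  have h2 : Tendsto (fun n => |FF (u n) (iR m)|) atTop (𝓝 |FF h (iR m)|) :=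
    ((continuous_FF (iR m)).abs.tendsto h).comp hulim
  have h3 : ∀ᶠ n in atTop, ∀ l, |(u n *ᵥ iR m) l| < R := by
    refine eventually_all.2 fun l => ?_
    exact (((continuous_mulVec_apply (iR m) l).abs.tendsto h).comp hulim).eventually
      (gt_mem_nhds (hm l))
  refine mem_closure_of_tendsto h2 ?_
  filter_upwards [h3, h2.eventually (gt_mem_nhds hmT)] with n hn hnT
  obtain ⟨t, γ, ht, hγ, hun⟩ := hu n
  have hmv : ∀ l, (u n *ᵥ iR m) l = at1 k t l * (g *ᵥ iR (γ *ᵥ m)) l := by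
    intro l
    rw [hun, orb_mulVec]
  refine ⟨t, ht ⟨by simp, by simp⟩, γ *ᵥ m, ⟨gam_ne hγ hm0, fun l => ?_⟩, ?_, hnT⟩
  · have h4 := hn l
    rw [hmv, abs_mul, abs_of_pos (at1_pos k t l)] at h4
    exact h4
  · rw [hun, FF_orb (at1_prod k t)]

lemma lineRatios_closure {g h : Matrix (Fin d) (Fin d) ℝ} {ν : ℝ} (hν : 0 < ν) (hnu : HasNu g ν)
    {k : Fin d} {𝒯 : Set ℝ} (hh : h ∈ LimSet g k 𝒯) {R : ℝ} (hR : ∀ i l, |h i l| < R)
    (l l' : Fin d) : |h k l| / |h k l'| ∈ closure (LineRatios g k 𝒯 R) := by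
  have hnu' := hasNu_closure hnu (LimSet_sub g k 𝒯 hh)
  have h1 := Set.mem_iInter.1 hh 0
  obtain ⟨u, hu, hulim⟩ := exists_seq_of_mem_closure h1
  have hne : |h k l'| ≠ 0 := by
    have := row_ne hν hnu' (ue_ne l') k
    rw [mulVec_ue] at this
    exact abs_ne_zero.2 this
  have h2 : Tendsto (fun n => |u n k l| / |u n k l'|) atTop (𝓝 (|h k l| / |h k l'|)) :=
    (((cont_entry k l).abs.tendsto h).comp hulim).div
      (((cont_entry k l').abs.tendsto h).comp hulim) hne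
  have h3 : ∀ᶠ n in atTop, ∀ i l, |u n i l| < R := by
    refine eventually_all.2 fun i => eventually_all.2 fun l => ?_
    exact (((cont_entry i l).abs.tendsto h).comp hulim).eventually (gt_mem_nhds (hR i l))
  refine mem_closure_of_tendsto h2 ?_
  filter_upwards [h3] with n hn
  obtain ⟨t, γ, ht, hγ, hun⟩ := hu n
  have hmv : ∀ i l, u n i l = at1 k t i * (g *ᵥ iR (γ *ᵥ ue l)) i := by
    intro i l
    rw [← orb_mulVec, ← hun, mulVec_ue]
  refine ⟨t, ht ⟨by simp, by simp⟩, γ *ᵥ ue l, ⟨gam_ne hγ (ue_ne l), fun i => ?_⟩,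
    γ *ᵥ ue l', ⟨gam_ne hγ (ue_ne l'), fun i => ?_⟩, ?_⟩
  · have h4 := hn i l
    rw [hmv, abs_mul, abs_of_pos (at1_pos k t i)] at h4
    exact h4
  · have h4 := hn i l'
    rw [hmv, abs_mul, abs_of_pos (at1_pos k t i)] at h4
    exact h4
  · rw [hmv, hmv, abs_mul, abs_mul, abs_of_pos (at1_pos k t k),
      mul_div_mul_left _ _ (at1_pos k t k).ne']

/-- a minimal set along the line with a pair which differs in the row `k` -/
theorem line_min_pair (hd : 3 ≤ d) {g : Matrix (Fin d) (Fin d) ℝ} (hg : g.det ≠ 0) {ν : ℝ}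
    (hν : 0 < ν) (hnu : HasNu g ν) (hint : ¬ PropInt g) (k : Fin d) {𝒯 : Set ℝ}
    (h𝒯 : LongIntervals 𝒯) :
    ∃ Q ⊆ LimSet g k 𝒯, ∃ j : Fin d, j ≠ k ∧ MinB (pk k j) Q ∧ (∀ h ∈ Q, |h.det| = |g.det|) ∧
      (∀ h ∈ Q, HasNu h ν) ∧ ∃ h₁ ∈ Q, ∃ w : Fin d → ℝ, w k = 0 ∧ w ≠ 0 ∧
        Md {k} (fun _ => w) * h₁ ∈ Q := by
  classical
  have hd0 : 0 < d := by omega
  obtain ⟨j, hj⟩ : ∃ j : Fin d, j ≠ k := by
    by_contra hcon
    push Not at hcon
    have h1 : Fintype.card (Fin d) ≤ 1 := Fintype.card_le_one_iff.2 fun a b => by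
      rw [hcon a, hcon b]
    rw [Fintype.card_fin] at h1
    omega
  have hsub := LimSet_sub g k 𝒯
  obtain ⟨Q, hQY, hQ⟩ := exists_minB hd0 (pk k j) (abs_pos.2 hg) hν (LimSet_closed g k 𝒯)
    (LimSet_nonempty hd0 hg hν hnu k h𝒯) (LimSet_inv hj 𝒯)
    (fun h hh => abs_det_closure (hsub hh)) (fun h hh => hasNu_closure hnu (hsub hh))
  obtain ⟨h₀, hh₀⟩ := hQ.ne
  obtain ⟨h, hh, w, hwk, hw0, hw⟩ := row_pair hd0 (abs_pos.2 hg) hν
    (fun h hh => abs_det_closure (hsub (hQY hh))) (fun h hh => hasNu_closure hnu (hsub (hQY hh)))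
    hQ.closed hQ.inv hh₀ (pk_single hj)
    (frequently_row hd hg hν hnu hint (hQY.trans hsub) hQ hh₀ (k := k) (pk_single hj))
  exact ⟨Q, hQY, j, hj, hQ, fun h hh => abs_det_closure (hsub (hQY hh)),
    fun h hh => hasNu_closure hnu (hsub (hQY hh)), h, hh, w, hwk, hw0, hw⟩

/-- **Lacunary small values near a line.** -/
theorem line_values_lac (hd : 3 ≤ d) {g : Matrix (Fin d) (Fin d) ℝ} (hg : g.det ≠ 0) {ν : ℝ}
    (hν : 0 < ν) (hnu : HasNu g ν) (T : ℝ)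
    (hT : (d.factorial : ℝ) * |g.det| < (d : ℝ) ^ d * T ∨
      ∀ h : Matrix (Fin d) (Fin d) ℝ, |h.det| = |g.det| →
        ∃ m : Fin d → ℤ, m ≠ 0 ∧ |FF h (iR m)| < T)
    (k : Fin d) {𝒯 : Set ℝ} (h𝒯 : LongIntervals 𝒯) (C : ℕ → Set ℝ) (hC : ∀ n, Lacunary (C n))
    (hcov : ∀ R : ℝ, closure (SmallVals g k 𝒯 R T) ⊆ ⋃ n, C n) : PropInt g := by
  classical
  have hd0 : 0 < d := by omega
  have hV : 0 < |g.det| := abs_pos.2 hg
  by_contra hint
  obtain ⟨Q, hQY, j, hj, hQ, hQdet, hQnu, h₁, hh₁, w, hwk, hw0, hw⟩ :=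
    line_min_pair hd hg hν hnu hint k h𝒯
  have hT' : ∀ h : Matrix (Fin d) (Fin d) ℝ, |h.det| = |g.det| →
      ∃ m : Fin d → ℤ, m ≠ 0 ∧ |FF h (iR m)| < T := by
    rcases hT with hT | hT
    · exact fun h hh => mink_prod hd0 |g.det| T hV hT h hh
    · exact hT
  obtain ⟨h₀, hh₀, hloc⟩ := baire_local hQ.closed hQ.ne
    (fun (m : Fin d → ℤ) h => |FF h (iR m)|) (fun m => (continuous_FF (iR m)).abs.continuousOn)
    (fun n => closure (C n)) (fun n => isClosed_closure)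
  obtain ⟨r, hr, hrvec⟩ := exists_vec_gen hd0 |g.det| ν T hV hν hT'
  obtain ⟨m, hmT, hmz, hmw⟩ := exists_vec_ne (c₀ := ν / r ^ (d - 1)) (r := r) (by positivity)
    (hrvec h₀ (hQdet h₀ hh₀) (hQnu h₀ hh₀)) hw0
  have hm : m ≠ 0 := by
    rintro rfl
    apply hmz ⟨0, hd0⟩
    have : iR (0 : Fin d → ℤ) = 0 := by funext l; simp [iR]
    rw [this, mulVec_zero]
    rfl
  obtain ⟨R, hR⟩ := exists_nat_gt (∑ l, |(h₀ *ᵥ iR m) l|)
  have hR' : ∀ l, |(h₀ *ᵥ iR m) l| < R := fun l =>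
    (Finset.single_le_sum (f := fun l => |(h₀ *ᵥ iR m) l|) (fun _ _ => abs_nonneg _)
      (Finset.mem_univ l)).trans_lt hR
  have hmem := hcov R (smallVals_closure (hQY hh₀) hm hR' hmT)
  obtain ⟨n, hn⟩ := hloc m (by
    obtain ⟨n, hn⟩ := Set.mem_iUnion.1 hmem
    exact Set.mem_iUnion.2 ⟨n, subset_closure hn⟩)
  obtain ⟨c, c', hc, hc', hsens⟩ := value_sens (k := k) w m hmz hmw
  exact lac_contra hj hV hν hQ hQdet hQnu hh₁ hwk hw hh₀
    (f := fun h => |FF h (iR m)|) (hC n).closure hn hc hc' hsens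

/-- **Lacunary ratios near a line.** -/
theorem line_ratios_lac (hd : 3 ≤ d) {g : Matrix (Fin d) (Fin d) ℝ} (hg : g.det ≠ 0) {ν : ℝ}
    (hν : 0 < ν) (hnu : HasNu g ν) (k : Fin d) {𝒯 : Set ℝ} (h𝒯 : LongIntervals 𝒯)
    (C : ℕ → Set ℝ) (hC : ∀ n, Lacunary (C n))
    (hcov : ∀ R : ℝ, closure (LineRatios g k 𝒯 R) ⊆ ⋃ n, C n) : PropInt g := by
  classical
  have hd0 : 0 < d := by omega
  have hV : 0 < |g.det| := abs_pos.2 hg
  let j₀ : Fin d := ⟨0, hd0⟩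
  by_contra hint
  obtain ⟨Q, hQY, j, hj, hQ, hQdet, hQnu, h₁, hh₁, w, hwk, hw0, hw⟩ :=
    line_min_pair hd hg hν hnu hint k h𝒯
  have hne : ∀ h ∈ Q, ∀ i l, h i l ≠ 0 := by
    intro h hh i l
    have := row_ne hν (hQnu h hh) (ue_ne l) i
    rwa [mulVec_ue] at this
  obtain ⟨h₀, hh₀, hloc⟩ := baire_local hQ.closed hQ.ne
    (fun (p : Fin d × Fin d) h => |h k p.1| / |h k p.2|)
    (fun p => ((cont_entry k p.1).abs.continuousOn).div ((cont_entry k p.2).abs.continuousOn)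
      fun h hh => abs_ne_zero.2 (hne h hh k p.2))
    (fun n => closure (C n)) (fun n => isClosed_closure)
  obtain ⟨l, l', hll⟩ : ∃ l l', (w ᵥ* h₀) l * h₀ k l' - (w ᵥ* h₀) l' * h₀ k l ≠ 0 := by
    by_contra hcon
    push Not at hcon
    have hdet0 : h₀.det ≠ 0 := by
      rw [← abs_ne_zero, hQdet h₀ hh₀]; exact hV.ne'
    have hu : IsUnit h₀.det := isUnit_iff_ne_zero.2 hdet0
    have h1 : w ᵥ* h₀ = ((w ᵥ* h₀) j₀ / h₀ k j₀) • ((Pi.single k 1 : Fin d → ℝ) ᵥ* h₀) := by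
      rw [Matrix.single_one_vecMul]
      funext l
      rw [Pi.smul_apply, smul_eq_mul]
      have h2 := hcon l j₀
      have h3 := hne h₀ hh₀ k j₀
      rw [eq_comm, div_mul_eq_mul_div, div_eq_iff h3]
      show (w ᵥ* h₀) j₀ * h₀ k l = (w ᵥ* h₀) l * h₀ k j₀
      linarith
    have h2 := congrArg (fun v => v ᵥ* h₀⁻¹) h1
    simp only [Matrix.smul_vecMul, Matrix.vecMul_vecMul, Matrix.mul_nonsing_inv _ hu,
      Matrix.vecMul_one] at h2
    have h3 : (w ᵥ* h₀) j₀ / h₀ k j₀ = 0 := by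
      have h4 := congrFun h2 k
      rw [hwk, Pi.smul_apply, Pi.single_eq_same, smul_eq_mul, mul_one] at h4
      exact h4.symm
    rw [h3, zero_smul] at h2
    exact hw0 h2
  obtain ⟨R, hR⟩ := exists_nat_gt (∑ i, ∑ l, |h₀ i l|)
  have hR' : ∀ i l, |h₀ i l| < R := fun i l => by
    refine lt_of_le_of_lt ?_ hR
    exact (Finset.single_le_sum (f := fun l => |h₀ i l|) (fun _ _ => abs_nonneg _)
      (Finset.mem_univ l)).trans (Finset.single_le_sum (f := fun i => ∑ l, |h₀ i l|)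
        (fun _ _ => Finset.sum_nonneg fun _ _ => abs_nonneg _) (Finset.mem_univ i))
  have hmem := hcov R (lineRatios_closure hν hnu (hQY hh₀) hR' l l')
  obtain ⟨n, hn⟩ := hloc (l, l') (by
    obtain ⟨n, hn⟩ := Set.mem_iUnion.1 hmem
    exact Set.mem_iUnion.2 ⟨n, subset_closure hn⟩)
  obtain ⟨c, c', hc, hc', hsens⟩ := ratio_sens (k := k) (l := l) (l' := l') w
    (hne h₀ hh₀ k l) (hne h₀ hh₀ k l') hll
  exact lac_contra hj hV hν hQ hQdet hQnu hh₁ hwk hw hh₀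
    (f := fun h => |h k l| / |h k l'|) (hC n).closure hn hc hc' hsens

/-- integral forms have finitely many values of bounded size -/
theorem finite_smallVals {g : Matrix (Fin d) (Fin d) ℝ} (hP : PropInt g) (k : Fin d) (𝒯 : Set ℝ)
    (R T : ℝ) : (SmallVals g k 𝒯 R T).Finite := by
  refine ((finite_lineValues hP k 𝒯 R).image (fun v => |v|)).subset ?_
  rintro v ⟨t, ht, x, ⟨-, hx⟩, hv, -⟩
  exact ⟨_, ⟨x, ⟨t, ht, hx⟩, rfl⟩, hv⟩

/-- integral forms have finitely many local ratios -/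
theorem finite_lineRatios (hd : 3 ≤ d) {g : Matrix (Fin d) (Fin d) ℝ} (hg : g.det ≠ 0) {ν : ℝ}
    (hν : 0 < ν) (hnu : HasNu g ν) (hP : PropInt g) (k : Fin d) (𝒯 : Set ℝ) (R : ℝ) :
    (LineRatios g k 𝒯 R).Finite := by
  by_cases hR : 0 < R
  swap
  · convert Set.finite_empty
    refine Set.eq_empty_of_forall_notMem ?_
    rintro v ⟨t, ht, x, ⟨-, hx⟩, -⟩
    have h1 := hx k
    exact absurd ((mul_nonneg (at1_pos k t k).le (abs_nonneg _)).trans_lt h1) hR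
  refine (finite_ratios hd hg hν hnu hP k (R ^ d + 1) (R ^ d / ν + 1)).subset ?_
  rintro v ⟨t, ht, x, ⟨hx0, hx⟩, y, ⟨hy0, hy⟩, hv⟩
  have hval : ∀ z : Fin d → ℤ, (∀ l, at1 k t l * |(g *ᵥ iR z) l| < R) →
      |FF g (iR z)| < R ^ d + 1 := by
    intro z hz
    have h1 : |FF g (iR z)| = ∏ l, (at1 k t l * |(g *ᵥ iR z) l|) := by
      rw [Finset.prod_mul_distrib, at1_prod, one_mul, FF_eq, Finset.abs_prod]
    rw [h1]
    have h2 : ∏ l : Fin d, (at1 k t l * |(g *ᵥ iR z) l|) ≤ ∏ _l : Fin d, R :=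
      Finset.prod_le_prod (fun l _ => mul_nonneg (at1_pos k t l).le (abs_nonneg _))
        (fun l _ => (hz l).le)
    rw [Finset.prod_const, Finset.card_univ, Fintype.card_fin] at h2
    linarith
  have hlow : ∀ z : Fin d → ℤ, z ≠ 0 → (∀ l, at1 k t l * |(g *ᵥ iR z) l| < R) →
      ∀ l, ν / R ^ (d - 1) ≤ at1 k t l * |(g *ᵥ iR z) l| := by
    intro z hz0 hz l
    have h1 := hnu z hz0
    have h2 : |FF g (iR z)| = ∏ l, (at1 k t l * |(g *ᵥ iR z) l|) := by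
      rw [Finset.prod_mul_distrib, at1_prod, one_mul, FF_eq, Finset.abs_prod]
    rw [h2] at h1
    exact lower_bound _ hR (fun l => mul_nonneg (at1_pos k t l).le (abs_nonneg _)) hz h1 l
  have hcomp : ∀ z z' : Fin d → ℤ, z' ≠ 0 → (∀ l, at1 k t l * |(g *ᵥ iR z) l| < R) →
      (∀ l, at1 k t l * |(g *ᵥ iR z') l| < R) → ∀ l,
      |(g *ᵥ iR z) l| < (R ^ d / ν + 1) * |(g *ᵥ iR z') l| := by
    intro z z' hz'0 hz hz' l
    have h1 := hlow z' hz'0 hz' l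
    have h2 := hz l
    have hd0 : 0 < d := by omega
    have h3 : R ^ d / ν * (ν / R ^ (d - 1)) = R := by
      have h4 : R ^ d = R ^ (d - 1) * R := by
        rw [← pow_succ]; congr 1; omega
      rw [h4]
      field_simp
    have h5 : 0 ≤ R ^ d / ν := by positivity
    have h6 : R ≤ R ^ d / ν * (at1 k t l * |(g *ᵥ iR z') l|) :=
      h3.symm.le.trans (mul_le_mul_of_nonneg_left h1 h5)
    have h7 : 0 < at1 k t l * |(g *ᵥ iR z') l| :=
      (div_pos hν (pow_pos hR _)).trans_le h1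
    have h8 : at1 k t l * |(g *ᵥ iR z) l| < at1 k t l * ((R ^ d / ν + 1) * |(g *ᵥ iR z') l|) := by
      nlinarith
    exact lt_of_mul_lt_mul_left h8 (at1_pos k t l).le
  exact ⟨x, y, hx0, hy0, hval x hx, hval y hy, fun l =>
    ⟨hcomp x y hy0 hx hy l, hcomp y x hx0 hy hx l⟩, hv⟩

/-- countable sets are contained in countable unions of lacunary sets -/
lemma exists_cover {S : Set ℝ} (hS : S.Countable) :
    ∃ C : ℕ → Set ℝ, (∀ n, Lacunary (C n)) ∧ S ⊆ ⋃ n, C n := by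
  rcases S.eq_empty_or_nonempty with rfl | hne
  · refine ⟨fun _ => ∅, fun n R hR ε hε => ⟨ε / 2, by linarith, by linarith, ?_⟩, by simp⟩
    intro s hs
    exact absurd hs (Set.notMem_empty s)
  · obtain ⟨f, rfl⟩ := hS.exists_eq_range hne
    refine ⟨fun n => {f n}, fun n R hR ε hε => ⟨ε / 2, by linarith, by linarith, ?_⟩, ?_⟩
    · intro s hs t ht
      rw [Set.mem_singleton_iff.1 hs, Set.mem_singleton_iff.1 ht, sub_self, abs_zero]
      left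
      linarith
    · rintro _ ⟨n, rfl⟩
      exact Set.mem_iUnion.2 ⟨n, rfl⟩

lemma smallVals_mono {g : Matrix (Fin d) (Fin d) ℝ} {k : Fin d} {𝒯 : Set ℝ} {R R' T : ℝ}
    (h : R ≤ R') : SmallVals g k 𝒯 R T ⊆ SmallVals g k 𝒯 R' T := by
  rintro v ⟨t, ht, x, ⟨hx0, hx⟩, hv⟩
  exact ⟨t, ht, x, ⟨hx0, fun l => (hx l).trans_le h⟩, hv⟩

lemma lineRatios_mono {g : Matrix (Fin d) (Fin d) ℝ} {k : Fin d} {𝒯 : Set ℝ} {R R' : ℝ}
    (h : R ≤ R') : LineRatios g k 𝒯 R ⊆ LineRatios g k 𝒯 R' := by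
  rintro v ⟨t, ht, x, ⟨hx0, hx⟩, y, ⟨hy0, hy⟩, hv⟩
  exact ⟨t, ht, x, ⟨hx0, fun l => (hx l).trans_le h⟩, y, ⟨hy0, fun l => (hy l).trans_le h⟩, hv⟩

/-- a monotone family of finite sets has a lacunary cover -/
lemma cover_of_finite {S : ℝ → Set ℝ} (hmono : ∀ R R', R ≤ R' → S R ⊆ S R')
    (hfin : ∀ R, (S R).Finite) :
    ∃ C : ℕ → Set ℝ, (∀ n, Lacunary (C n)) ∧ ∀ R, closure (S R) ⊆ ⋃ n, C n := by
  obtain ⟨C, hC, hS⟩ := exists_cover (S := ⋃ n : ℕ, S n)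
    (Set.countable_iUnion fun n => (hfin n).countable)
  refine ⟨C, hC, fun R => ?_⟩
  rw [(hfin R).isClosed.closure_eq]
  obtain ⟨n, hn⟩ := exists_nat_ge R
  exact (hmono R n hn).trans ((Set.subset_iUnion (fun n : ℕ => S n) n).trans hS)

end Pool.Agent.X87.CSD
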